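import Pool.Agent.Lib.MP_aa40d3_nt.CP.Defs
import Pool.Agent.Lib.MP_aa40d3_nt.SP.Det

/-! From the projective statement for the direct image to algebraic solutions on the curve. -/

open Polynomial Matrix Filter Topology
open scoped Polynomial.Bivariate

namespace Pool.Agent.GR.CP

open CV

variable {r d n : ℕ}

theorem ode_uq {γ : Type} [Finite γ] {W : ℂ → Matrix (Fin r) γ ℂ}
    {M : ℂ → Matrix (Fin r) (Fin r) ℂ} {s : ℂ}
    (hM : ∀ᶠ x in 𝓝 s, ∀ a b, DifferentiableAt ℂ (fun z => M z a b) x)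
    (hW : ∀ᶠ x in 𝓝 s, ∀ a c, HasDerivAt (fun z => W z a c) ((M x * W x) a c) x)
    (h0 : W s = 0) : ∀ᶠ x in 𝓝 s, W x = 0 := by
  have h := fun c a => NP.cv1_uq (F := fun i z => W z i c) (A := fun j i z => M z i j) (s := s)
    (fun i => Complex.analyticAt_iff_eventually_differentiableAt.2
      (hW.mono fun x hx => (hx i c).differentiableAt))
    (fun j i => Complex.analyticAt_iff_eventually_differentiableAt.2 (hM.mono fun x hx => hx i j))
    (fun i => hW.mono fun x hx => by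
      rw [(hx i c).deriv, Matrix.mul_apply]
      exact Finset.sum_congr rfl fun j _ => mul_comm _ _)
    (fun i => by rw [h0]; rfl) a
  filter_upwards [eventually_all.2 fun c => eventually_all.2 (h c)] with x hx
  exact Matrix.ext fun a c => hx c a

theorem ode_uq1 {g τ : ℂ → ℂ} {s : ℂ} (hM : ∀ᶠ x in 𝓝 s, DifferentiableAt ℂ τ x)
    (hW : ∀ᶠ x in 𝓝 s, HasDerivAt g (τ x * g x) x) (h0 : g s = 0) : ∀ᶠ x in 𝓝 s, g x = 0 :=
  NP.cv1_uq (N := 1) (F := fun _ => g) (A := fun _ _ => τ) (s := s)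
    (fun _ => Complex.analyticAt_iff_eventually_differentiableAt.2
      (hW.mono fun _ hx => hx.differentiableAt))
    (fun _ _ => Complex.analyticAt_iff_eventually_differentiableAt.2 hM)
    (fun _ => hW.mono fun x hx => by rw [hx.deriv, Fin.sum_univ_one, mul_comm]) (fun _ => h0) 0

theorem hasDerivAt_det {Z : ℂ → Matrix (Fin r) (Fin r) ℂ} {M : Matrix (Fin r) (Fin r) ℂ} {x : ℂ}
    (h : ∀ a b, HasDerivAt (fun z => Z z a b) ((M * Z x) a b) x) :
    HasDerivAt (fun z => (Z z).det) (M.trace * (Z x).det) x := by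
  have e : ∀ A : Matrix (Fin r) (Fin r) ℂ, A.det =
      ∑ σ : Equiv.Perm (Fin r), ((Equiv.Perm.sign σ : ℤ) : ℂ) * ∏ i, A i (σ i) := fun A => by
    rw [← det_transpose, det_apply']
    rfl
  have h1 : ∀ i, ((Z x).updateRow i ((M * Z x) i)).det = M i i * (Z x).det := fun i => by
    rw [← smul_eq_mul (M i i), ← det_updateRow_sum (Z x) i (M i)]
    congr 2
    funext b
    simp [Matrix.mul_apply]
  simp only [e]
  refine (HasDerivAt.fun_sum fun σ _ => (HasDerivAt.fun_finsetProd fun i _ =>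
    h i (σ i)).const_mul _).congr_deriv ?_
  rw [← e, Matrix.trace, Finset.sum_mul]
  simp only [diag_apply, ← h1]
  simp only [e, Finset.mul_sum]
  rw [Finset.sum_comm]
  refine Finset.sum_congr rfl fun i _ => Finset.sum_congr rfl fun σ _ => congrArg _ ?_
  rw [← Finset.prod_erase_mul _ _ (Finset.mem_univ i), updateRow_self, smul_eq_mul]
  exact congrArg (· * _) (Finset.prod_congr rfl fun j hj => by
    rw [updateRow_ne (Finset.ne_of_mem_erase hj)])

theorem algF_det {V : Set ℂ} {Z : ℂ → Matrix (Fin r) (Fin r) ℂ}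
    (h : ∀ a b, AlgF V fun x => Z x a b) : AlgF V fun x => (Z x).det := by
  simp only [det_apply']
  refine AlgF.sum fun σ _ => (algF_const _ _).mul ?_
  induction (Finset.univ : Finset (Fin r)) using Finset.induction_on with
  | empty => simpa using algF_const V 1
  | insert a s ha ih =>
    simp only [Finset.prod_insert ha]
    exact (h _ _).mul ih

theorem alg_of_proj {V : Set ℂ} {Z : ℂ → Matrix (Fin r) (Fin r) ℂ}
    (h0 : ∀ x ∈ V, (Z x).det ≠ 0) (h1 : ∀ a, ∀ x ∈ V, (Z x).adjugate a a ≠ 0)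
    (hd : AlgF V fun x => (Z x).det)
    (h : ∀ a b c, AlgF V fun x => (Z x).adjugate a a * Z x b c) (b c : Fin r) :
    AlgF V fun x => Z x b c := by
  have h2 : AlgF V fun x => (Z x).adjugate b b := by
    refine algF_root (Fin.pos b) (((algF_det (Z := fun x => (Z x).adjugate b b • Z x)
      (h b)).mul (algF_inv' h0 hd)).congr fun x hx => ?_)
    rw [det_smul, Fintype.card_fin, mul_inv_cancel_right₀ (h0 x hx)]
  exact ((algF_inv' (h1 b) h2).mul (h b b c)).congr fun x hx =>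
    (inv_mul_cancel_left₀ (h1 b x hx) _).symm

theorem gau_back {N : ℕ} {D D' ρ : ℂ[X]} {B B' G : PM N} (h : Gau D B D' B' ρ G)
    {V : ℂ → Matrix (Fin N) (Fin N) ℂ} {x : ℂ} (hDx : D.eval x ≠ 0) (hGx : G.det.eval x ≠ 0)
    (hD'x : D'.eval x ≠ 0) (hV : ∀ a b, HasDerivAt (fun z => V z a b)
      (((D'.eval x)⁻¹ • (B'.map (eval x) * V x)) a b) x) (hρx : ρ.eval x ≠ 0)
    {U : ℂ → Matrix (Fin N) (Fin N) ℂ}
    (hU : U = fun x => (ρ.eval x * (G.det.eval x)⁻¹) • (G.adjugate.map (eval x) * V x)) :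
    G.map (eval x) * U x = ρ.eval x • V x ∧ ∀ a b, HasDerivAt (fun z => U z a b)
      (((D.eval x)⁻¹ • (B.map (eval x) * U x)) a b) x := by
  have hrel : ∀ x, G.det.eval x ≠ 0 → G.map (eval x) * U x = ρ.eval x • V x := by
    intro x hx
    simp only [hU]
    rw [Matrix.mul_smul, ← Matrix.mul_assoc, gaua_adj, Matrix.smul_mul, Matrix.one_mul, smul_smul,
      mul_assoc, inv_mul_cancel₀ hx, mul_one]
  refine ⟨hrel x hGx, ?_⟩
  obtain ⟨U', hU'⟩ : ∃ U' : Matrix (Fin N) (Fin N) ℂ,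
      ∀ a b, HasDerivAt (fun z => U z a b) (U' a b) x :=
    ⟨_, by
      rw [hU]
      exact gaua_smul ((ρ.hasDerivAt x).fun_mul ((G.det.hasDerivAt x).fun_inv hGx))
        (gaua_mul (gaua_poly G.adjugate x) hV)⟩
  have e1 : (G.map derivative).map (eval x) * U x + G.map (eval x) * U' =
      (derivative ρ).eval x • V x +
        ρ.eval x • ((D'.eval x)⁻¹ • (B'.map (eval x) * V x)) := by
    ext a b
    refine (gaua_mul (gaua_poly G x) hU' a b).unique ?_
    refine (gaua_smul (ρ.hasDerivAt x) hV a b).congr_of_eventuallyEq ?_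
    filter_upwards [G.det.continuous.continuousAt.eventually_ne hGx] with z hz
    rw [hrel z hz]
  have e2 := congrArg (· * U x) (gaua_eval h x)
  simp only [Matrix.smul_mul, Matrix.add_mul, Matrix.sub_mul, Matrix.mul_assoc, hrel x hGx,
    Matrix.mul_smul] at e2
  have e3 : G.map (eval x) * U' =
      G.map (eval x) * ((D.eval x)⁻¹ • (B.map (eval x) * U x)) := by
    rw [Matrix.mul_smul]
    ext a b
    have f1 := congrFun (congrFun e1 a) b
    have f2 := congrFun (congrFun e2 a) b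
    simp only [Matrix.add_apply, Matrix.sub_apply, Matrix.smul_apply, smul_eq_mul] at f1 f2 ⊢
    field_simp at f1 f2 ⊢
    apply mul_left_cancel₀ hD'x
    linear_combination D.eval x * f1 - f2
  have hu : IsUnit (G.map (eval x)).det := by
    rw [gaua_det]
    exact hGx.isUnit
  have e4 : U' = (D.eval x)⁻¹ • (B.map (eval x) * U x) := by
    have := congrArg ((G.map (eval x))⁻¹ * ·) e3
    simpa only [← Matrix.mul_assoc, nonsing_inv_mul _ hu, Matrix.one_mul] using this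
  rw [← e4]
  exact hU'

theorem conj_back {N : ℕ} {g g' U V Θ : Matrix (Fin N) (Fin N) ℂ} {a e : ℂ}
    (he : e ≠ 0) (hV : V.det ≠ 0) (hg : g * g' = e • 1) (h : g * U = a • V) :
    U * (e⁻¹ • (V⁻¹ * (g * Θ * g') * V)) = Θ * U := by
  have h1 : IsUnit g := (isUnit_iff_isUnit_det g).2 (Ne.isUnit fun h0 => by
    have h2 := congrArg det hg
    rw [det_mul, h0, zero_mul, det_smul, det_one, mul_one] at h2
    exact pow_ne_zero _ he h2.symm)
  have h2 : e • U = a • (g' * V) := h1.mul_left_cancel (by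
    rw [Matrix.mul_smul, h, Matrix.mul_smul, ← Matrix.mul_assoc, hg, Matrix.smul_mul,
      Matrix.one_mul, smul_comm])
  refine h1.mul_left_cancel ?_
  rw [← Matrix.mul_assoc, h, Matrix.smul_mul, Matrix.mul_smul, ← Matrix.mul_assoc,
    mul_nonsing_inv_cancel_left _ _ hV.isUnit, Matrix.mul_assoc, smul_comm, ← Matrix.mul_smul,
    ← h2, Matrix.mul_smul, inv_smul_smul₀ he, Matrix.mul_assoc]

/-- The form of the hypothesis before the gauge transformation. -/
theorem on_back {N : ℕ} {D ρ : ℂ[X]} {B G : PM N} {t : Fin n → ℂ}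
    {A : Fin n → Matrix (Fin N) (Fin N) ℂ} (g : Gau D B (dl t) (pm t A) ρ G) (hD : D ≠ 0)
    (hρ : ρ ≠ 0) (hG : G.det ≠ 0) {T : Set (PM N)} (hA : AlgOn t A T) {w : ℂ[X]} (hw : w ≠ 0) :
    ∃ (x₀ : ℂ) (ε : ℝ) (U : ℂ → Matrix (Fin N) (Fin N) ℂ), 0 < ε ∧
      (∀ x ∈ Metric.ball x₀ ε, w.eval x ≠ 0 ∧ D.eval x ≠ 0 ∧ (U x).det ≠ 0 ∧ ∀ a b,
        HasDerivAt (fun z => U z a b) (((D.eval x)⁻¹ • (B.map (eval x) * U x)) a b) x) ∧
      (AlgF (Metric.ball x₀ ε) fun x => (U x).det) ∧ ∀ Θ, G * Θ * G.adjugate ∈ T →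
        ∃ L : ℂ → Matrix (Fin N) (Fin N) ℂ, (∀ a b, AlgF (Metric.ball x₀ ε) fun x => L x a b) ∧
          ∀ x ∈ Metric.ball x₀ ε, U x * L x = Θ.map (eval x) * U x := by
  obtain ⟨x₀, ε, V, hε, h1, h2, h3⟩ := hA
  obtain ⟨x₁, η, hη, hsub, hne⟩ :=
    exists_ball (mul_ne_zero (mul_ne_zero (mul_ne_zero hw hD) hρ) hG) x₀ hε
  simp only [eval_mul, ne_eq, mul_eq_zero, not_or] at hne
  obtain ⟨U, hU⟩ : ∃ U : ℂ → Matrix (Fin N) (Fin N) ℂ,
    U = fun x => (ρ.eval x * (G.det.eval x)⁻¹) • (G.adjugate.map (eval x) * V x) := ⟨_, rfl⟩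
  have key := fun x (hx : x ∈ Metric.ball x₁ η) => gau_back g (V := V) (hne x hx).1.1.2
    (hne x hx).2 (mono_dl_ne t (h1 x (hsub hx)).1) (by
      have e : (pm t A).map (eval x) = (dl t).eval x • ∑ i, (x - t i)⁻¹ • A i := by
        ext a b
        exact mono_pm t A (h1 x (hsub hx)).1 a b
      rw [e, Matrix.smul_mul, inv_smul_smul₀ (mono_dl_ne t (h1 x (hsub hx)).1)]
      exact (h1 x (hsub hx)).2.2) (hne x hx).1.2 hU
  have hd : ∀ x ∈ Metric.ball x₁ η, (U x).det = (G.det.eval x)⁻¹ * ρ.eval x ^ N * (V x).det :=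
    fun x hx => by
      have e := congrArg det (key x hx).1
      rw [det_mul, det_smul, gaua_det, Fintype.card_fin] at e
      rw [mul_assoc, ← e, inv_mul_cancel_left₀ (hne x hx).2]
  have hi := algF_inv hG fun x hx => (hne x hx).2
  refine ⟨x₁, η, U, hη, fun x hx => ⟨(hne x hx).1.1.1, (hne x hx).1.1.2, ?_, (key x hx).2⟩,
    ((hi.mul ((algF_poly _ ρ).pow N)).mul (AlgF.mono h2 hsub)).congr hd, fun Θ hΘ =>
      ⟨fun x => (G.det.eval x)⁻¹ • ((V x)⁻¹ * (G * Θ * G.adjugate).map (eval x) * V x),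
        fun a b => hi.mul (AlgF.mono (h3 _ hΘ a b) hsub), fun x hx => ?_⟩⟩
  · rw [hd x hx]
    exact mul_ne_zero (mul_ne_zero (inv_ne_zero (hne x hx).2) (pow_ne_zero _ (hne x hx).1.2))
      (h1 x (hsub hx)).2.1
  · have e : (G * Θ * G.adjugate).map (eval x) =
        G.map (eval x) * Θ.map (eval x) * G.adjugate.map (eval x) := by
      rw [← coe_evalRingHom, Matrix.map_mul, Matrix.map_mul]
    beta_reduce
    rw [e]
    exact conj_back (hne x hx).2 (h1 x (hsub hx)).2.1 (gaua_adj G x) (key x hx).1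

theorem bd_pM (S : CV.Sys ℂ r) (a : Matrix (Fin r) (Fin r) ℂ[X]) :
    bd (fun _ : Fin d => a) * pM S d = pM S d * bd fun _ => a := by
  ext1 i j
  rw [mul_apply, mul_apply, sum_ix, sum_ix]
  simp [bd, pM, mul_comm]

theorem om_bd (y : ℂ) (a : Matrix (Fin r) (Fin r) ℂ) :
    Om r d y * (bd fun _ : Fin d => a : Matrix (Fin (r * d)) (Fin (r * d)) ℂ) = a * Om r d y := by
  ext i j
  rw [om_mul, mul_apply]
  simp [bd, Om, mul_comm]

theorem det_one_sheet {O : Matrix (Fin r) (Fin (r * 1)) ℂ} {E : Matrix (Fin (r * 1)) (Fin r) ℂ} :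
    ∃ c : ℂ, ∀ U : Matrix (Fin (r * 1)) (Fin (r * 1)) ℂ, (O * U * E).det = c * U.det := by
  let e : Fin r ≃ Fin (r * 1) := finCongr (mul_one r).symm
  refine ⟨(O.submatrix id e).det * (E.submatrix e id).det, fun U => ?_⟩
  rw [← det_submatrix_equiv_self e U, mul_right_comm, ← det_mul, ← det_mul, submatrix_mul_equiv,
    submatrix_mul_equiv, submatrix_id_id]

theorem algF_ee {V : Set ℂ} {y : ℂ → ℂ} (h : AlgF V y) (p : ℂ[X][Y]) :
    AlgF V fun x => p.evalEval x (y x) := by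
  induction p using Polynomial.induction_on' with
  | add p q hp hq => simpa only [evalEval_add] using hp.add hq
  | monomial k c =>
    simpa only [← C_mul_X_pow_eq_monomial, evalEval_mul, evalEval_pow, evalEval_C, evalEval_X]
      using (algF_poly V c).mul (h.pow k)

theorem alg_of_on {S : CV.Sys ℂ r} {q : ℂ[X][Y]} {δ : ℂ[X]} (h : Prep S d q δ)
    (hI : Irreducible S.P) (hd : d ≠ 0) {t : Fin n → ℂ}
    {A : Fin n → Matrix (Fin (r * d)) (Fin (r * d)) ℂ} {ρ : ℂ[X]} {G : PM (r * d)}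
    (g : Gau (δ * S.D) (pB S d q δ) (dl t) (pm t A) ρ G) (hD : δ * S.D ≠ 0) (hρ : ρ ≠ 0)
    (hG : G.det ≠ 0) {T : Set (PM (r * d))}
    (hT : ∀ Θ, Θ * pM S d = pM S d * Θ → G * Θ * G.adjugate ∈ T) (hA : AlgOn t A T)
    (hdet : d = 1 ∨ DetP S) : S.Alg := by
  obtain ⟨w, hw, hdet'⟩ : ∃ w : ℂ[X], w ≠ 0 ∧ (d = 1 ∨ ∃ (m : ℕ) (a : ℂ[X][Y]) (c : ℂ[X]), 0 < m ∧
      (∀ x y, w.eval x ≠ 0 → S.P.evalEval x y = 0 → c.eval x ≠ 0 ∧ a.evalEval x y ≠ 0) ∧
      S.P ∣ C S.D * (C c * (derivative S.P * dX a - dX S.P * derivative a) -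
        derivative S.P * C (derivative c) * a) - m * derivative S.P * C c * S.A.trace * a) := by
    rcases hdet with h1 | ⟨m, a, c, h1, h2, h3, h4⟩
    · exact ⟨1, one_ne_zero, Or.inl h1⟩
    · obtain ⟨u, c', h5, h6⟩ := SP.bez h.1 hI h3
      refine ⟨c * c', mul_ne_zero h2 h5, Or.inr ⟨m, a, c, h1, fun x y k1 k2 => ?_, h4⟩⟩
      rw [eval_mul] at k1
      exact ⟨left_ne_zero_of_mul k1, fun k3 => right_ne_zero_of_mul k1 (SP.bez_eval h6 k2 k3)⟩
  obtain ⟨x₀, ε, U, hε, hU, hQ, hL⟩ := on_back g hD hρ hG hA hw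
  have hx₀ := (hU x₀ (Metric.mem_ball_self hε)).2
  obtain ⟨y₀, h0, h1⟩ := pusha_root h hd (left_ne_zero_of_mul (eval_mul.symm.trans_ne hx₀.1))
  obtain ⟨y, hy⟩ := exists_branch h0 h1
  obtain ⟨E, hE⟩ : ∃ E : Matrix (Fin (r * d)) (Fin r) ℂ, E = (U x₀)⁻¹ * (Om r d (0 : ℂ))ᵀ :=
    ⟨_, rfl⟩
  have hb0 := Metric.ball_mem_nhds x₀ hε
  have hSD : ∀ x ∈ Metric.ball x₀ ε, S.D.eval x ≠ 0 := fun x hx =>
    right_ne_zero_of_mul (eval_mul.symm.trans_ne (hU x hx).2.1)
  obtain ⟨M, hM⟩ : ∃ M : ℂ → Matrix (Fin r) (Fin r) ℂ,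
    M = fun x => (S.D.eval x)⁻¹ • S.A.map (evalEval x (y x)) := ⟨_, rfl⟩
  have hMd : ∀ᶠ x in 𝓝 x₀, ∀ a b, DifferentiableAt ℂ (fun z => M z a b) x := by
    filter_upwards [hy, hb0] with x hx hb a b
    rw [hM]
    exact (((S.D.hasDerivAt x).fun_inv (hSD x hb)).fun_mul
      (hasDerivAt_evalEval hx.1.hasDerivAt _)).differentiableAt
  have hO : ∀ᶠ x in 𝓝 x₀, ∀ a b, HasDerivAt (fun z => (Om r d (y z) * U z) a b)
      ((M x * (Om r d (y x) * U x)) a b) x := by
    filter_upwards [hy.eventually_nhds, hb0] with x hx hb a b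
    have hdy := hx.self_of_nhds.1.hasDerivAt
    have h2 := pusha_eq h hx.self_of_nhds.2 (hU x hb).2.1 (h.deriv hdy (hx.mono fun _ t => t.2))
    have h5 := congrArg (fun M => (M * U x) a b) h2
    refine (pusha_mul (F' := _root_.deriv y x • Om' r d (y x)) (hasDerivAt_om hdy)
      (hU x hb).2.2.2 a b).congr_deriv ?_
    simpa only [hM, Matrix.add_mul, Matrix.smul_mul, Matrix.mul_smul, Matrix.mul_assoc] using h5
  have hc : ∀ {γ γ' : Type} [Fintype γ] {W : ℂ → Matrix (Fin r) γ ℂ} {x : ℂ} (K : Matrix γ γ' ℂ),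
      (∀ a b, HasDerivAt (fun z => W z a b) ((M x * W x) a b) x) →
      ∀ a b, HasDerivAt (fun z => (W z * K) a b) ((M x * (W x * K)) a b) x := fun K h2 a b => by
    refine (pusha_mul h2 (G := fun _ => K) (G' := 0) (fun a b => hasDerivAt_const _ _)
      a b).congr_deriv ?_
    rw [Matrix.mul_zero, add_zero, Matrix.mul_assoc]
  obtain ⟨Z, hZe⟩ : ∃ Z : ℂ → Matrix (Fin r) (Fin r) ℂ, Z = fun z => Om r d (y z) * U z * E :=
    ⟨_, rfl⟩
  have hZ : ∀ᶠ x in 𝓝 x₀, ∀ a b, HasDerivAt (fun z => Z z a b) ((M x * Z x) a b) x :=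
    hO.mono fun x hx => hZe ▸ hc E hx
  have hZ0 : Z x₀ = 1 := by
    simp only [hZe]
    rw [hE, Matrix.mul_assoc, Matrix.mul_nonsing_inv_cancel_left _ _ (Ne.isUnit hx₀.2.1),
      pusha_one hd]
  have hK := ode_uq (W := fun z => Z z * (Om r d (y x₀) * U x₀) - Om r d (y z) * U z) hMd (by
    filter_upwards [hO, hZ] with x h2 h3 a b
    rw [Matrix.mul_sub]
    exact (hc _ h3 a b).fun_sub (h2 a b)) (by simp only [hZ0, Matrix.one_mul, sub_self])
  have hZc : ContinuousAt Z x₀ := continuousAt_pi.2 fun a => continuousAt_pi.2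
    fun b => (hZ.self_of_nhds a b).continuousAt
  have c1 : ∀ᶠ x in 𝓝 x₀, (Z x).det ≠ 0 :=
    ((continuous_id.matrix_det.continuousAt).comp hZc).eventually_ne (by simp [hZ0])
  have c2 : ∀ᶠ x in 𝓝 x₀, ∀ a, (Z x).adjugate a a ≠ 0 := eventually_all.2 fun a =>
    (((continuous_id.matrix_adjugate.matrix_elem a a).continuousAt).comp hZc).eventually_ne
      (by simp [hZ0])
  have hya : AlgF {x | S.P.evalEval x (y x) = 0} y := ⟨S.P, h.1.ne_zero, fun x hx => hx⟩
  obtain ⟨V, hV, hdZ⟩ : ∃ V ∈ 𝓝 x₀, AlgF V fun x => (Z x).det := by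
    rcases hdet' with rfl | ⟨m, a, c, k1, k2, u, k3⟩
    · obtain ⟨c, hc'⟩ := det_one_sheet (O := Om r 1 0) (E := E)
      refine ⟨_, hb0, ((algF_const _ c).mul hQ).congr fun x _ => ?_⟩
      have e : Om r 1 (y x) = Om r 1 0 := by
        ext a b
        simp [Om]
      rw [← hc', hZe, ← e]
    · have k4 : ∀ᶠ x in 𝓝 x₀, c.eval x ≠ 0 ∧ a.evalEval x (y x) ≠ 0 := by
        filter_upwards [hy, hb0] with x h2 h3 using k2 x _ (hU x h3).1 h2.2
      have k5 := ode_uq1 (τ := fun x => m * (M x).trace) (s := x₀) (g := fun x =>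
          a.evalEval x₀ (y x₀) / c.eval x₀ * (Z x).det ^ m - a.evalEval x (y x) / c.eval x)
        (hMd.mono fun x hx => (DifferentiableAt.fun_sum fun a _ => hx a a).const_mul _) (by
          filter_upwards [hy.eventually_nhds, hb0, hZ, k4] with x h2 h3 h4 h5
          have h6 : (derivative S.P).evalEval x (y x) ≠ 0 := fun e =>
            left_ne_zero_of_mul (eval_mul.symm.trans_ne (hU x h3).2.1)
              (SP.bez_eval h.2.2 h2.self_of_nhds.2 e)
          have h7 := congrArg (evalEval x (y x)) k3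
          have h8 : (M x).trace = (S.D.eval x)⁻¹ * S.A.trace.evalEval x (y x) := by
            simp only [hM, Matrix.trace, diag_apply, Matrix.smul_apply, map_apply, smul_eq_mul,
              evalEval_finsetSum, Finset.mul_sum]
          have h9 := GE.tc_der (a := a) (e := m * (M x).trace * (a.evalEval x (y x) / c.eval x))
            h2.self_of_nhds.1 (h2.mono fun _ t => t.2) h5.1 h6 (by
              generalize derivative S.P * dX a - dX S.P * derivative a = v at h7 ⊢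
              simp only [evalEval_sub, evalEval_mul, evalEval_C, evalEval_natCast,
                h2.self_of_nhds.2, zero_mul] at h7
              have := h5.1
              have := hSD x h3
              rw [h8]
              field_simp
              linear_combination -h7)
          refine ((((hasDerivAt_det h4).fun_pow m).const_mul _).fun_sub h9).congr_deriv ?_
          obtain ⟨m', rfl⟩ := Nat.exists_eq_succ_of_ne_zero k1.ne'
          rw [Nat.succ_sub_one, pow_succ]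
          ring) (by simp [hZ0])
      have k6 := div_ne_zero k4.self_of_nhds.2 k4.self_of_nhds.1
      refine ⟨_, (k5.and k4).and hy, algF_root k1 (((algF_const _ (a.evalEval x₀ (y x₀) /
        c.eval x₀)⁻¹).mul ((algF_ee (hya.mono fun x hx => hx.2.2) a).mul
          (algF_inv' (fun x hx => hx.1.2.1) (algF_poly _ c)))).congr fun x hx => ?_)⟩
      rw [← div_eq_mul_inv, ← sub_eq_zero.1 hx.1.1, inv_mul_cancel_left₀ k6]
  obtain ⟨η, hη, hb⟩ := Metric.eventually_nhds_iff_ball.1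
    (((hy.and hZ).and (c1.and c2)).and ((Filter.Eventually.and hb0 hV).and hK))
  have a1 : AlgF (Metric.ball x₀ η) fun x => (Z x).det := hdZ.mono fun x hx => (hb x hx).2.1.2
  refine ⟨x₀, η, y, Z, hη, fun x hx => ⟨(hb x hx).1.1.1.1, (hb x hx).1.1.1.2,
    hSD x (hb x hx).2.1.1, (hb x hx).1.2.1, fun a b => ?_⟩, alg_of_proj
      (fun x hx => (hb x hx).1.2.1) (fun a x hx => (hb x hx).1.2.2 a) a1 fun a b c => ?_⟩
  · have h2 := (hb x hx).1.1.2 a b
    rwa [hM, Matrix.smul_mul] at h2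
  · obtain ⟨L, l1, l2⟩ := hL _ (hT _ (bd_pM S (single a b 1)))
    refine (a1.mul (AlgF.mat_mul (W := fun _ => E) (AlgF.mat_mul
      (U := fun _ => Om r d (y x₀) * U x₀) (fun _ _ => algF_const _ _) fun i j =>
        (l1 i j).mono fun x hx => (hb x hx).2.1.1) (fun _ _ => algF_const _ _) a c)).congr
      fun x hx => ?_
    have e1 : (bd fun _ : Fin d => (single a b 1 : Matrix (Fin r) (Fin r) ℂ[X])).map (eval x) =
        bd fun _ => single a b 1 := by
      ext i j
      simp only [bd, map_apply, of_apply, single_apply]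
      split_ifs <;> simp
    have e2 : Z x * (Om r d (y x₀) * U x₀ * L x * E) = single a b 1 * Z x := by
      rw [← Matrix.mul_assoc, ← Matrix.mul_assoc, sub_eq_zero.1 (hb x hx).2.2, Matrix.mul_assoc _ _
        (L x), l2 x (hb x hx).2.1.1, e1, ← Matrix.mul_assoc, om_bd, hZe]
      simp only [Matrix.mul_assoc]
    have e3 := congrArg (fun W => ((Z x).adjugate * W) a c) e2
    simp only [← Matrix.mul_assoc, adjugate_mul, Matrix.smul_mul, Matrix.one_mul] at e3
    refine Eq.trans ?_ e3.symm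
    rw [Matrix.mul_apply, Finset.sum_eq_single b (fun j _ hj => by
      rw [mul_single_apply_of_ne _ _ _ _ _ hj, zero_mul]) fun h => absurd (Finset.mem_univ b) h,
      mul_single_apply_same, mul_one]

end Pool.Agent.GR.CP
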