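import Pool.Agent.Lib.MP_aa40d3_nt.NP.StmtP

/-! Definitions used in the statement: ramification and algebraicity relative to a set of matrices. -/

open Polynomial Matrix

namespace Pool.Agent.GR

variable {n r : ℕ}

/-- Every subsystem with a member that fails to commute with another member or with a member of
`S` is ramified at `k` or more of the points indexed by `M`. -/
def RamOff (k : ℕ) (M : Finset (Fin n)) (t : Fin n → ℂ) (A : Fin n → Matrix (Fin r) (Fin r) ℂ)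
    (S : Set (Matrix (Fin r) (Fin r) ℂ[X])) : Prop :=
  ∀ W, SubEnd t A W → (∃ Φ ∈ W, ∃ Ψ, (Ψ ∈ W ∨ Ψ ∈ S) ∧ Φ * Ψ ≠ Ψ * Φ) →
    ∃ M' ⊆ M, k ≤ M'.card ∧ ∀ i ∈ M', RamAt t A W i

/-- On some disc without singular points there is a fundamental matrix `Y` such that `det Y` and
the entries of `Y⁻¹ Ψ Y`, `Ψ ∈ S`, are algebraic functions. -/
def AlgOn (t : Fin n → ℂ) (A : Fin n → Matrix (Fin r) (Fin r) ℂ)
    (S : Set (Matrix (Fin r) (Fin r) ℂ[X])) : Prop :=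
  ∃ (x₀ : ℂ) (ε : ℝ) (Y : ℂ → Matrix (Fin r) (Fin r) ℂ), 0 < ε ∧
    (∀ x ∈ Metric.ball x₀ ε, (∀ i, x ≠ t i) ∧ (Y x).det ≠ 0 ∧ ∀ a b,
      HasDerivAt (fun y => Y y a b) (((∑ i, (x - t i)⁻¹ • A i) * Y x) a b) x) ∧
    (∃ P : ℂ[X][X], P ≠ 0 ∧ ∀ x ∈ Metric.ball x₀ ε, P.evalEval x (Y x).det = 0) ∧
    ∀ Ψ ∈ S, ∀ a b, ∃ P : ℂ[X][X], P ≠ 0 ∧ ∀ x ∈ Metric.ball x₀ ε,
      P.evalEval x (((Y x)⁻¹ * Ψ.map (eval x) * Y x) a b) = 0

end Pool.Agent.GR
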