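import Pool.Agent.Lib.MP_aa40d3_nt.CP.Grp
import Pool.Agent.Lib.MP_aa40d3_nt.CP.Stmt
import Pool.Agent.Lib.MP_aa40d3_nt.NP.Pts
import Pool.Agent.Lib.MP_aa40d3_nt.NP.Lu

/-! From the group to the functions. -/

open Polynomial Matrix Set Filter Topology
open scoped Matrix.Norms.Operator

namespace Pool.Agent.GR.CP

open NP CV

variable {n r : ℕ}

theorem algF_root {V : Set ℂ} {f : ℂ → ℂ} {k : ℕ} (hk : 0 < k) (h : AlgF V fun x => f x ^ k) :
    AlgF V f := by
  let _ := algAlg V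
  exact alg_iff.2 (IsAlgebraic.of_pow hk (alg_iff.1 h))

theorem algF_inv' {V : Set ℂ} {f : ℂ → ℂ} (h0 : ∀ x ∈ V, f x ≠ 0) (h : AlgF V f) :
    AlgF V fun x => (f x)⁻¹ := by
  let _ := algAlg V
  let _ : Invertible (fun x : V => f x) :=
    ⟨fun x => (f x)⁻¹, funext fun x => inv_mul_cancel₀ (h0 x x.2),
      funext fun x => mul_inv_cancel₀ (h0 x x.2)⟩
  exact alg_iff.2 (IsAlgebraic.invOf (alg_iff.1 h))

theorem onto_at [NeZero r] {t : Fin n → ℂ} {g : Fin n → (Mat r)ˣ} (hζ : ∀ a, QU (g a).val)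
    {U : Set ℂ} {x : ℂ} (hx : x ∈ U) (hne : ∀ i, x ≠ t i) {Y : ℂ → Mat r} (hd : (Y x).det ≠ 0)
    (he : ExtProp t g U Y) {Z : Submodule ℂ (Mat r)}
    (hZ : ∀ γ ∈ Subgroup.closure (Set.range g), ∀ x ∈ Z, γ.val * x * (γ⁻¹).val ∈ Z) {z : Mat r} (hz : z ∈ Z) :
    ∃ Φ ∈ primW U Y Z, ∃ c : ℂ, c ≠ 0 ∧ Φ.map (eval x) * Y x = c • (Y x * z) := by
  obtain ⟨u, hu⟩ : IsUnit (Y x) := (Matrix.isUnit_iff_isUnit_det _).2 hd.isUnit
  let L : Mat r →ₗ[ℂ] Mat r := (LinearMap.mulRight ℂ (u⁻¹).val).comp (LinearMap.mulLeft ℂ u.val)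
  have hL : ∀ w, L w = u.val * w * (u⁻¹).val := fun w => rfl
  obtain ⟨Φ, hΦ, c, hc, e⟩ := fact_ontoQ (t := t) (g := fun a => u * g a * u⁻¹) (U := U) (x₀ := x)
    (Y := fun y => Y y * (u⁻¹).val) (Z := Z.map L) (z₀ := L z)
    (fun a => QU.of_isConj (isConj_iff.2 ⟨u⁻¹, by group⟩) (hζ a)) hx hne
    (by rw [← hu, Units.mul_inv])
    (fun F hF hi => he (fun M => F (M * (u⁻¹).val)) (lu1_pf hF _) fun M a => by
      have h1 := hi (M * u⁻¹) a
      rw [show M * u⁻¹ * (u * g a * u⁻¹) = M * g a * u⁻¹ by group] at h1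
      exact h1)
    (by
      rintro γ hγ _ ⟨w, hw, rfl⟩
      have h1 : u⁻¹ * γ * u ∈ Subgroup.closure (Set.range g) := by
        refine (Subgroup.closure_le ((Subgroup.closure _).comap (MulAut.conj u⁻¹).toMonoidHom)).2
          ?_ hγ |> fun h => by simpa using h
        rintro _ ⟨a, rfl⟩
        exact Subgroup.subset_closure ⟨a, by simp [mul_assoc]⟩
      refine ⟨_, hZ _ h1 w hw, ?_⟩
      simp only [hL, _root_.mul_inv_rev, inv_inv, Units.val_mul, Matrix.mul_assoc,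
        Units.mul_inv_cancel_left, Units.mul_inv, Matrix.mul_one])
    ⟨z, hz, rfl⟩
  refine ⟨Φ, fun y hy => ?_, c, hc, ?_⟩
  · obtain ⟨_, ⟨w, hw, rfl⟩, h1⟩ := hΦ y hy
    refine ⟨w, hw, ?_⟩
    have h2 := congrArg (· * u.val) h1
    simpa only [hL, Matrix.mul_assoc, Units.inv_mul, Matrix.mul_one,
      Units.inv_mul_cancel_left] using h2
  · rw [e, hL, ← hu, smul_mul_assoc, Matrix.mul_assoc, Units.inv_mul, Matrix.mul_one]

theorem det_fi [NeZero r] {g : Fin n → (Mat r)ˣ} (hζ : ∀ a, QU (g a).val) :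
    ∃ N : Subgroup (Subgroup.closure (Set.range g)), N.FiniteIndex ∧
      ∀ h ∈ N, h.val.val.det = 1 := by
  have hfg : Group.FG (Subgroup.closure (Set.range g)) :=
    (Group.fg_iff_subgroup_fg _).2 ((Subgroup.fg_iff _).2 ⟨_, rfl, Set.finite_range g⟩)
  let χ : Subgroup.closure (Set.range g) →* ℂˣ :=
    (Units.map (detMonoidHom : Mat r →* ℂ)).comp (Subgroup.subtype _)
  refine ⟨χ.ker, ker_fi χ ?_, fun h hh => congrArg Units.val hh⟩
  rintro ⟨x, hx⟩
  change IsOfFinOrder (Units.map (detMonoidHom : Mat r →* ℂ) x)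
  induction hx using Subgroup.closure_induction with
  | mem y hy =>
    obtain ⟨a, rfl⟩ := hy
    exact Units.isOfFinOrder_val.1 (hζ a).det
  | one => rw [map_one]; exact IsOfFinOrder.one
  | mul y z _ _ hy hz => rw [map_mul]; exact hy.mul hz
  | inv y _ hy => rw [map_inv]; exact hy.inv

theorem pf_entry (a b : Fin r) : (fun M : Mat r => M a b) ∈ PF r :=
  Algebra.subset_adjoin (Set.mem_range_self (f := fun q : Fin r × Fin r =>
    fun M : Mat r => M q.1 q.2) (a, b))

theorem lin_entry (P : Mat r →ₗ[ℂ] Mat r) (y : Mat r) (a b : Fin r) :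
    P y a b = ∑ u, ∑ v, y u v * P (single u v 1) a b := by
  conv_lhs => rw [matrix_eq_sum_single y]
  simp only [map_sum, Matrix.sum_apply]
  refine Finset.sum_congr rfl fun u _ => Finset.sum_congr rfl fun v _ => ?_
  rw [← smul_eq_mul, ← Matrix.smul_apply, ← map_smul, smul_single, smul_eq_mul, mul_one]

theorem algOn_of [NeZero r] {t : Fin n → ℂ} {g : Fin n → (Mat r)ˣ} (hζ : ∀ a, QU (g a).val)
    {U : Set ℂ} {Y : ℂ → Mat r} (hd : ∀ x ∈ U, (Y x).det ≠ 0) (he : ExtProp t g U Y)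
    {S : Set (Mat r)} (h : FinOn (incl (Subgroup.closure (Set.range g))) S) :
    AlgF U (fun x => (Y x).det) ∧ ∀ Ψ : Matrix (Fin r) (Fin r) ℂ[X],
      (∀ x ∈ U, (Y x)⁻¹ * Ψ.map (eval x) * Y x ∈ S) →
      ∀ a b, AlgF U fun x => ((Y x)⁻¹ * Ψ.map (eval x) * Y x) a b := by
  obtain ⟨N₁, h1, h2⟩ := det_fi hζ
  obtain ⟨N₂, P, h3, h4, h5⟩ := h
  have hD : AlgF U (fun x => (Y x).det) :=
    alg_of_inv h1 he (F := fun M => M.det) (PF.det pf_entry) fun M h hh => by
      rw [det_mul, h2 h hh, mul_one]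
  refine ⟨hD, fun Ψ hΨ a b => ?_⟩
  have hF : ∀ c d, AlgF U fun x => P ((Y x).adjugate * single c d 1 * Y x) a b := by
    intro c d
    refine alg_of_inv (H := N₁ ⊓ N₂) inferInstance he
      (F := fun M => P (M.adjugate * single c d 1 * M) a b) ?_ fun M h hh => ?_
    · have e : (fun M : Mat r => P (M.adjugate * single c d 1 * M) a b) = ∑ u, ∑ v,
          P (single u v 1) a b • ((fun M : Mat r => M.adjugate u c) * fun M : Mat r => M d v) := by
        funext M
        rw [lin_entry]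
        simp only [Finset.sum_apply, Pi.smul_apply, Pi.mul_apply, smul_eq_mul]
        refine Finset.sum_congr rfl fun u _ => Finset.sum_congr rfl fun v _ => ?_
        rw [mul_comm, Matrix.mul_assoc, Matrix.mul_apply, Finset.sum_eq_single c, single_mul_apply_same,
          one_mul]
        · intro w _ hw
          rw [single_mul_apply_of_ne _ _ _ _ _ hw, mul_zero]
        · simp
      rw [e]
      exact sum_mem fun u _ => sum_mem fun v _ => (PF r).smul_mem
        (mul_mem (PF.adjugate pf_entry u c) (pf_entry d v)) _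
    · have e : h.val.val.adjugate = (h⁻¹).val.val := by
        rw [← one_mul h.val.val.adjugate, ← h.val.inv_mul, Matrix.mul_assoc, mul_adjugate,
          h2 h hh.1, one_smul, mul_one]
        rfl
      have h6 := h5 h hh.2 (M.adjugate * single c d 1 * M)
      rw [incl_apply, incl_apply] at h6
      rw [← h6]
      simp only [adjugate_mul_distrib, e, Matrix.mul_assoc]
  refine (((AlgF.sum (s := Finset.univ) fun c _ => AlgF.sum (s := Finset.univ) fun d _ =>
    (algF_poly U (Ψ c d)).mul (hF c d))).mul (algF_inv' hd hD)).congr fun x hx => ?_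
  rw [← h4 _ (hΨ x hx), Matrix.inv_def, Ring.inverse_eq_inv', smul_mul_assoc, smul_mul_assoc,
    map_smul, Matrix.smul_apply, smul_eq_mul, mul_comm]
  congr 1
  conv_lhs => rw [matrix_eq_sum_single (Ψ.map (eval x))]
  simp only [Matrix.mul_sum, Matrix.sum_mul, map_sum, Matrix.sum_apply]
  refine Finset.sum_congr rfl fun c _ => Finset.sum_congr rfl fun d _ => ?_
  have e : single c d (Ψ.map (eval x) c d) = (Ψ c d).eval x • (single c d 1 : Mat r) := by
    rw [smul_single, smul_eq_mul, mul_one, Matrix.map_apply]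
  rw [e, mul_smul_comm, smul_mul_assoc, map_smul, Matrix.smul_apply, smul_eq_mul]

end Pool.Agent.GR.CP
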