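import Pool.Agent.Lib.MP_aa40d3_nt.CP.Defs

/-! Formal solutions on given sheets converge, and are fixed by the local monodromy. -/

open Polynomial Matrix Set Filter Topology
open scoped Matrix.Norms.Operator

namespace Pool.Agent.GR.CP

open CV NP

variable {N n r e m : ℕ}

/-- The rows `v`, `v'` are proportional to their images, with the same factor. -/
def Qd {K : Type} [CommRing K] (Φ : Matrix (Fin N) (Fin N) K) (v v' : Fin N → K) : Prop :=
  ∀ a b, (v ᵥ* Φ) a * v' b = v a * (v' ᵥ* Φ) b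

theorem c2_eig {v : Fin m → Fin N → ℂ} (hv : ∀ j, v j ≠ 0) (σ : Fin m → Fin e)
    {Φ : Matrix (Fin N) (Fin N) ℂ} (h : ∀ j j', σ j = σ j' → Qd Φ (v j) (v j')) :
    ∃ c : Fin e → ℂ, ∀ j, v j ᵥ* Φ = c (σ j) • v j := by
  have key : ∀ k, ∃ c : ℂ, ∀ j, σ j = k → v j ᵥ* Φ = c • v j := fun k => by
    by_cases hk : ∃ j', σ j' = k
    · obtain ⟨j', hj'⟩ := hk
      obtain ⟨b, hb⟩ := Function.ne_iff.1 (hv j')
      refine ⟨(v j' ᵥ* Φ) b / v j' b, fun j hj => funext fun a => ?_⟩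
      rw [Pi.smul_apply, smul_eq_mul, div_mul_eq_mul_div, eq_div_iff hb, mul_comm _ (v j a)]
      exact h j j' (hj.trans hj'.symm) a b
    · exact ⟨0, fun j hj => absurd ⟨j, hj⟩ hk⟩
  choose c hc using key
  exact ⟨c, fun j => hc _ j rfl⟩

theorem c2_mul {f g : PowerSeries ℂ} {s v v' : ℂ} (h : cv1_R f s v) (h' : cv1_R g s v') :
    cv1_R (f * g) s (v * v') := by
  have h1 := summable_norm_iff.2 (HasSum.summable h)
  have h2 := summable_norm_iff.2 (HasSum.summable h')
  have h3 := (summable_norm_sum_mul_antidiagonal_of_summable_norm h1 h2).of_norm.hasSum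
  rw [← tsum_mul_tsum_eq_tsum_sum_antidiagonal_of_summable_norm h1 h2, HasSum.tsum_eq h,
    HasSum.tsum_eq h'] at h3
  have e : ∀ k, PowerSeries.coeff k (f * g) * s ^ k =
      ∑ p ∈ Finset.HasAntidiagonal.antidiagonal k, PowerSeries.coeff p.1 f * s ^ p.1 *
        (PowerSeries.coeff p.2 g * s ^ p.2) := fun k => by
    rw [PowerSeries.coeff_mul, Finset.sum_mul]
    refine Finset.sum_congr rfl fun p hp => ?_
    rw [← Finset.HasAntidiagonal.mem_antidiagonal.1 hp, pow_add]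
    ring
  unfold cv1_R
  simp only [e]
  exact h3

theorem c2_row {w : Fin N → PowerSeries ℂ} {v : Fin N → ℂ} {s : ℂ} (h : ∀ i, cv1_R (w i) s (v i))
    (Φ : PM N) (a : Fin N) : cv1_R ((w ᵥ* Φ.map cps) a) s ((v ᵥ* Φ.map (eval s)) a) := by
  simp only [vecMul, dotProduct, map_apply, mul_comm (w _), mul_comm (v _)]
  exact cv1_sum Finset.univ fun l => cv1_poly (Φ l a) (h l)

/-- As `conv_sum`, with the quadratic identities. -/
theorem c2_sum {a : ℂ[X]} (ha : a.eval 0 ≠ 0) {M : PM N} {w : Fin m → Fin N → PowerSeries ℂ}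
    (hw : LinearIndependent ℂ w)
    (h : ∀ j, ((cps (a * X) : PowerSeries ℂ) • fun i => PowerSeries.derivative ℂ (w j i)) +
      w j ᵥ* M.map cps = 0) :
    ∃ (ε : ℝ) (f : Fin m → ℂ → Fin N → ℂ), 0 < ε ∧ ∀ s ∈ Metric.ball (0 : ℂ) ε \ {0},
      a.eval s ≠ 0 ∧ (LinearIndependent ℂ fun j => f j s) ∧ (∀ j i, HasDerivAt (fun z => f j z i)
        (-((a.eval s * s)⁻¹ * (f j s ᵥ* M.map (eval s)) i)) s) ∧
      ∀ (Φ : PM N) j j', Qd (Φ.map cps) (w j) (w j') → Qd (Φ.map (eval s)) (f j s) (f j' s) := by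
  choose c ρ hρ hc using fun j => conv_core ha (h j)
  obtain ⟨δ, hδ, hδa⟩ : ∃ δ > 0, ∀ s ∈ Metric.ball (0 : ℂ) δ, a.eval s ≠ 0 :=
    Metric.eventually_nhds_iff_ball.1 (a.continuous.continuousAt.eventually_ne ha)
  have hS : 0 ≤ ∑ j, ρ j := Finset.sum_nonneg fun j _ => (hρ j).le
  obtain ⟨ε, hε, hε1, hε2⟩ : ∃ ε : ℝ, 0 < ε ∧ ε ≤ δ ∧ ∀ j, ρ j * ε ≤ 1 / 2 := by
    refine ⟨min δ (1 / 2 / (∑ j, ρ j + 1)), by positivity, min_le_left _ _, fun j => ?_⟩
    have h1 : ρ j ≤ ∑ j, ρ j := Finset.single_le_sum (fun j _ => (hρ j).le) (Finset.mem_univ j)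
    have h2 := min_le_right δ (1 / 2 / (∑ j, ρ j + 1))
    rw [le_div_iff₀ (by positivity)] at h2
    have h3 : 0 ≤ min δ (1 / 2 / (∑ j, ρ j + 1)) := by positivity
    nlinarith
  choose F hF hR using fun j i => cv1_an (hρ j) (hε2 j) (hc j i)
  have hane : ∀ s ∈ Metric.ball (0 : ℂ) ε, a.eval s ≠ 0 := fun s hs =>
    hδa s (Metric.ball_subset_ball hε1 hs)
  have hD : ∀ s ∈ Metric.ball (0 : ℂ) ε \ {0}, ∀ j i, deriv (F j i) s =
      ∑ l, F j l s * -((a.eval s * s)⁻¹ * (M l i).eval s) := fun s hs j i => by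
    have h1 := cv1_add (cv1_poly a (hR j i s hs.1).2)
      (cv1_sum Finset.univ fun l => cv1_poly (M l i) (hR j l s hs.1).1)
    rw [cv1_eq (h j) i] at h1
    have h2 := HasSum.unique h1 (cv1_zero s)
    have h3 : a.eval s * s ≠ 0 := mul_ne_zero (hane s hs.1) hs.2
    apply mul_left_cancel₀ h3
    rw [mul_assoc, eq_neg_of_add_eq_zero_left h2, Finset.mul_sum, ← Finset.sum_neg_distrib]
    refine Finset.sum_congr rfl fun l _ => ?_
    rw [mul_left_comm, mul_neg, mul_inv_cancel_left₀ h3]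
    ring
  refine ⟨ε, fun j s i => F j i s, hε, fun s hs =>
    ⟨hane s hs.1, ?_, fun j i => ?_, fun Φ j j' hq b b' => ?_⟩⟩
  · rw [Fintype.linearIndependent_iff] at hw ⊢
    intro g hg
    refine hw g (funext fun i => ?_)
    have hG : ∀ i, AnalyticOnNhd ℂ (fun z => ∑ j, g j * F j i z) (Metric.ball 0 ε) :=
      fun i z hz => Finset.analyticAt_fun_sum _ fun j _ => analyticAt_const.mul (hF j i z hz)
    have hp : ∀ p : ℂ[X], AnalyticAt ℂ (fun z => p.eval z) s := fun p =>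
      p.differentiable.analyticAt s
    have h1 := cv1_uq (F := fun i z => ∑ j, g j * F j i z)
      (A := fun l i z => -((a.eval z * z)⁻¹ * (M l i).eval z)) (s := s) (fun i => hG i s hs.1)
      (fun l i => ((((hp a).mul analyticAt_id).inv
        (mul_ne_zero (hane s hs.1) hs.2)).mul (hp _)).neg)
      (fun i => by
        filter_upwards [(Metric.isOpen_ball.sdiff isClosed_singleton).mem_nhds hs] with z hz
        rw [(HasDerivAt.fun_sum fun j _ =>
          (hF j i z hz.1).differentiableAt.hasDerivAt.const_mul (g j)).deriv]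
        simp only [hD z hz, Finset.mul_sum, Finset.sum_mul, mul_assoc]
        exact Finset.sum_comm)
      (fun i => by simpa using congrFun hg i) i
    have h2 := (hG i).eqOn_zero_of_preconnected_of_eventuallyEq_zero
      (convex_ball _ _).isPreconnected hs.1 h1
    rw [Finset.sum_apply]
    refine cv1_inj ?_
    filter_upwards [Metric.ball_mem_nhds (0 : ℂ) hε] with z hz
    have h3 := cv1_sum Finset.univ fun j => cv1_C (g j) (hR j i z hz).1
    have h4 : ∑ j, g j * F j i z = 0 := h2 hz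
    rw [h4] at h3
    simpa only [Pi.smul_apply, PowerSeries.smul_eq_C_mul] using h3
  · have h1 := (hF j i s hs.1).differentiableAt.hasDerivAt
    rw [hD s hs] at h1
    refine h1.congr_deriv ?_
    simp only [vecMul, dotProduct, map_apply, Finset.mul_sum, ← Finset.sum_neg_distrib]
    exact Finset.sum_congr rfl fun l _ => by ring
  · have h1 := c2_mul (c2_row (fun i => (hR j i s hs.1).1) Φ b) (hR j' b' s hs.1).1
    rw [hq b b'] at h1
    exact HasSum.unique h1 (c2_mul (hR j b s hs.1).1 (c2_row (fun i => (hR j' i s hs.1).1) Φ b'))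

/-- The same for Laurent series. -/
theorem c2_lau {a : ℂ[X]} (ha : a.eval 0 ≠ 0) {M : PM N} {u : Fin m → Fin N → CV.LL}
    (hu : LinearIndependent ℂ u) (h : ∀ j i, CV.ev CV.sL a * (CV.sL * CV.dL (u j i)) +
      ∑ b, u j b * CV.ev CV.sL (M b i) = 0) :
    ∃ (ε : ℝ) (f : Fin m → ℂ → Fin N → ℂ), 0 < ε ∧ ∀ s ∈ Metric.ball (0 : ℂ) ε \ {0},
      a.eval s ≠ 0 ∧ (LinearIndependent ℂ fun j => f j s) ∧ (∀ j i, HasDerivAt (fun z => f j z i)
        (-((a.eval s * s)⁻¹ * ∑ b, f j s b * (M b i).eval s)) s) ∧ ∀ (Φ : PM N) j j',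
      Qd (Φ.map (CV.ev CV.sL)) (u j) (u j') → Qd (Φ.map (eval s)) (f j s) (f j' s) := by
  obtain ⟨k, hk⟩ := CV.exists_ov_fin fun p : Fin m × Fin N => u p.1 p.2
  let w : Fin m → Fin N → PowerSeries ℂ := fun j i => .mk fun p => (u j i).coeff (p - k)
  have hw : ∀ j i, HahnSeries.ofPowerSeries ℤ ℂ (w j i) = CV.sL ^ (k : ℤ) * u j i := fun j i => by
    ext p
    rw [CV.coeff_zpow_mul, PowerSeries.coeff_coe]
    split_ifs with hp
    · exact (hk (j, i) _ (by omega)).symm
    · rw [PowerSeries.coeff_mk, Int.natAbs_of_nonneg (not_lt.1 hp)]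
  obtain ⟨ε, g, hε, hg⟩ := c2_sum ha (M := M - Matrix.diagonal fun _ => k * a) (w := w)
    (Fintype.linearIndependent_iff.2 fun c hc => Fintype.linearIndependent_iff.1 hu c (by
      ext i p
      simp only [Finset.sum_apply, Pi.smul_apply, HahnSeries.coeff_sum, HahnSeries.coeff_smul,
        Pi.zero_apply, HahnSeries.coeff_zero]
      rcases lt_or_ge p (-k) with hp | hp
      · exact Finset.sum_eq_zero fun j _ => by rw [hk (j, i) p hp, smul_zero]
      · have h1 := congrArg (PowerSeries.coeff (p + k).toNat) (congrFun hc i)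
        simpa [w, Int.toNat_of_nonneg (show 0 ≤ p + k by omega)] using h1))
    fun j => funext fun i => HahnSeries.ofPowerSeries_injective (Γ := ℤ) (by
      have h1 := congrArg (CV.sL ^ (k : ℤ) * ·) (h j i)
      simp only [mul_add, Finset.mul_sum, mul_zero, ← mul_assoc] at h1
      simp only [Pi.add_apply, Pi.smul_apply, smul_eq_mul, vecMul, dotProduct, map_add, map_mul,
        map_sum, Matrix.map_apply, cv2_cps, cv2_der, hw, CV.dL_mul, Matrix.sub_apply, map_sub,
        diagonal_apply, mul_sub, Finset.sum_sub_distrib, apply_ite (CV.ev CV.sL), map_zero,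
        mul_ite, mul_zero, Finset.sum_ite_eq', Finset.mem_univ, if_true, Pi.zero_apply, map_natCast]
      have h2 := CV.sdL_zpow k
      rw [show CV.ev CV.sL X = CV.sL from aeval_X _]
      push_cast at h2
      linear_combination h1 + CV.ev CV.sL a * u j i * h2)
  refine ⟨ε, fun j s => s ^ (-k : ℤ) • g j s, hε, fun s hs => ?_⟩
  obtain ⟨h1, h2, h3, h4⟩ := hg s hs
  have h0 : s ≠ 0 := hs.2
  refine ⟨h1, h2.units_smul fun _ => Units.mk0 _ (zpow_ne_zero _ h0), fun j i => ?_,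
    fun Φ j j' hq b b' => ?_⟩
  · refine ((hasDerivAt_zpow (-k) s (.inl h0)).mul (h3 j i)).congr_deriv ?_
    simp only [Pi.smul_apply, smul_eq_mul, vecMul, dotProduct, Matrix.map_apply, Matrix.sub_apply,
      eval_sub, diagonal_apply, apply_ite (eval s), eval_zero, mul_sub, Finset.sum_sub_distrib,
      mul_ite, mul_zero, Finset.sum_ite_eq', Finset.mem_univ, if_true, eval_mul, eval_natCast,
      mul_assoc, ← Finset.mul_sum, zpow_sub_one₀ h0]
    push_cast
    field_simp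
    ring
  · have h5 := h4 Φ j j' (fun c c' => HahnSeries.ofPowerSeries_injective (Γ := ℤ) (by
      have h6 := hq c c'
      simp only [vecMul, dotProduct, Matrix.map_apply] at h6
      simp only [vecMul, dotProduct, map_mul, map_sum, Matrix.map_apply, cv2_cps, hw, mul_assoc,
        ← Finset.mul_sum]
      linear_combination CV.sL ^ (k : ℤ) * CV.sL ^ (k : ℤ) * h6)) b b'
    simp only [smul_vecMul, Pi.smul_apply, smul_eq_mul]
    linear_combination s ^ (-k : ℤ) * s ^ (-k : ℤ) * h5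

theorem FSE.ase {t : Fin n → ℂ} (ht : Function.Injective t)
    {A : Fin n → Matrix (Fin N) (Fin N) ℂ} {W : Subalgebra ℂ[X] (PM N)} {i : Fin n}
    (h : FSE r e (dl t) (pm t A) W (xt (t i) 1)) : ASE r e t A W i := by
  obtain ⟨u, hu, h, hW⟩ := h
  let τ : ℂ[X] →+* ℂ[X] := compRingHom (X + C (t i))
  have e1 : τ (∏ j ∈ Finset.univ.erase i, (X - C (t j))) * X = τ (dl t) := by
    rw [dl, ← Finset.prod_erase_mul _ _ (Finset.mem_univ i), map_mul]
    simp [τ]
  have e2 : ∀ p, CV.ev CV.sL (τ p) = CV.ev (CV.xt (t i) 1) p := fun p => by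
    simp [τ, CV.ev_apply, aeval_comp, CV.xt, add_comm]
  have e3 : ∀ p z, (τ p).eval (z - t i) = p.eval z := fun p z => by simp [τ, eval_comp]
  have e4 : CV.dL (CV.xt (t i) 1) = 1 := by
    rw [CV.xt, CV.dL_add, CV.dL_alg, pow_one, CV.dL_sL, zero_add]
  obtain ⟨ε, f, hε, hf⟩ := c2_lau (a := τ (∏ j ∈ Finset.univ.erase i, (X - C (t j))))
    (M := (pm t A).map τ) (by
      rw [← sub_self (t i), e3, eval_prod, sub_self, Finset.prod_ne_zero_iff]
      exact fun j hj => by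
        simpa [sub_eq_zero] using (ht.ne (Finset.ne_of_mem_erase hj)).symm) hu fun j b => by
      have h1 := congrFun (h j) b
      rw [e4, one_smul, ← e2, ← e1, map_mul, show CV.ev CV.sL X = CV.sL from aeval_X _] at h1
      simpa only [Pi.add_apply, Pi.smul_apply, smul_eq_mul, mul_assoc, vecMul, dotProduct,
        Matrix.map_apply, e2, Pi.zero_apply] using h1
  refine ⟨ε, fun j z => f j (z - t i), hε, fun z hz => ?_⟩
  have h0 : z - t i ≠ 0 := sub_ne_zero.2 hz.2
  obtain ⟨h1, h2, h3, h5⟩ := hf (z - t i) ⟨mem_ball_zero_iff.2 (mem_ball_iff_norm.1 hz.1), h0⟩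
  refine ⟨h2, fun j b => ((h3 j b).comp_sub_const z (t i)).congr_deriv ?_, fun Φ hΦ => ?_⟩
  · have e5 := congrArg (eval (z - t i)) e1
    rw [eval_mul, eval_X, e3 (dl t), dl, eval_prod] at e5
    simp only [eval_sub, eval_X, eval_C] at e5
    have h4 := e5 ▸ mul_ne_zero h1 h0
    rw [e5, Finset.mul_sum]
    refine congrArg Neg.neg (Finset.sum_congr rfl fun c _ => ?_)
    rw [Matrix.map_apply, e3, mul_left_comm]
    refine congrArg _ ((congrArg _ (cv2_pm (evalRingHom z) t A c b)).trans ?_)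
    simp only [coe_evalRingHom, eval_X, eval_C, Finset.mul_sum, ← mul_assoc, cv2_inv h4,
      Matrix.smul_apply, smul_eq_mul, Matrix.sum_apply]
  · obtain ⟨c, hc⟩ := hW Φ hΦ
    have e6 : (Φ.map τ).map (CV.ev CV.sL) = Φ.map (CV.ev (CV.xt (t i) 1)) :=
      Matrix.ext fun a b => e2 _
    have e7 : (Φ.map τ).map (eval (z - t i)) = Φ.map (eval z) := Matrix.ext fun a b => e3 _ _
    refine c2_eig h2.ne_zero sh fun j j' hj => e7 ▸ h5 (Φ.map τ) j j' fun a b => ?_
    rw [e6, hc, hc, hj, Pi.smul_apply, Pi.smul_apply, smul_eq_mul, smul_eq_mul]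
    ring

theorem ASE.one [NeZero N] {t : Fin n → ℂ} (hre : Function.Injective fun i => (t i).re)
    (A : Fin n → Mat N) {H : ℝ} (hb : InBox (pp t) H) {W : Subalgebra ℂ[X] (PM N)}
    (hW : ∀ Φ ∈ W, dl t • Φ.map derivative - (pm t A * Φ - Φ * pm t A) ∈ W) {i : Fin n}
    (h : ASE r e t A W i) :
    One r e (GC.fib W (cpt (-H, -H))) (vt (TT t A) (pp t) H i).val := by
  have hti : Function.Injective t := fun i j hij => hre (by simp only [hij])
  obtain ⟨ε, hε, hval⟩ := exists_validAt hre i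
  obtain ⟨δ, u, hδ, hu⟩ := h
  have him : |(t i).im| < H := (hb i).2
  have hev : ∀ᶠ ρ : ℝ in 𝓝[>] 0, ∀ j, j ≠ i → ρ < ‖t j - t i‖ / 2 := by
    refine Filter.eventually_all.2 fun j => ?_
    by_cases hj : j = i
    · exact Filter.Eventually.of_forall fun _ h => absurd hj h
    · exact ((eventually_lt_nhds (half_pos (norm_pos_iff.2 (sub_ne_zero.2 (hti.ne hj))))).filter_mono
        nhdsWithin_le_nhds).mono fun _ h _ => h
  obtain ⟨ρ, hρ3, hρ⟩ :=
    (hev.and (Ioo_mem_nhdsGT (lt_min (lt_min hε (sub_pos.2 him)) (half_pos hδ)))).exists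
  have hρ0 := hρ.1
  have hρ1 := hρ.2.trans_le ((min_le_left _ _).trans (min_le_left _ _))
  have hρ2 := hρ.2.trans_le ((min_le_left _ _).trans (min_le_right _ _))
  have hρ4 := hρ.2.trans_le (min_le_right _ _)
  have hv : ValidAt (fun j => (pp t j).1) i ((t i).re - ρ) ((t i).re + ρ) :=
    hval _ _ (by linarith) (by linarith) (by linarith) (by linarith)
  have l1 := le_abs_self (t i).im
  have l2 := neg_abs_le (t i).im
  have hvt := vt_eq_RL (rectT_TT t A) hb hv (y1 := (t i).im - ρ) (y2 := (t i).im + ρ)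
    (by linarith) (by show _ < (t i).im; linarith) (by show (t i).im < _; linarith) (by linarith)
  have hn : ‖(ρ : ℂ)‖ = ρ := by rw [Complex.norm_real, Real.norm_of_nonneg hρ0.le]
  have hs : ∀ {ya yb : ℂ}, LoopSd ya yb → ∀ x ∈ segment ℝ (t i + ρ * ya) (t i + ρ * yb),
      x ∈ Metric.ball (t i) δ \ {t i} ∧ ∀ j, t j ≠ x := fun hy x hx => by
    obtain ⟨h1, h2⟩ := rk1_seg hy hx
    rw [hn] at h1 h2
    have h3 : x ≠ t i := fun e => by
      rw [e, sub_self, norm_zero] at h1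
      linarith
    refine ⟨⟨mem_ball_iff_norm.2 (by linarith), h3⟩, fun j e => ?_⟩
    have h4 := hρ3 j fun e' => h3 (by rw [← e, e'])
    rw [e] at h4
    linarith
  have key : ∀ {ya yb : ℂ}, LoopSd ya yb → ∀ j,
      u j (t i + ρ * yb) ᵥ* T t A (t i + ρ * ya) (t i + ρ * yb) = u j (t i + ρ * ya) :=
    fun hy j => rk1_side (fun k hk => (hs hy _ hk).2 k rfl)
      fun x hx a => (hu x (hs hy x hx).1).2.1 j a
  obtain ⟨h0, h1, h2, h3⟩ := loop_sides
  obtain ⟨k1, -, k2⟩ := hu _ (hs h0 _ (left_mem_segment _ _ _)).1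
  have k3 : ∀ j, u j (t i + ρ * (-1 - Complex.I)) ᵥ* sqLoop t A (t i) ρ =
      u j (t i + ρ * (-1 - Complex.I)) := fun j => by
    rw [sqLoop, loop, ← vecMul_vecMul, ← vecMul_vecMul, ← vecMul_vecMul, key h3, key h2, key h1,
      key h0]
  have hlo : ∀ j, (t j).re ≠ (t i).re - ρ := fun j e => by
    by_cases hj : j = i
    · rw [hj] at e
      linarith
    · exact hv.2.2 j hj ⟨e.ge, e.le.trans (by linarith)⟩
  have e0 : cpt ((t i).re - ρ, (t i).im - ρ) = t i + ρ * (-1 - Complex.I) := by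
    apply Complex.ext <;> simp [cpt] <;> ring
  have c1 : GC.fibcCar W (TU t A (cpt (-H, -H)) (cpt ((t i).re - ρ, -H))) _ _ :=
    GC.fibc_TU hW fun j => GC.fibc_seg_im (y := -H) rfl rfl (abs_lt.1 (hb j).2).1.ne'
  have c2 : GC.fibcCar W (TU t A (cpt ((t i).re - ρ, -H)) (cpt ((t i).re - ρ, (t i).im - ρ))) _ _ :=
    GC.fibc_TU hW fun j => GC.fibc_seg_re (y := (t i).re - ρ) rfl rfl (hlo j)
  have c3 : GC.fibcCar W (Ybot (TT t A) H ((t i).re - ρ, (t i).im - ρ)) _ _ := GC.fibc_mul c2 c1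
  rw [hvt, Units.val_mul, Units.val_mul, RL_TT]
  rw [e0] at c3
  generalize Ybot (TT t A) H ((t i).re - ρ, (t i).im - ρ) = Y at c3 ⊢
  refine ⟨fun j => u j (t i + ρ * (-1 - Complex.I)) ᵥ* Y.val,
    k1.map' (Matrix.vecMulLinear Y.val) (LinearMap.ker_eq_bot.2
      (Matrix.vecMul_injective_iff_isUnit.2 Y.isUnit)), fun j => ?_, fun z hz => ?_⟩
  · rw [vecMul_vecMul, ← mul_assoc, ← mul_assoc, Units.mul_inv, one_mul, ← vecMul_vecMul, k3]
  · obtain ⟨Φ, hΦ, e1⟩ := (c3 z).1 hz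
    obtain ⟨c, hc⟩ := k2 Φ hΦ
    refine ⟨c, fun j => ?_⟩
    rw [← smul_vecMul, ← hc, e1, vecMul_vecMul, vecMul_vecMul, mul_assoc, Units.inv_mul, mul_one]

end Pool.Agent.GR.CP
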