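import Pool.Agent.Lib.MP_aa40d3_nt.CP.Grp2
import Pool.Agent.Lib.MP_aa40d3_nt.CP.Conv2
import Pool.Agent.Lib.MP_aa40d3_nt.MG.RamW

/-! The theorem for direct images with generic punctures. -/

open Polynomial Matrix Set Filter Topology
open scoped Matrix.Norms.Operator

namespace Pool.Agent.GR.CP

open NP GC CV

variable {n N : ℕ}

theorem IrrW.monoQ [NeZero N] {t : Fin n → ℂ} {A : Fin n → Mat N}
    {W : Subalgebra ℂ[X] (PM N)} (hi : IrrW t A W) {g : Fin n → (Mat N)ˣ}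
    (hζ : ∀ a, QU (g a).val) {U : Set ℂ} (hU : IsOpen U) {x₀ : ℂ} (hx₀ : x₀ ∈ U) {Y : ℂ → Mat N}
    (hY0 : Y x₀ = 1) (hY : ∀ x ∈ U, (∀ i, x ≠ t i) ∧ (Y x).det ≠ 0 ∧
      HasDerivAt Y (sys t A x * Y x) x) (he : ExtProp t g U Y) {Z : Subalgebra ℂ (Mat N)}
    (hW : ∀ Φ ∈ W, Φ ∈ primW U Y (Subalgebra.toSubmodule Z)) :
    IrrZ (incl (Subgroup.closure (Set.range g))) Z := by
  intro V hV hZ
  obtain ⟨Q, hQ1, hQ2⟩ := mono_proj V
  let J : Submodule ℂ (Mat N) :=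
    { carrier := {y | ∀ v ∈ V, y *ᵥ v = 0}
      add_mem' := fun ha hb v hv => by rw [add_mulVec, ha v hv, hb v hv, add_zero]
      zero_mem' := fun v _ => zero_mulVec v
      smul_mem' := fun c a ha v hv => by rw [smul_mulVec, ha v hv, smul_zero] }
  obtain ⟨Φ₀, hΦ₀, c, hc, e₀⟩ := fact_ontoQ hζ hx₀ (hY _ hx₀).1 hY0 he (Z := J) (z₀ := 1 - Q)
    (fun γ hγ y hy v hv => by
      rw [← mulVec_mulVec, ← mulVec_mulVec, hy (γ⁻¹.val *ᵥ v) (hV ⟨γ, hγ⟩⁻¹ v hv),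
        mulVec_zero])
    fun v hv => by rw [sub_mulVec, one_mulVec, hQ2 v hv, sub_self]
  have hst := mono_stable (t := t) (A := A) hU (Z := fun x => Y x * Q) (by
    intro x hx
    refine ⟨(hY x hx).1, fun a b => ?_⟩
    have h1 := hasDerivAt_mat.1 (hY x hx).2.2
    have h2 : HasDerivAt (fun y => ∑ c, Y y a c * Q c b)
        (∑ c, (sys t A x * Y x) a c * Q c b) x :=
      HasDerivAt.fun_sum fun c _ => (h1 a c).mul_const _
    have e : ∑ c, sys t A x a c * (Y x * Q) c b = ∑ c, (sys t A x * Y x) a c * Q c b := by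
      rw [← Matrix.mul_apply, ← Matrix.mul_apply, Matrix.mul_assoc]
    rw [e]
    exact h2)
  rcases hi _ hst (fun l hl Φ hΦ x hx b => by
    obtain ⟨z, hz, e⟩ := hW Φ hΦ x hx
    have e1 : z * Q = Q * (z * Q) := by
      refine Matrix.ext_iff_mulVec.2 fun v => ?_
      rw [← mulVec_mulVec, ← mulVec_mulVec, ← mulVec_mulVec, hQ2 _ (hZ z hz _ (hQ1 v))]
    have e2 : (fun a => (l a).eval x) ᵥ* (Y x * Q) = 0 := funext (hl x hx)
    have e3 : (fun a => ((l ᵥ* Φ) a).eval x) = (fun a => (l a).eval x) ᵥ* Φ.map (eval x) := by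
      funext a
      simp only [vecMul, dotProduct, eval_finsetSum, eval_mul, Matrix.map_apply]
    have e4 : (fun a => ((l ᵥ* Φ) a).eval x) ᵥ* (Y x * Q) = 0 := by
      rw [e3, vecMul_vecMul, ← Matrix.mul_assoc, e, Matrix.mul_assoc, e1, ← Matrix.mul_assoc,
        ← vecMul_vecMul, e2, zero_vecMul]
    exact congrFun e4 b) with h | h
  · refine Or.inr (eq_top_iff.2 fun v _ => ?_)
    have h1 : Φ₀ = 0 := by
      funext a
      refine (Submodule.eq_bot_iff _).1 h _ fun x hx b => ?_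
      obtain ⟨z, hz, e⟩ := hΦ₀ x hx
      have e1 : z * Q = 0 := Matrix.ext_iff_mulVec.2 fun v => by
        rw [← mulVec_mulVec, hz _ (hQ1 v), zero_mulVec]
      have e2 : Φ₀.map (eval x) * (Y x * Q) = 0 := by
        rw [← Matrix.mul_assoc, e, Matrix.mul_assoc, e1, Matrix.mul_zero]
      exact congrFun (congrFun e2 a) b
    rw [h1, Matrix.map_zero _ eval_zero] at e₀
    have h2 := hQ1 v
    rwa [← sub_eq_zero.1 ((smul_eq_zero.1 e₀.symm).resolve_left hc), one_mulVec] at h2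
  · choose c hc0 hc using fun a => h (Pi.single a 1)
    have hp : ∏ a, c a ≠ 0 := Finset.prod_ne_zero_iff.2 fun a _ => hc0 a
    have hinf : U.Infinite := infinite_of_mem_nhds x₀ (hU.mem_nhds hx₀)
    obtain ⟨x, hx, hxr⟩ := hinf.exists_notMem_finset (∏ a, c a).roots.toFinset
    rw [Multiset.mem_toFinset, mem_roots hp, IsRoot.def, eval_prod, Finset.prod_eq_zero_iff] at hxr
    push Not at hxr
    have hz : Y x * Q = 0 := by
      ext a b
      have h1 := hc a x hx b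
      rw [Finset.sum_eq_single a (fun d _ hd => by simp [hd]) (by simp)] at h1
      simp only [Pi.smul_apply, Pi.single_eq_same, smul_eq_mul, mul_one] at h1
      exact (mul_eq_zero.1 h1).resolve_left (hxr a (Finset.mem_univ a))
    have hu : IsUnit (Y x) := (Matrix.isUnit_iff_isUnit_det _).2 (hY x hx).2.1.isUnit
    refine Or.inl ((Submodule.eq_bot_iff V).2 fun v hv => ?_)
    rw [← hQ2 v hv, hu.mul_right_eq_zero.1 hz, zero_mulVec]

theorem group_on (r d : ℕ) (hr : 1 ≤ r) (hd : d ≠ 0) : ∃ k : ℕ, ∀ (n : ℕ) (Mov : Finset (Fin n))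
    (g : Fin n → GLr (r * d)) (ρ : Fin n → ℝ) (Z : Subalgebra ℂ (Mt (r * d))),
    Function.Injective ρ → LoopsQ Mov ρ g → InvR (incl (Subgroup.closure (Set.range g))) Z →
    CommA Z → Module.finrank ℂ Z = d → IrrZ (incl (Subgroup.closure (Set.range g))) Z →
    (∀ a ∈ Mov, One r (d - 1) Z (g a).val) →
    (∀ Z' : Subalgebra ℂ (Mt (r * d)), InvR (incl (Subgroup.closure (Set.range g))) Z' → Z ≤ Z' →
      (∀ x ∈ Z, ∀ y ∈ Z', x * y = y * x) → (∃ y ∈ Z', y ∉ Z) →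
      ∃ M ⊆ Mov, k ≤ M.card ∧ ∀ a ∈ M, ∃ x ∈ Z', (g a).val * x ≠ x * (g a).val) →
    FinOn (incl (Subgroup.closure (Set.range g))) {y | ∀ z ∈ Z, z * y = y * z} := by
  classical
  obtain ⟨k, hk⟩ := finOn_cov r d hr hd
  refine ⟨k, fun n Mov g ρ Z hρ ho h3 h4 h5 h6 h7 h8 => ?_⟩
  obtain ⟨L0, h1, h2⟩ := exists_lowerL hρ Finset.univ fun _ _ _ _ => Finset.mem_univ _
  have h0 : L0.Nodup := h1.1.imp fun hab e => hab.ne (congrArg _ e)
  have hall : ∀ a, a ∈ L0 := fun a => List.mem_toFinset.1 (h2 ▸ Finset.mem_univ a)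
  set Γ := Subgroup.closure (Set.range g) with hΓ
  let g' : Fin n → Γ := fun a => ⟨g a, Subgroup.subset_closure ⟨a, rfl⟩⟩
  have hg : Subgroup.closure (Set.range g') = ⊤ := by
    apply Subgroup.map_injective Γ.subtype_injective
    rw [MonoidHom.map_closure, ← Set.range_comp, ← MonoidHom.range_eq_map, Subgroup.range_subtype]
    rfl
  have hl : ∀ x, IsLoop Mov L0 g' x → QU (incl Γ x) := fun x hx => by
    obtain ⟨l, R, h, k1, k2, k3⟩ := hx.map Γ.subtype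
    obtain ⟨μ, a1, a2, rfl⟩ := k1.low h1
    have k4 : QU ((l.map (mvTL μ ρ (Γ.subtype ∘ g'))).prod).val := ho μ a1 l (link_left a2) k2
    rwa [← k3] at k4
  exact hk n Mov L0 Γ g' (incl Γ) Z h0 hall hg (incl_inj Γ) hl h3 h4 h5 h6 h7 h8

theorem coreP (r d : ℕ) (hr : 1 ≤ r) (hd : d ≠ 0) : ∃ k : ℕ, ∀ (n : ℕ) (Mov : Finset (Fin n))
    (t : Fin n → ℂ) (A : Fin n → Matrix (Fin (r * d)) (Fin (r * d)) ℂ) [NeZero (r * d)]
    (W : Subalgebra ℂ[X] (PM (r * d))), Gen Mov t → (Function.Injective fun i => (t i).re) →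
    Cyc t A → IrrW t A W →
    (∀ Φ ∈ W, dl t • Φ.map derivative - (pm t A * Φ - Φ * pm t A) ∈ W) →
    (∀ Φ ∈ W, ∀ Ψ ∈ W, Φ * Ψ = Ψ * Φ) → Module.finrank ℂ[X] W = d →
    (∀ i ∈ Mov, ASE r (d - 1) t A W i) → RamZ k Mov t A W → PCN t A →
    AlgOn t A {Ψ | ∀ Φ ∈ W, Φ * Ψ = Ψ * Φ} := by
  classical
  obtain ⟨k, hk⟩ := group_on r d hr hd
  refine ⟨k, fun n Mov t A _ W ht hre hpr hWi hW hWc hWr hs hq hpc => ?_⟩
  obtain ⟨M, w, θ, hZ, hF, hG, hw, hA⟩ := exists_model4 ht hpr.cycH hpc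
  obtain ⟨κ, H0, hκ, hH0, hc, hb⟩ := exists_core Mov t
  generalize hHe : (1 + κ) * H0 = H at hb
  have hH : 0 < H := hHe ▸ mul_pos (by linarith) hH0
  have hwt : (fun i => w (Sum.inl i)) = t := funext hw
  have hmon : mon2 M.toModel2 H (w, θ) = vt (TT t A) (pp t) H := by
    simp only [mon2, hwt, hA]
  have hcham : w ∈ Cham M.m (fun i => (t i).re) H := by
    refine ⟨by rw [hwt]; exact hb, fun a b hab => ?_⟩
    rw [hw, hw]; exact hab
  have ho : LoopsQ Mov (fun i => (t i).re) (vt (TT t A) (pp t) H) := by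
    intro μ hμ l hl hM
    have := path4 M hκ hH0 hHe.le hZ (by rw [hwt]; exact hc) μ hre
      (fun a b _ _ hab => by rw [hw, hw]; exact hab) hμ hl hM (Sl.refl Mov w) hcham hG hF
    rwa [hmon] at this
  have h1 : ∀ i, QU (vt (TT t A) (pp t) H i).val := fun i => by
    have := arc4_single M hre i hcham hZ hG hF
    rwa [hmon] at this
  set U : Set ℂ := {x | ∀ i, x.im < (t i).im} with hU
  have hUo : IsOpen U := by
    rw [hU, ofPred_forall]
    exact isOpen_iInter_of_finite fun i => isOpen_lt Complex.continuous_im continuous_const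
  have hUc : Convex ℝ U := by
    rw [hU, ofPred_forall]
    exact convex_iInter fun i => convex_halfSpace_im_lt _
  have hx₀ : cpt (-H, -H) ∈ U := fun i => by
    have := (hb i).2
    simp only [pp, cpt] at this ⊢
    exact (abs_lt.1 this).1
  have hseg : ∀ x ∈ U, ∀ i, t i ∉ segment ℝ (cpt (-H, -H)) x := fun x hx i hi =>
    lt_irrefl _ (hUc.segment_subset hx₀ hx hi i)
  have hY : ∀ x ∈ U, (∀ i, x ≠ t i) ∧ (T t A (cpt (-H, -H)) x).det ≠ 0 ∧
      HasDerivAt (T t A (cpt (-H, -H))) (sys t A x * T t A (cpt (-H, -H)) x) x := fun x hx =>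
    ⟨fun i h => lt_irrefl _ (h ▸ hx i),
      ((Matrix.isUnit_iff_isUnit_det _).1 (isUnit_Tr _)).ne_zero, hasDerivAt_T A (hseg x hx)⟩
  have hext := extProp hre A hH.le hb
  have hinf : U.Infinite := infinite_of_mem_nhds _ (hUo.mem_nhds hx₀)
  have hWp : ∀ Φ ∈ W, Φ ∈ primW U (T t A (cpt (-H, -H)))
      (Subalgebra.toSubmodule (GC.fib W (cpt (-H, -H)))) := fun Φ hΦ x hx =>
    fib_T hW (hseg x hx) _ ⟨Φ, hΦ, rfl⟩
  have hfin := hk n Mov _ _ (GC.fib W (cpt (-H, -H))) hre ho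
    (fun γ => fib_vt hW hre hb γ.1 γ.2) (by
      rintro _ ⟨Φ, hΦ, rfl⟩ _ ⟨Ψ, hΨ, rfl⟩
      have e := congrArg (evalRingHom (cpt (-H, -H))).mapMatrix (hWc Φ hΦ Ψ hΨ)
      rwa [map_mul, map_mul] at e)
    ((fib_rank hinf (fun x hx => (hY x hx).2.1) hWp).trans hWr)
    (IrrW.monoQ hWi h1 hUo hx₀ (T_self _ _ _) hY hext hWp)
    (fun i hi => (hs i hi).one hre A hb hW) fun Z' k1 k2 k3 ⟨z₀, hz₀, k4⟩ => by
      obtain ⟨W', hW', hWm⟩ := exists_subEnd hUo hY Z'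
      obtain ⟨Φ, hΦ, c, hc0, hΦc⟩ := fact_ontoQ h1 hx₀ (hY _ hx₀).1 (T_self _ _ _) hext
        (Z := Subalgebra.toSubmodule Z') (fun γ hγ => k1 ⟨γ, hγ⟩) hz₀
      obtain ⟨M', h2, h3, h4⟩ := hq W' hW' (fun Ψ hΨ => (hWm Ψ).2 fun x hx => by
          obtain ⟨z, hz, e⟩ := hWp Ψ hΨ x hx
          exact ⟨z, k2 hz, e⟩)
        (fun Ψ hΨ Θ hΘ => by
          ext1 a b
          refine eq_of_infinite_eval_eq _ _ (hinf.mono fun x hx => ?_)
          obtain ⟨z, hz, e⟩ := hWp Ψ hΨ x hx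
          obtain ⟨z', hz', e'⟩ := (hWm Θ).1 hΘ x hx
          have h5 : (Ψ * Θ).map (evalRingHom x) = (Θ * Ψ).map (evalRingHom x) := by
            refine ((Matrix.isUnit_iff_isUnit_det _).2 (hY x hx).2.1.isUnit).mul_right_cancel ?_
            rw [Matrix.map_mul, Matrix.map_mul, coe_evalRingHom, Matrix.mul_assoc, e',
              ← Matrix.mul_assoc, e, Matrix.mul_assoc, k3 z hz z' hz', Matrix.mul_assoc, e,
              ← Matrix.mul_assoc _ _ z, ← Matrix.mul_assoc _ _ z, e']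
          exact congrFun (congrFun h5 a) b)
        ⟨Φ, (hWm Φ).2 hΦ, fun h5 => k4 (by
          have h6 := (GC.fib W (cpt (-H, -H))).smul_mem ⟨Φ, h5, hΦc⟩ c⁻¹
          rwa [inv_smul_smul₀ hc0] at h6)⟩
      refine ⟨M', h2, h3, fun i hi => ?_⟩
      obtain ⟨Ψ, hΨ, hne⟩ := h4 i hi
      by_contra hcon
      push Not at hcon
      refine hne (comm_exp hre A hb Ψ i fun y hy => ?_)
      obtain ⟨z, hz, e⟩ := (hWm Ψ).1 hΨ y hy
      exact ⟨z, hcon z hz, e⟩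
  obtain ⟨a1, a2⟩ := algOn_of h1 (fun x hx => (hY x hx).2.1) hext hfin
  obtain ⟨ε, hε, hball⟩ := Metric.isOpen_iff.1 hUo _ hx₀
  refine ⟨cpt (-H, -H), ε, T t A (cpt (-H, -H)), hε, fun x hx => ?_, a1.mono hball,
    fun Ψ hΨ a b => (a2 Ψ (fun x hx z hz => ?_) a b).mono hball⟩
  · obtain ⟨h1, h2, h3⟩ := hY x (hball hx)
    exact ⟨h1, h2, hasDerivAt_mat.1 h3⟩
  · obtain ⟨Φ, hΦ, e⟩ := (fibc_TU hW (hseg x hx) z).1 hz
    have h5 : (Φ * Ψ).map (evalRingHom x) = (Ψ * Φ).map (evalRingHom x) := by rw [hΨ Φ hΦ]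
    rw [Matrix.map_mul, Matrix.map_mul, coe_evalRingHom, e] at h5
    rw [← val_TU, ← Matrix.coe_units_inv]
    generalize TU t A (cpt (-H, -H)) x = u at h5
    have h6 := congrArg (fun M => (u⁻¹).val * M * u.val) h5
    simpa only [mul_assoc, Units.inv_mul_cancel_left, Units.inv_mul, mul_one] using h6

end Pool.Agent.GR.CP
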