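import Pool.Agent.Lib.MP_aa40d3_nt.FB.Stmt

/-! Definitions used in the statement: connections over a function field. -/

open Matrix

namespace Pool.Agent.GR.CP

open Pool.Agent.Lib.MP_a01f70_lc.QQ

variable {F : Type} [Field F] [Algebra ℂ F] {r n : ℕ}

/-- The system `δ Z = B Z` has no proper subsystem. -/
def IrrF (δ : Derivation ℂ F F) (B : Matrix (Fin r) (Fin r) F) : Prop :=
  ∀ V : Submodule F (Fin r → F), (∀ v ∈ V, (fun a => δ (v a)) - B *ᵥ v ∈ V) → V = ⊥ ∨ V = ⊤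

/-- The determinant of the system has finite order. -/
def DetF (δ : Derivation ℂ F F) (B : Matrix (Fin r) (Fin r) F) : Prop :=
  ∃ (m : ℕ) (h : F), 0 < m ∧ h ≠ 0 ∧ δ h = m * B.trace * h

/-- `H` is regular at `p` with value `C`. -/
def Val (p : Place ℂ F) (H : Matrix (Fin r) (Fin r) F) (C : Matrix (Fin r) (Fin r) ℂ) : Prop :=
  ∀ a b, p.Ge (H a b - algebraMap ℂ F (C a b)) 1

/-- Every subsystem of the endomorphisms that is an algebra and not scalar is ramified at `k` or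
more of the places `p i`, `i ∈ M`: the value of a member does not commute with `exp (2 π i C i)`. -/
def RamF (k : ℕ) (δ : Derivation ℂ F F) (B : Matrix (Fin r) (Fin r) F) (M : Finset (Fin n))
    (p : Fin n → Place ℂ F) (C : Fin n → Matrix (Fin r) (Fin r) ℂ) : Prop :=
  ∀ W : Subalgebra F (Matrix (Fin r) (Fin r) F), W ≠ ⊥ →
    (∀ Φ ∈ W, Φ.map δ - (B * Φ - Φ * B) ∈ W) → ∃ M' ⊆ M, k ≤ M'.card ∧ ∀ i ∈ M', ∃ Φ ∈ W, ∃ Ψ,
      Val (p i) Φ Ψ ∧ ¬ Commute (NormedSpace.exp ((2 * Real.pi * Complex.I : ℂ) • C i)) Ψ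

end Pool.Agent.GR.CP
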