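import Pool.Agent.Lib.MP_aa40d3_nt.CP.An
import Pool.Agent.Lib.MP_aa40d3_nt.CP.StmtF
import Pool.Agent.Lib.MP_aa40d3_nt.NP.Main8
import Pool.Agent.Lib.MP_aa40d3_nt.GE.TC

/-! Direct images with generic punctures: auxiliary definitions. -/

open Polynomial Matrix
open scoped Polynomial.Bivariate

namespace Pool.Agent.GR.CP

open CV

variable {N n : ℕ}

/-- Formal solutions of the dual system, `r` on each of `e` sheets of `W`. -/
def FSE (r e : ℕ) (D : ℂ[X]) (B : PM N) (W : Subalgebra ℂ[X] (PM N)) (x : CV.LL) : Prop :=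
  ∃ u : Fin (r * e) → Fin N → CV.LL, LinearIndependent ℂ u ∧
    (∀ j, (ev x D • fun a => dL (u j a)) + dL x • (u j ᵥ* B.map (ev x)) = 0) ∧
    ∀ Φ ∈ W, ∃ c : Fin e → CV.LL, ∀ j, u j ᵥ* Φ.map (ev x) = c (sh j) • u j

/-- Single valued solutions of the dual system near `t i`, `r` on each of `e` sheets of `W`. -/
def ASE (r e : ℕ) (t : Fin n → ℂ) (A : Fin n → Matrix (Fin N) (Fin N) ℂ)
    (W : Subalgebra ℂ[X] (PM N)) (i : Fin n) : Prop :=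
  ∃ (ε : ℝ) (u : Fin (r * e) → ℂ → Fin N → ℂ), 0 < ε ∧ ∀ x ∈ Metric.ball (t i) ε \ {t i},
    (LinearIndependent ℂ fun j => u j x) ∧
    (∀ j a, HasDerivAt (fun z => u j z a) (-(u j x ᵥ* ∑ i, (x - t i)⁻¹ • A i) a) x) ∧
    ∀ Φ ∈ W, ∃ c : Fin e → ℂ, ∀ j, u j x ᵥ* Φ.map (eval x) = c (sh j) • u j x

/-- Rows fixed by `g`, `r` on each of `e` sheets of `Z`. -/
def One (r e : ℕ) (Z : Subalgebra ℂ (Mt N)) (g : Mt N) : Prop :=
  ∃ v : Fin (r * e) → Fin N → ℂ, LinearIndependent ℂ v ∧ (∀ j, v j ᵥ* g = v j) ∧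
    ∀ z ∈ Z, ∃ c : Fin e → ℂ, ∀ j, v j ᵥ* z = c (sh j) • v j

/-- Subsystems between `W` and its commutant, other than `W`, are ramified at many points. -/
def RamZ (k : ℕ) (M : Finset (Fin n)) (t : Fin n → ℂ) (A : Fin n → Matrix (Fin N) (Fin N) ℂ)
    (W : Subalgebra ℂ[X] (PM N)) : Prop :=
  ∀ W', SubEnd t A W' → W ≤ W' → (∀ Φ ∈ W, ∀ Ψ ∈ W', Φ * Ψ = Ψ * Φ) → (∃ Ψ ∈ W', Ψ ∉ W) →
    ∃ M' ⊆ M, k ≤ M'.card ∧ ∀ i ∈ M', RamAt t A W' i

/-- `h = a / c` is not zero on the curve and `D h' = m (tr A) h`. -/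
def DetP {r : ℕ} (S : CV.Sys ℂ r) : Prop :=
  ∃ (m : ℕ) (a : ℂ[X][Y]) (c : ℂ[X]), 0 < m ∧ c ≠ 0 ∧ ¬ S.P ∣ a ∧
    S.P ∣ C S.D * (C c * (derivative S.P * dX a - dX S.P * derivative a) -
      derivative S.P * C (derivative c) * a) - m * derivative S.P * C c * S.A.trace * a

/-- The system `S` on the model `x, y` is `δ Z = B Z`, `δ x = 1`. -/
structure Con {F : Type} [Field F] [Algebra ℂ F] {r : ℕ} (S : CV.Sys ℂ r) (x y : F)
    (δ : Derivation ℂ F F) (B : Matrix (Fin r) (Fin r) F) : Prop where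
  m : GE.Model x y S.P
  D : S.D ≠ 0
  one : δ x = 1
  eq : aeval x S.D • B = S.A.map (aevalAeval x y)

/-- An invertible frame over the power series. -/
def UI (U : LM N) : Prop := (∀ i j, Ov 0 (U i j)) ∧ (U.map fun f => f.coeff 0).det ≠ 0

end Pool.Agent.GR.CP
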