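import Pool.Agent.Lib.MP_aa40d3_nt.CP.Main
import Pool.Agent.Lib.MP_aa40d3_nt.NP.GeT
import Pool.Agent.Lib.MP_aa40d3_nt.SP.Main

/-! Systems on an arbitrary curve with many generic punctures. -/

open Polynomial
open scoped Polynomial.Bivariate IntermediateField

namespace Pool.Agent.GR.CP

open Pool.Agent.GR.CV Pool.Agent.GR.GE Pool.Agent.GR.FB
open Pool.Agent.Lib.MP_a01f70_lc.QQ (Place)

section
variable {F : Type} [Field F] [Algebra ℂ F] {r n : ℕ} {δ : Derivation ℂ F F}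
  {B : Matrix (Fin r) (Fin r) F} {c : ℂ}

theorem IrrF.smul (h : IrrF δ B) (hc : c ≠ 0) : IrrF (c • δ) (c • B) := fun V hV =>
  h V fun v hv => by
    convert V.smul_mem (algebraMap ℂ F c⁻¹) (hV v hv) using 1
    funext a
    simp only [Pi.sub_apply, Pi.smul_apply, Matrix.smul_mulVec, Derivation.smul_apply,
      algebraMap_smul, ← smul_sub, inv_smul_smul₀ hc]

theorem DetF.smul (h : DetF δ B) (c : ℂ) : DetF (c • δ) (c • B) := by
  obtain ⟨m, u, h1, h2, h3⟩ := h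
  refine ⟨m, u, h1, h2, ?_⟩
  rw [Derivation.smul_apply, h3, Matrix.trace_smul, mul_smul_comm, smul_mul_assoc]

theorem RamF.smul {k : ℕ} {M : Finset (Fin n)} {p : Fin n → Place ℂ F}
    {E : Fin n → Matrix (Fin r) (Fin r) ℂ} (h : RamF k δ B M p E) (hc : c ≠ 0) :
    RamF k (c • δ) (c • B) M p E := fun W h1 h2 => h W h1 fun Φ hΦ => by
  convert W.smul_mem (h2 Φ hΦ) (algebraMap ℂ F c⁻¹) using 1
  have e : Φ.map (c • δ) = c • Φ.map δ := rfl
  rw [e, Matrix.smul_mul, Matrix.mul_smul, ← smul_sub, ← smul_sub, algebraMap_smul,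
    inv_smul_smul₀ hc]

theorem gen_shift {M : Finset (Fin n)} {t : Fin n → ℂ} (h : Gen M t) (m : ℕ) :
    Gen M fun i => t i - m := by
  obtain ⟨K, h1, h2⟩ := h
  refine ⟨K, fun j hj => K.sub_mem (h1 j hj) (natCast_mem K m), ?_⟩
  have h3 := h2.polynomial_aeval_of_transcendental (f := fun _ => X - C (m : K)) fun _ =>
    transcendental _ (by rw [natDegree_X_sub_C]; exact one_ne_zero) (by
      rw [leadingCoeff_X_sub_C]; exact one_mem _)
  simpa using h3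

theorem tr_of_der {f : F} (h : δ f = 1) : Transcendental ℂ f := fun ha => by
  obtain ⟨c, rfl⟩ := minpoly.mem_range_of_degree_eq_one ℂ f
    (IsAlgClosed.degree_eq_one_of_irreducible ℂ (minpoly.irreducible ha.isIntegral))
  rw [δ.map_algebraMap] at h
  exact zero_ne_one h

theorem Fib.aff {Sg : Finset (Place ℂ F)} {f f' : F} {a a' : ℂ} {e : ℤ} {m : ℕ} (hc : c ≠ 0)
    (h : f' - algebraMap ℂ F a' = c • (f - algebraMap ℂ F a)) (h1 : Fib Sg f a e m) :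
    Fib Sg f' a' e m := by
  obtain ⟨q, h2, h3⟩ := h1
  exact ⟨q, h2, fun j => ⟨(h3 j).1, by rw [h, Place.ord_smul _ hc, (h3 j).2]⟩⟩

end

theorem final13b (r e : ℕ) (hr : 1 ≤ r) : ∃ k : ℕ, ∀ (R : Type) [CommRing R]
    [Algebra.FiniteType ℤ R] (ι : R →+* ℂ) (S : CV.Sys R r) (F : Type) [Field F] [Algebra ℂ F]
    (x y f : F) (δ : Derivation ℂ F F) (B : Matrix (Fin r) (Fin r) F) (Sg : Finset (Place ℂ F))
    (n : ℕ) (t : Fin n → ℂ) (M : Finset (Fin n)) (p : Fin n → Place ℂ F)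
    (E : Fin n → Matrix (Fin r) (Fin r) ℂ), S.P.Monic → GE.Model x y (S.map ι).P →
    (S.map ι).D ≠ 0 → Module.finrank ℂ⟮f⟯ F = e + 1 → δ f = 1 →
    aeval x (S.map ι).D • B = δ x • (S.map ι).A.map (aevalAeval x y) →
    (Function.Injective fun i => (t i).re) → (∀ i, (t i).re < 0) → Gen M t →
    Pls Sg f (-1) (e + 1) → (∀ c, c ∉ Set.range t → Fib Sg f c 1 (e + 1)) →
    (∀ i ∈ M, Fib Sg f (t i) 1 e ∧ p i ∈ Sg ∧ (p i).ord (f - algebraMap ℂ F (t i)) = 1 ∧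
      Val (p i) ((f - algebraMap ℂ F (t i)) • B) (E i)) →
    (∀ q ∉ Sg, ∀ φ, At φ q → (S.map ι).Loc (φ x) (φ y)) →
    IrrF δ B → (e + 1 = 1 ∨ DetF δ B) → RamF k δ B M p E →
    (∀ m : Ideal R, m.IsMaximal → (S.map (Ideal.Quotient.mk m)).Tri) → (S.map ι).Alg := by
  obtain ⟨k, hk⟩ := final13a r e hr
  refine ⟨k, fun R _ _ ι S F _ _ x y f δ B Sg n t M p E hP hMo hD hdeg hδ hB hre hneg hg h1 h2 h3
    hL hI hDe hRa hF => ?_⟩
  have : IsFF F := isFF_of_gen hMo.tr hMo.gen hMo.irr.ne_zero hMo.root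
  have hf := tr_of_der hδ
  obtain ⟨w, hw, hw'⟩ := exists_int hf
  obtain ⟨P', hM'⟩ := GE.exists_model hf hw hw'
  have hd' := hM'.deg.trans hdeg
  obtain ⟨S', E', rfl, h⟩ := exists_chg (S.map ι) hMo hD hM'
  obtain ⟨R', _, _, ι', S₀, q1, rfl, q2⟩ := NP.transportT ι S hP h hF
  have hL' : ∀ p, p ∉ Sg → ∀ φ, At φ p → (S₀.map ι').Loc (φ f) (φ w) :=
    fun p hp φ hφ => h.loc φ (hL p hp φ hφ)
  have hE : E' x = δ x := sub_eq_zero.1 (der_along (RingHom.id F) (fun u => E' u - δ u)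
    (fun a b => by rw [map_add, map_add]; ring)
    (fun a b => by simp only [Derivation.leibniz, smul_eq_mul, RingHom.id_apply]; ring)
    (fun c => by rw [h.ext, δ.map_algebraMap, sub_zero]) hf (by rw [h.one, hδ, sub_self]) x)
  refine h.alg (hk n R' ι' S₀ F f w δ B t M p E q1 ((q1.natDegree_map _).symm.trans hd')
    ⟨hM', h.D', hδ, ?_⟩ hre hneg hg (fun i hi => ?_) (fun c hc => unr_fin hM' hL' (h2 c hc))
    (unr_inf hM' hL' h1) hI hDe hRa q2)
  · refine smul_right_injective _ (fun e => hMo.tr ⟨_, hD, e⟩ : aeval x (S.map ι).D ≠ 0) ?_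
    beta_reduce
    rw [h.eq, smul_comm, hB, smul_smul, hE]
  · obtain ⟨⟨q, a1, a2⟩, a3, a4, a5⟩ := h3 i hi
    obtain ⟨φ, b1, b2⟩ := exists_at _ a4
    choose ψ b3 b4 using fun j => exists_at _ (a2 j).2
    have b5 := ta2_xt (b2.trans (pow_one _).symm)
    have b6 := fun j => ta2_xt ((b4 j).trans (pow_one _).symm)
    have b7 : ∀ j, φ w ≠ ψ j w := fun j e => (a2 j).1
      (At.unique (ta2_ext hM' (b5.trans (b6 j).symm) e ▸ b1) (b3 j) ▸ a3)
    exact ⟨φ, fun j => ψ j w, b1, b5, Fin.cons_injective_iff.2 ⟨fun ⟨j, e⟩ => b7 j e.symm,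
      fun i j e => a1 (At.unique (ta2_ext hM' ((b6 i).trans (b6 j).symm) e ▸ b3 i) (b3 j))⟩,
      fun j => b6 j ▸ hL' _ (a2 j).1 _ (b3 j), a5⟩

theorem final13 (r d : ℕ) (hr : 1 ≤ r) : ∃ k : ℕ, ∀ (R : Type) [CommRing R]
    [Algebra.FiniteType ℤ R] (ι ψ : R →+* ℂ) (S : CV.Sys R r) (F : Type) [Field F] [Algebra ℂ F]
    (x y f : F) (δ : Derivation ℂ F F) (B : Matrix (Fin r) (Fin r) F) (Sg : Finset (Place ℂ F))
    (n : ℕ) (t : Fin n → ℂ) (M : Finset (Fin n)) (p : Fin n → Place ℂ F)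
    (E : Fin n → Matrix (Fin r) (Fin r) ℂ),
    RingHom.ker ι ≤ RingHom.ker ψ → S.P.Monic →
    Irreducible (S.map ι).P → Irreducible (S.map ψ).P → (S.map ψ).D ≠ 0 →
    Transcendental ℂ x → ℂ⟮x, y⟯ = ⊤ → aevalAeval x y (S.map ι).P = 0 →
    Module.finrank ℂ⟮f⟯ F = d → δ f = 1 →
    aeval x (S.map ι).D • B = δ x • (S.map ι).A.map (aevalAeval x y) → Function.Injective t →
    (AlgebraicIndependent (IntermediateField.adjoin ℚ {c : ℂ | ∃ j, j ∉ M ∧ c = t j})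
      fun i : M => t i) →
    Fib Sg f 0 (-1) d → (∀ c, c ∉ Set.range t → Fib Sg f c 1 d) →
    (∀ i ∈ M, Fib Sg f (t i) 1 (d - 1) ∧ p i ∈ Sg ∧ (p i).ord (f - algebraMap ℂ F (t i)) = 1 ∧
      Val (p i) ((f - algebraMap ℂ F (t i)) • B) (E i)) →
    (∀ q ∉ Sg, ∀ φ, At φ q → (S.map ι).Loc (φ x) (φ y)) →
    IrrF δ B → (d = 1 ∨ DetF δ B) → RamF k δ B M p E →
    (∀ m : Ideal R, m.IsMaximal → (S.map (Ideal.Quotient.mk m)).Tri) → (S.map ψ).Alg := by
  have : NeZero r := ⟨by omega⟩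
  obtain ⟨k, hk⟩ := final13b r (d - 1) hr
  refine ⟨k, fun R _ _ ι ψ S F _ _ x y f δ B Sg n t M p E h0 hP hI hI' hD hx hxy hy hdeg hδ hB ht hg
    h1 h2 h3 hL hIr hDe hRa hF => SP.alg_spec ι ψ h0 S hP hI ?_ hI' hD⟩
  have : IsFF F := isFF_of_gen hx hxy hI.ne_zero hy
  have hd : d - 1 + 1 = d := by
    have := IsFF.fin (tr_of_der hδ)
    have := Module.finrank_pos (R := ℂ⟮f⟯) (M := F)
    omega
  obtain ⟨t', c, hc, htt, hgen, hre⟩ := exists_rotation3 ht (gen_of_indep hg)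
  obtain ⟨m, hm⟩ := exists_nat_gt (∑ i, |(t' i).re|)
  have key : ∀ z : ℂ, c⁻¹ • f - algebraMap ℂ F m - algebraMap ℂ F z =
      c⁻¹ • (f - algebraMap ℂ F (c * (z + m))) := fun z => by
    rw [smul_sub, Algebra.smul_def c⁻¹ (algebraMap ℂ F _), ← map_mul, inv_mul_cancel_left₀ hc,
      map_add]
    ring
  have e1 : ∀ i, c * (t' i - m + m) = t i := fun i => by rw [htt, sub_add_cancel, add_zero]
  have e2 : ℂ⟮c⁻¹ • f - algebraMap ℂ F m⟯ = ℂ⟮f⟯ := by
    refine le_antisymm (IntermediateField.adjoin_simple_le_iff.2 (sub_mem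
      (IntermediateField.smul_mem _ (IntermediateField.mem_adjoin_simple_self ℂ f))
      (IntermediateField.algebraMap_mem _ _))) (IntermediateField.adjoin_simple_le_iff.2 ?_)
    convert IntermediateField.smul_mem _ (x := c) (add_mem
      (IntermediateField.mem_adjoin_simple_self ℂ (c⁻¹ • f - algebraMap ℂ F m))
      (IntermediateField.algebraMap_mem _ (m : ℂ))) using 1
    rw [sub_add_cancel, smul_inv_smul₀ hc]
  refine hk R ι S F x y (c⁻¹ • f - algebraMap ℂ F m) (c • δ) (c • B) Sg n (fun i => t' i - m) M p E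
    hP ⟨hx, hxy, hP.map _, hI, hy⟩ (d_ne h0 hD) (by rw [e2, hdeg, hd]) ?_ ?_
    (fun i j e => hre (by simpa using e)) (fun i => ?_) (gen_shift hgen m) ?_ (fun z hz => ?_)
    (fun i hi => ?_) hL (hIr.smul hc) (hDe.imp hd.trans fun h => h.smul c) (hRa.smul hc) hF
  · rw [Derivation.smul_apply, map_sub, δ.map_algebraMap, δ.map_smul, hδ, sub_zero,
      smul_inv_smul₀ hc]
  · rw [smul_comm, hB, Derivation.smul_apply, smul_assoc]
  · have h4 := (le_abs_self _).trans (Finset.single_le_sum (f := fun i => |(t' i).re|)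
      (fun _ _ => abs_nonneg _) (Finset.mem_univ i))
    rw [Complex.sub_re, Complex.natCast_re]
    linarith
  · obtain ⟨q, a1, a2⟩ := h1
    rw [hd]
    refine ⟨q, a1, fun j => ⟨(a2 j).1, ?_⟩⟩
    have a3 := (a2 j).2
    rw [map_zero, sub_zero, ← Place.ord_smul _ (inv_ne_zero hc)] at a3
    rw [sub_eq_add_neg, (Place.ord_add_of_ge (fun e => by simp [e] at a3)
      (by rw [a3]; exact ((q j).ge_const _).neg)).2, a3]
  · rw [hd]
    refine Fib.aff (inv_ne_zero hc) (key z) (h2 _ ?_)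
    rintro ⟨i, hi⟩
    exact hz ⟨i, add_right_cancel (mul_left_cancel₀ hc ((e1 i).trans hi))⟩
  · obtain ⟨a1, a2, a3, a4⟩ := h3 i hi
    refine ⟨Fib.aff (inv_ne_zero hc) (key _) (e1 i ▸ a1), a2, ?_, ?_⟩
    · rw [key, e1, Place.ord_smul _ (inv_ne_zero hc), a3]
    · rwa [key, e1, smul_assoc, smul_comm _ c, inv_smul_smul₀ hc]

end Pool.Agent.GR.CP
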