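import Pool.Agent.Lib.MP_aa40d3_nt.CP.Final

/-! The fibre at infinity is arbitrary: change of the function `f` to `1 / (f - a)`. -/

open Polynomial
open scoped Polynomial.Bivariate IntermediateField

namespace Pool.Agent.GR.CP

open Pool.Agent.GR.CV Pool.Agent.GR.GE Pool.Agent.GR.FB
open Pool.Agent.Lib.MP_a01f70_lc.QQ (Place)

theorem indep_inv {K ι : Type} [Field K] [Algebra K ℂ] {x : ι → ℂ}
    (h : AlgebraicIndependent K x) : AlgebraicIndependent K fun i => (x i)⁻¹ := by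
  refine algebraicIndependent_of_finite_type' (algebraMap K ℂ).injective fun s _ _ i hi => ?_
  have h1 := IntermediateField.transcendental_adjoin_iff.2 (h.transcendental_adjoin hi)
  have h2 : Transcendental (IntermediateField.adjoin K (x '' s)).toSubalgebra (x i)⁻¹ :=
    fun e => h1 (IsAlgebraic.inv_iff.1 e)
  refine Transcendental.of_tower_top_of_subalgebra_le (Algebra.adjoin_le ?_) h2
  rintro _ ⟨j, hj, rfl⟩
  exact (IntermediateField.adjoin K (x '' s)).inv_mem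
    (IntermediateField.subset_adjoin K _ ⟨j, hj, rfl⟩)

theorem indep_shift {K ι : Type} [Field K] [Algebra K ℂ] {x : ι → ℂ}
    (h : AlgebraicIndependent K x) (m : ℕ) : AlgebraicIndependent K fun i => x i - m := by
  have h3 := h.polynomial_aeval_of_transcendental (f := fun _ => X - C (m : K)) fun _ =>
    transcendental _ (by rw [natDegree_X_sub_C]; exact one_ne_zero) (by
      rw [leadingCoeff_X_sub_C]; exact one_mem _)
  simpa using h3

section
variable {F : Type} [Field F] [Algebra ℂ F] {r n : ℕ} {δ : Derivation ℂ F F}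
  {B : Matrix (Fin r) (Fin r) F} {u : F}

theorem IrrF.smul' (h : IrrF δ B) (hc : u ≠ 0) : IrrF (u • δ) (u • B) := fun V hV =>
  h V fun v hv => by
    convert V.smul_mem u⁻¹ (hV v hv) using 1
    funext a
    simp only [Pi.sub_apply, Pi.smul_apply, Matrix.smul_mulVec, Derivation.smul_apply,
      ← smul_sub, inv_smul_smul₀ hc]

theorem DetF.smul' (h : DetF δ B) (u : F) : DetF (u • δ) (u • B) := by
  obtain ⟨m, v, h1, h2, h3⟩ := h
  refine ⟨m, v, h1, h2, ?_⟩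
  rw [Derivation.smul_apply, h3, Matrix.trace_smul, mul_smul_comm, smul_mul_assoc]

theorem RamF.smul' {k : ℕ} {M : Finset (Fin n)} {p : Fin n → Place ℂ F}
    {E : Fin n → Matrix (Fin r) (Fin r) ℂ} (h : RamF k δ B M p E) (hc : u ≠ 0) :
    RamF k (u • δ) (u • B) M p E := fun W h1 h2 => h W h1 fun Φ hΦ => by
  convert W.smul_mem (h2 Φ hΦ) u⁻¹ using 1
  have e : Φ.map (u • δ) = u • Φ.map δ := rfl
  rw [e, Matrix.smul_mul, Matrix.mul_smul, ← smul_sub, ← smul_sub, inv_smul_smul₀ hc]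

theorem ord_unit {q : Place ℂ F} {g : F} {z : ℂ} (hz : z ≠ 0)
    (h : q.ord (g - algebraMap ℂ F z) = 1) : g ≠ 0 ∧ q.ord g = 0 := by
  have h0 : algebraMap ℂ F z ≠ 0 := by simpa using hz
  have h1 := Place.ord_add_of_ge (v := q) (g := g - algebraMap ℂ F z) h0
    (Place.Ge.of_le (by rw [h, Place.ord_const']; rfl))
  rw [add_sub_cancel, Place.ord_const'] at h1
  exact h1

theorem ord_inv_sub {q : Place ℂ F} {g : F} {z : ℂ} (hz : z ≠ 0)
    (h : q.ord (g - algebraMap ℂ F z) = 1) : q.ord (g⁻¹ - algebraMap ℂ F z⁻¹) = 1 := by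
  have h0 : algebraMap ℂ F z ≠ 0 := by simpa using hz
  obtain ⟨h1, h2⟩ := ord_unit hz h
  have h3 : g - algebraMap ℂ F z ≠ 0 := fun e => by simp [e] at h
  have e : g⁻¹ - algebraMap ℂ F z⁻¹ = -((g - algebraMap ℂ F z) / (g * algebraMap ℂ F z)) := by
    rw [map_inv₀]
    field_simp
    ring
  rw [e, Place.ord_neg, Place.ord_div _ h3 (mul_ne_zero h1 h0), q.ord_mul h1 h0, h, h2,
    Place.ord_const']
  rfl

theorem val_inv {q : Place ℂ F} {g : F} {z : ℂ} (hz : z ≠ 0) {E : Matrix (Fin r) (Fin r) ℂ}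
    (h : q.ord (g - algebraMap ℂ F z) = 1) (hV : Val q ((g - algebraMap ℂ F z) • B) E) :
    Val q ((g⁻¹ - algebraMap ℂ F z⁻¹) • (-g ^ 2) • B) E := fun a b => by
  have h0 : algebraMap ℂ F z ≠ 0 := by simpa using hz
  obtain ⟨h1, -⟩ := ord_unit hz h
  have h3 := hV a b
  have h4 : q.Ge (algebraMap ℂ F z⁻¹ * (g - algebraMap ℂ F z)) (0 + 1) :=
    (q.ge_const _).mul (Place.Ge.of_le h.ge)
  have h5 := (h3.add ((h4.mul h3).mono (by norm_num))).add
    ((h4.mul (q.ge_const (E a b))).mono (by norm_num))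
  convert h5 using 1
  simp only [Matrix.smul_apply, smul_eq_mul, map_inv₀]
  field_simp
  ring

end

theorem final14 (r d : ℕ) (hr : 1 ≤ r) : ∃ k : ℕ, ∀ (R : Type) [CommRing R]
    [Algebra.FiniteType ℤ R] (ι ψ : R →+* ℂ) (S : CV.Sys R r) (F : Type) [Field F] [Algebra ℂ F]
    (x y f : F) (δ : Derivation ℂ F F) (B : Matrix (Fin r) (Fin r) F) (Sg : Finset (Place ℂ F))
    (T : Finset ℂ) (n : ℕ) (t : Fin n → ℂ) (p : Fin n → Place ℂ F)
    (E : Fin n → Matrix (Fin r) (Fin r) ℂ),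
    RingHom.ker ι ≤ RingHom.ker ψ → S.P.Monic →
    Irreducible (S.map ι).P → Irreducible (S.map ψ).P → (S.map ψ).D ≠ 0 →
    Transcendental ℂ x → ℂ⟮x, y⟯ = ⊤ → aevalAeval x y (S.map ι).P = 0 →
    Module.finrank ℂ⟮f⟯ F = d → δ f = 1 →
    aeval x (S.map ι).D • B = δ x • (S.map ι).A.map (aevalAeval x y) →
    AlgebraicIndependent (IntermediateField.adjoin ℚ (T : Set ℂ)) t →
    (∀ c, c ∉ T → c ∉ Set.range t → Fib Sg f c 1 d) →
    (∀ i, Fib Sg f (t i) 1 (d - 1) ∧ p i ∈ Sg ∧ (p i).ord (f - algebraMap ℂ F (t i)) = 1 ∧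
      Val (p i) ((f - algebraMap ℂ F (t i)) • B) (E i)) →
    (∀ q ∉ Sg, ∀ φ, At φ q → (S.map ι).Loc (φ x) (φ y)) →
    IrrF δ B → (d = 1 ∨ DetF δ B) → RamF k δ B Finset.univ p E →
    (∀ m : Ideal R, m.IsMaximal → (S.map (Ideal.Quotient.mk m)).Tri) → (S.map ψ).Alg := by
  classical
  obtain ⟨k, hk⟩ := final13 r d hr
  refine ⟨k, fun R _ _ ι ψ S F _ _ x y f δ B Sg T n t p E h0 hP hI hI' hD hx hxy hy hdeg hδ hB hg
    h2 h3 hL hIr hDe hRa hF => ?_⟩
  have : IsFF F := isFF_of_gen hx hxy hI.ne_zero hy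
  have hd : 0 < d := by
    have := IsFF.fin (tr_of_der hδ)
    have := Module.finrank_pos (R := ℂ⟮f⟯) (M := F)
    omega
  obtain ⟨_, ⟨a, rfl⟩, ha⟩ := (Set.infinite_range_of_injective
    (Nat.cast_injective (R := ℂ))).exists_notMem_finite (T.finite_toSet.union (Set.finite_range t))
  have ha1 : (a : ℂ) ∉ T := fun e => ha (Or.inl e)
  have ha2 : (a : ℂ) ∉ Set.range t := fun e => ha (Or.inr e)
  have hz : ∀ i, t i - a ≠ 0 := fun i e => ha2 ⟨i, sub_eq_zero.1 e⟩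
  set g : F := f - algebraMap ℂ F a with hgd
  have hδg : δ g = 1 := by rw [hgd, map_sub, δ.map_algebraMap, sub_zero, hδ]
  have hg0 : g ≠ 0 := fun e => by simp [e] at hδg
  have hu : -g ^ 2 ≠ 0 := neg_ne_zero.2 (pow_ne_zero _ hg0)
  have key : ∀ c : ℂ, f - algebraMap ℂ F c = g - algebraMap ℂ F (c - a) := fun c => by
    rw [hgd, map_sub]; ring
  have fib : ∀ (c : ℂ) (m : ℕ), c - a ≠ 0 → Fib Sg f c 1 m → Fib Sg g⁻¹ (c - a)⁻¹ 1 m :=
    fun c m hc ⟨q, b1, b2⟩ => ⟨q, b1, fun j => ⟨(b2 j).1, ord_inv_sub hc (key c ▸ (b2 j).2)⟩⟩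
  set T' : Finset ℂ := insert 0 (T.image fun c => (c - a)⁻¹) with hT'
  set s : Fin T'.card → ℂ := fun j => (T'.equivFin.symm j : ℂ) with hs
  have hsT : ∀ j, s j ∈ IntermediateField.adjoin ℚ (T : Set ℂ) := fun j => by
    rcases Finset.mem_insert.1 (T'.equivFin.symm j).2 with e | e
    · rw [show s j = 0 from e]; exact zero_mem _
    · obtain ⟨c, hc, e⟩ := Finset.mem_image.1 e
      rw [show s j = (c - a)⁻¹ from e.symm]
      exact inv_mem (sub_mem (IntermediateField.subset_adjoin ℚ _ hc) (natCast_mem _ a))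
  have hg' := indep_inv (indep_shift hg a)
  obtain ⟨q0, b1, b2⟩ := h2 a ha1 ha2
  have e2 : ℂ⟮g⁻¹⟯ = ℂ⟮f⟯ := by
    refine le_antisymm (IntermediateField.adjoin_simple_le_iff.2 (inv_mem (sub_mem
      (IntermediateField.mem_adjoin_simple_self ℂ f)
      (IntermediateField.algebraMap_mem _ _)))) (IntermediateField.adjoin_simple_le_iff.2 ?_)
    convert add_mem (inv_mem (IntermediateField.mem_adjoin_simple_self ℂ g⁻¹))
      (IntermediateField.algebraMap_mem _ (a : ℂ)) using 1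
    rw [inv_inv, hgd, sub_add_cancel]
  refine hk R ι ψ S F x y g⁻¹ ((-g ^ 2) • δ) ((-g ^ 2) • B) Sg (n + T'.card)
    (Fin.append (fun i => (t i - a)⁻¹) s) (Finset.univ.map (Fin.castAddEmb T'.card))
    (Fin.append p fun _ => q0 ⟨0, hd⟩) (Fin.append E fun _ => 0) h0 hP hI hI' hD hx hxy hy
    (by rw [e2, hdeg]) ?_ ?_ ?_ ?_ ?_ (fun c hc => ?_) (fun i hi => ?_) hL (hIr.smul' hu)
    (hDe.imp id fun h => h.smul' _) ?_ hF
  · rw [Derivation.smul_apply, δ.leibniz_inv, hδg, smul_eq_mul, smul_eq_mul]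
    field_simp
  · rw [smul_comm, hB, Derivation.smul_apply, smul_assoc]
  · refine Fin.append_injective_iff.2 ⟨hg'.injective, fun i j e =>
      T'.equivFin.symm.injective (Subtype.ext e), fun i j e => hg'.transcendental i ?_⟩
    rw [e]
    exact isAlgebraic_algebraMap (⟨s j, hsT j⟩ : IntermediateField.adjoin ℚ (T : Set ℂ))
  · have hle : IntermediateField.adjoin ℚ {c : ℂ | ∃ j, j ∉ Finset.univ.map
        (Fin.castAddEmb T'.card) ∧ c = Fin.append (fun i => (t i - a)⁻¹) s j} ≤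
        IntermediateField.adjoin ℚ (T : Set ℂ) := by
      refine IntermediateField.adjoin_le_iff.2 ?_
      rintro _ ⟨j, hj, rfl⟩
      induction j using Fin.addCases with
      | left i => exact absurd (Finset.mem_map_of_mem _ (Finset.mem_univ i)) hj
      | right j => rw [Fin.append_right]; exact hsT j
    refine AlgebraicIndependent.of_ringHom_of_comp_eq (IntermediateField.inclusion hle)
      (RingHom.id ℂ) ?_ (IntermediateField.inclusion_injective hle) rfl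
    choose v hv1 hv2 using fun i : Finset.univ.map (Fin.castAddEmb (n := n) T'.card) =>
      Finset.mem_map.1 i.2
    convert hg'.comp v (fun i j e => Subtype.ext ((hv2 i).symm.trans (e ▸ hv2 j))) using 1
    funext i
    simp only [Function.comp, RingHom.id_apply]
    rw [← hv2 i]
    exact Fin.append_left _ _ _
  · refine ⟨q0, b1, fun j => ⟨(b2 j).1, ?_⟩⟩
    rw [map_zero, sub_zero, Place.ord_inv, (b2 j).2]
  · have hc1 : c ∉ T' := fun e => hc ⟨Fin.natAdd n (T'.equivFin ⟨c, e⟩), by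
      rw [Fin.append_right, hs]; simp⟩
    have hc0 : c ≠ 0 := fun e => hc1 (e ▸ Finset.mem_insert_self _ _)
    have e1 : (c⁻¹ + a - a)⁻¹ = c := by rw [add_sub_cancel_right, inv_inv]
    rw [← e1]
    refine fib _ _ (by rw [add_sub_cancel_right]; exact inv_ne_zero hc0) (h2 _ (fun e => hc1 ?_) ?_)
    · exact Finset.mem_insert_of_mem (Finset.mem_image.2 ⟨_, e, e1⟩)
    · rintro ⟨i, hi⟩
      exact hc ⟨Fin.castAdd _ i, by rw [Fin.append_left, hi, e1]⟩
  · obtain ⟨i, -, rfl⟩ := Finset.mem_map.1 hi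
    obtain ⟨a1, a2, a3, a4⟩ := h3 i
    simp only [Fin.castAddEmb_apply, Fin.append_left]
    rw [key] at a3 a4
    exact ⟨fib _ _ (hz i) a1, a2, ord_inv_sub (hz i) a3, val_inv (hz i) a3 a4⟩
  · intro W w1 w2
    obtain ⟨M', -, m2, m3⟩ := hRa.smul' hu W w1 w2
    refine ⟨M'.map (Fin.castAddEmb T'.card), Finset.map_subset_map.2 (Finset.subset_univ _),
      by rwa [Finset.card_map], fun i hi => ?_⟩
    obtain ⟨i, hi', rfl⟩ := Finset.mem_map.1 hi
    simp only [Fin.castAddEmb_apply, Fin.append_left]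
    exact m3 i hi'

/-- Only the maximal ideals of a dense open part of the component of `ι` matter. -/
theorem loc_tri {R : Type} [CommRing R] [Algebra.FiniteType ℤ R] {r : ℕ} (ι : R →+* ℂ)
    (S : CV.Sys R r) {g : R} (hg : ι g ≠ 0) (hF : ∀ m : Ideal R, m.IsMaximal →
      RingHom.ker ι ≤ m → g ∉ m → (S.map (Ideal.Quotient.mk m)).Tri) :
    ∃ (R' : Subring ℂ) (j : R →+* R'), Algebra.FiniteType ℤ R' ∧ R'.subtype.comp j = ι ∧
      ∀ m : Ideal R', m.IsMaximal → ((S.map j).map (Ideal.Quotient.mk m)).Tri := by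
  obtain ⟨R', j, h1, h2, h3⟩ := exists_ring ι {(ι g)⁻¹}
  have h4 : ∀ z, (j z : ℂ) = ι z := fun z => RingHom.congr_fun h2 z
  refine ⟨R', j, h1, h2, fun m hm => ?_⟩
  have h5 := NP.tri_map (hF _ (comap_max j m) (fun z hz => ?_) fun e => hm.ne_top ?_)
    (Ideal.quotientMap_injective (I := m) (f := j))
  · rwa [Sys.map_map, Ideal.quotientMap_comp_mk, ← Sys.map_map] at h5
  · rw [Ideal.mem_comap, show j z = 0 from Subtype.ext ((h4 z).trans hz)]
    exact m.zero_mem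
  · refine m.eq_top_of_isUnit_mem e (IsUnit.of_mul_eq_one ⟨_, h3 _ (Finset.mem_singleton_self _)⟩
      (Subtype.ext ?_))
    rw [Subring.coe_mul, h4]
    exact mul_inv_cancel₀ hg

theorem final15 (r d : ℕ) (hr : 1 ≤ r) : ∃ k : ℕ, ∀ (R : Type) [CommRing R]
    [Algebra.FiniteType ℤ R] (ι ψ : R →+* ℂ) (g : R) (S : CV.Sys R r) (F : Type) [Field F]
    [Algebra ℂ F] (x y f : F) (δ : Derivation ℂ F F) (B : Matrix (Fin r) (Fin r) F)
    (Sg : Finset (Place ℂ F)) (T : Finset ℂ) (n : ℕ) (t : Fin n → ℂ) (p : Fin n → Place ℂ F)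
    (E : Fin n → Matrix (Fin r) (Fin r) ℂ),
    RingHom.ker ι ≤ RingHom.ker ψ → ι g ≠ 0 → S.P.Monic →
    Irreducible (S.map ι).P → Irreducible (S.map ψ).P → (S.map ψ).D ≠ 0 →
    Transcendental ℂ x → ℂ⟮x, y⟯ = ⊤ → aevalAeval x y (S.map ι).P = 0 →
    Module.finrank ℂ⟮f⟯ F = d → δ f = 1 →
    aeval x (S.map ι).D • B = δ x • (S.map ι).A.map (aevalAeval x y) →
    AlgebraicIndependent (IntermediateField.adjoin ℚ (T : Set ℂ)) t →
    (∀ c, c ∉ T → c ∉ Set.range t → Fib Sg f c 1 d) →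
    (∀ i, Fib Sg f (t i) 1 (d - 1) ∧ p i ∈ Sg ∧ (p i).ord (f - algebraMap ℂ F (t i)) = 1 ∧
      Val (p i) ((f - algebraMap ℂ F (t i)) • B) (E i)) →
    (∀ q ∉ Sg, ∀ φ, At φ q → (S.map ι).Loc (φ x) (φ y)) →
    IrrF δ B → (d = 1 ∨ DetF δ B) → RamF k δ B Finset.univ p E →
    (∀ m : Ideal R, m.IsMaximal → RingHom.ker ι ≤ m → g ∉ m →
      (S.map (Ideal.Quotient.mk m)).Tri) → (S.map ψ).Alg := by
  have : NeZero r := ⟨by omega⟩
  obtain ⟨k, hk⟩ := final14 r d hr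
  refine ⟨k, fun R _ _ ι ψ g S F _ _ x y f δ B Sg T n t p E h0 hg hP hI hI' hD hx hxy hy hdeg hδ hB
    ht h2 h3 hL hIr hDe hRa hF => SP.alg_spec ι ψ h0 S hP hI ?_ hI' hD⟩
  obtain ⟨R', j, _, e, hF'⟩ := loc_tri ι S hg hF
  have e1 : (S.map j).map R'.subtype = S.map ι := by rw [Sys.map_map, e]
  exact e1 ▸ hk R' R'.subtype R'.subtype (S.map j) F x y f δ B Sg T n t p E le_rfl (hP.map _)
    (e1 ▸ hI) (e1 ▸ hI) (e1 ▸ d_ne h0 hD) hx hxy (e1 ▸ hy) hdeg hδ (e1 ▸ hB) ht h2 h3 (e1 ▸ hL)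
    hIr hDe hRa hF'

end Pool.Agent.GR.CP
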