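import Pool.Agent.Lib.MP_aa40d3_nt.CP.Final2
import Pool.Agent.Lib.MP_aa40d3_nt.SP.At

/-! All solutions on all branches of all fibres. -/

open Polynomial
open scoped Polynomial.Bivariate IntermediateField

namespace Pool.Agent.GR.CP

open Pool.Agent.GR.CV Pool.Agent.GR.GE Pool.Agent.GR.FB
open Pool.Agent.Lib.MP_a01f70_lc.QQ (Place)

theorem final16 (r d : ℕ) : ∃ k : ℕ, ∀ (R : Type) [CommRing R]
    [Algebra.FiniteType ℤ R] (ι ψ : R →+* ℂ) (g : R) (S : CV.Sys R r) (F : Type) [Field F]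
    [Algebra ℂ F] (x y f : F) (δ : Derivation ℂ F F) (B : Matrix (Fin r) (Fin r) F)
    (Sg : Finset (Place ℂ F)) (T : Finset ℂ) (n : ℕ) (t : Fin n → ℂ) (p : Fin n → Place ℂ F)
    (E : Fin n → Matrix (Fin r) (Fin r) ℂ),
    RingHom.ker ι ≤ RingHom.ker ψ → ι g ≠ 0 → S.P.Monic → Irreducible (S.map ι).P →
    Transcendental ℂ x → ℂ⟮x, y⟯ = ⊤ → aevalAeval x y (S.map ι).P = 0 →
    Module.finrank ℂ⟮f⟯ F = d → δ f = 1 →
    aeval x (S.map ι).D • B = δ x • (S.map ι).A.map (aevalAeval x y) →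
    AlgebraicIndependent (IntermediateField.adjoin ℚ (T : Set ℂ)) t →
    (∀ c, c ∉ T → c ∉ Set.range t → Fib Sg f c 1 d) →
    (∀ i, Fib Sg f (t i) 1 (d - 1) ∧ p i ∈ Sg ∧ (p i).ord (f - algebraMap ℂ F (t i)) = 1 ∧
      Val (p i) ((f - algebraMap ℂ F (t i)) • B) (E i)) →
    (∀ q ∉ Sg, ∀ φ, At φ q → (S.map ι).Loc (φ x) (φ y)) →
    IrrF δ B → (d = 1 ∨ DetF δ B) → RamF k δ B Finset.univ p E →
    (∀ m : Ideal R, m.IsMaximal → RingHom.ker ι ≤ m → g ∉ m →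
      (S.map (Ideal.Quotient.mk m)).Tri) → (S.map ψ).AlgAll := by
  rcases Nat.eq_zero_or_pos r with rfl | hr
  · exact ⟨0, by intros; exact fun _ _ _ _ _ _ a => a.elim0⟩
  obtain ⟨k, hk⟩ := final15 r d hr
  refine ⟨k, fun R _ _ ι ψ g S F _ _ x y f δ B Sg T n t p E h0 hg hP hI hx hxy hy hdeg hδ hB
    ht h2 h3 hL hIr hDe hRa hF w u z hD => ?_⟩
  have hD' : (S.map ι).D ≠ 0 := d_ne h0 fun e => hD (by rw [e, eval_zero])
  exact SP.all_spec ι ψ h0 S hP hI (hk R ι ι g S F x y f δ B Sg T n t p E le_rfl hg hP hI hI hD' hx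
    hxy hy hdeg hδ hB ht h2 h3 hL hIr hDe hRa hF) w u z hD

end Pool.Agent.GR.CP
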