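import Pool.Agent.Lib.MP_aa40d3_nt.CP.Defs
import Pool.Agent.Lib.MP_aa40d3_nt.CV.PushI

/-! From the function field to the plane model. -/

open Polynomial Matrix
open scoped Polynomial.Bivariate

namespace Pool.Agent.GR.CP

open CV

variable {r d n : ℕ} {F : Type} [Field F] [Algebra ℂ F] {S : CV.Sys ℂ r} {x y : F}
  {δ : Derivation ℂ F F} {B : Matrix (Fin r) (Fin r) F}

theorem Con.ne (h : Con S x y δ B) {c : ℂ[X]} (hc : c ≠ 0) : aeval x c ≠ 0 :=
  fun e => h.m.tr ⟨c, hc, e⟩

theorem Con.der1 (h : Con S x y δ B) (c : ℂ[X]) : δ (aeval x c) = aeval x (derivative c) := by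
  rw [Derivation.map_aeval, h.one, smul_eq_mul, mul_one]

theorem Con.der2 (h : Con S x y δ B) (p : ℂ[X][Y]) : δ (aevalAeval x y p) =
    aevalAeval x y (dX p) + aevalAeval x y (derivative p) * δ y := by
  induction p using Polynomial.induction_on with
  | C c => simp [dX_C, h.der1]
  | add p q hp hq =>
    simp only [map_add, dX_add, hp, hq]
    ring
  | monomial k c ih =>
    have e : C c * Y ^ (k + 1) = C c * Y ^ k * Y ^ 1 := by ring
    rw [e, map_mul, Derivation.leibniz, ih, dX_mul _ (Y ^ 1), dX_Y_pow,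
      derivative_mul (f := C c * Y ^ k)]
    simp only [pow_one, derivative_X, map_add, map_mul, aevalAeval_Y, map_zero, map_one,
      smul_eq_mul]
    ring

theorem Con.dy (h : Con S x y δ B) :
    aevalAeval x y (dX S.P) + aevalAeval x y (derivative S.P) * δ y = 0 := by
  rw [← h.der2, h.m.root, map_zero]

theorem Con.der3 (h : Con S x y δ B) (p : ℂ[X][Y]) :
    aevalAeval x y (derivative S.P * dX p - dX S.P * derivative p) =
      aevalAeval x y (derivative S.P) * δ (aevalAeval x y p) := by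
  rw [h.der2, map_sub, map_mul, map_mul]
  linear_combination (-aevalAeval x y (derivative p)) * h.dy

theorem Con.detP (h : Con S x y δ B) (hB : DetF δ B) : DetP S := by
  obtain ⟨m, u, hm, hu, e⟩ := hB
  obtain ⟨c, a, hc, ha⟩ := h.m.den u
  refine ⟨m, a, c, hm, hc.ne_zero, ?_, h.m.dvd ?_⟩
  · rintro ⟨b, rfl⟩
    rw [map_mul, h.m.root, zero_mul] at ha
    exact mul_ne_zero (h.ne hc.ne_zero) hu ha
  have h1 : aevalAeval x y S.A.trace = aeval x S.D * B.trace := by
    rw [← smul_eq_mul, ← trace_smul, h.eq]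
    simp [trace]
  have h2 := h.der3 a
  rw [← ha, Derivation.leibniz, h.der1, e] at h2
  rw [map_sub, map_mul, map_sub, map_mul, h2]
  simp only [map_mul, aevalAeval_C, map_natCast, h1, ← ha, smul_eq_mul]
  ring

theorem Con.nab (h : Con S x y δ B) (u : Fin r → ℂ[X][Y]) :
    (fun a => aevalAeval x y (S.nab u a)) = (aevalAeval x y (derivative S.P) * aeval x S.D) •
      ((fun a => δ (aevalAeval x y (u a))) - B *ᵥ fun a => aevalAeval x y (u a)) := by
  funext a
  have h1 : aevalAeval x y ((S.A *ᵥ u) a) =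
      aeval x S.D * (B *ᵥ fun a => aevalAeval x y (u a)) a := by
    rw [← smul_eq_mul, ← Pi.smul_apply, ← smul_mulVec, h.eq]
    exact RingHom.map_mulVec (aevalAeval x y).toRingHom S.A u a
  simp only [Sys.nab, Pi.sub_apply, Pi.smul_apply, smul_eq_mul]
  rw [map_sub, map_mul, h.der3, map_mul, h1, aevalAeval_C]
  ring

theorem Con.irr (h : Con S x y δ B) (hB : IrrF δ B) : S.Irr := by
  intro W hn hP
  let V : Submodule F (Fin r → F) :=
    { carrier := {v | ∃ c : ℂ[X], c ≠ 0 ∧ ∃ u ∈ W, aeval x c • v = fun a => aevalAeval x y (u a)}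
      add_mem' := by
        rintro v v' ⟨c, hc, u, hu, e⟩ ⟨c', hc', u', hu', e'⟩
        refine ⟨c * c', mul_ne_zero hc hc', _, W.add_mem (W.smul_mem (C c') hu)
          (W.smul_mem (C c) hu'), funext fun a => ?_⟩
        have h1 := congrFun e a
        have h2 := congrFun e' a
        simp only [Pi.smul_apply, Pi.add_apply, smul_eq_mul, map_mul, map_add,
          aevalAeval_C] at h1 h2 ⊢
        linear_combination aeval x c' * h1 + aeval x c * h2
      zero_mem' := ⟨1, one_ne_zero, 0, W.zero_mem, funext fun a => by simp⟩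
      smul_mem' := by
        rintro z v ⟨c, hc, u, hu, e⟩
        obtain ⟨c', b, hc', e'⟩ := h.m.den z
        refine ⟨c * c', mul_ne_zero hc hc'.ne_zero, _, W.smul_mem b hu, funext fun a => ?_⟩
        have h1 := congrFun e a
        simp only [Pi.smul_apply, smul_eq_mul, map_mul] at h1 ⊢
        rw [← h1, ← e']
        ring }
  have hV : ∀ u ∈ W, (fun a => aevalAeval x y (u a)) ∈ V := fun u hu =>
    ⟨1, one_ne_zero, u, hu, by simp⟩
  refine (hB V ?_).imp (fun e u hu a => h.m.dvd ?_) fun e => ?_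
  · intro v hv
    obtain ⟨c, hc, u, hu, e⟩ := id hv
    have h1 := hV _ (hn u hu)
    rw [h.nab, V.smul_mem_iff (mul_ne_zero h.m.sep (h.ne h.D)), ← e] at h1
    rw [← V.smul_mem_iff (h.ne hc)]
    convert V.sub_mem h1 (V.smul_mem (aeval x (derivative c)) hv) using 1
    funext a
    have h2 := congrArg δ (congrFun e a)
    simp only [Pi.smul_apply, Pi.sub_apply, smul_eq_mul, Derivation.leibniz, h.der1,
      mulVec_smul] at h2 ⊢
    rw [← h2]
    ring
  · exact congrFun ((Submodule.eq_bot_iff V).1 e _ (hV u hu)) a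
  · have h1 : ∀ i : Fin r, ∃ c : ℂ[X], c ≠ 0 ∧ (C c : ℂ[X][Y]) • Pi.single i 1 ∈ W := fun i => by
      obtain ⟨c, hc, u, hu, e1⟩ := Submodule.eq_top_iff'.1 e (Pi.single i 1)
      have h2 : ∀ a, S.P ∣ ((C c : ℂ[X][Y]) • Pi.single i 1 - u : Fin r → ℂ[X][Y]) a := fun a =>
        h.m.dvd (by
          have h3 := congrFun e1 a
          simp only [Pi.smul_apply, Pi.sub_apply, smul_eq_mul, map_sub, map_mul, aevalAeval_C,
            Pi.single_apply, apply_ite (aevalAeval x y), map_one, map_zero] at h3 ⊢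
          rw [h3, sub_self])
      choose w hw using h2
      refine ⟨c, hc, ?_⟩
      convert W.add_mem (hP w) hu using 1
      exact (eq_add_of_sub_eq (funext hw))
    choose c hc hw using h1
    refine ⟨∏ i, c i, Finset.prod_ne_zero_iff.2 fun i _ => hc i, fun v => ?_⟩
    rw [pi_eq_sum_univ' v, Finset.smul_sum]
    refine W.sum_mem fun i _ => ?_
    rw [smul_comm, ← Finset.prod_erase_mul _ _ (Finset.mem_univ i), C_mul, mul_smul]
    exact W.smul_mem _ (W.smul_mem _ (hw i))

/-- The columns of the sheet `k`. -/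
noncomputable def fldE (r : ℕ) (k : Fin d) : Matrix (Fin (r * d)) (Fin r) ℂ[X] :=
  Matrix.of fun i a => if i = ix a k then 1 else 0

theorem fld_mulE {γ : Type} (U : Matrix γ (Fin (r * d)) F) (k : Fin d) (b : γ) (a : Fin r) :
    (U * (fldE r k).map (aeval x)) b a = U b (ix a k) := by
  simp [Matrix.mul_apply, fldE, apply_ite (aeval x : ℂ[X] →ₐ[ℂ] F)]

theorem fld_omE (k : Fin d) : Om r d y * (fldE r k).map (aeval x) = y ^ (k : ℕ) • 1 := by
  ext a b
  rw [fld_mulE]
  simp [Om, Matrix.one_apply]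

theorem fld_mul {α β γ : Type} [Fintype β] (U : Matrix α β ℂ[X]) (V : Matrix β γ ℂ[X]) :
    (U * V).map (aeval x) = U.map (aeval x) * V.map (aeval x) :=
  Matrix.map_mul (f := (aeval x : ℂ[X] →ₐ[ℂ] F))

theorem fld_smul {α β : Type} (c : ℂ[X]) (U : Matrix α β ℂ[X]) :
    (c • U).map (aeval x) = aeval x c • U.map (aeval x) := by
  ext a b
  simp

theorem fld_add {α β : Type} (U V : Matrix α β ℂ[X]) :
    (U + V).map (aeval x) = U.map (aeval x) + V.map (aeval x) := by
  ext a b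
  simp

theorem fld_sub {α β : Type} (U V : Matrix α β ℂ[X]) :
    (U - V).map (aeval x) = U.map (aeval x) - V.map (aeval x) := by
  ext a b
  simp

theorem fld_der {α β γ : Type} [Fintype β] (U : Matrix α β F) (V : Matrix β γ F) :
    (U * V).map δ = U.map δ * V + U * V.map δ := by
  ext a b
  simp [Matrix.mul_apply, ← Finset.sum_add_distrib, mul_comm, add_comm]

theorem fld_cancel {α β : Type} {c : ℂ[X]} (hc : c ≠ 0) {U V : Matrix α β ℂ[X]}
    (h : c • U = c • V) : U = V :=
  Matrix.ext fun a b => mul_left_cancel₀ hc (congrFun (congrFun h a) b)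

variable {q : ℂ[X][Y]} {δ₀ : ℂ[X]}

theorem Con.inj (h : Con S x y δ B) (hp : Prep S d q δ₀) {γ : Type}
    {U V : Matrix (Fin (r * d)) γ ℂ[X]}
    (e : Om r d y * U.map (aeval x) = Om r d y * V.map (aeval x)) : U = V := by
  rw [← sub_eq_zero, ← Matrix.mul_sub, ← fld_sub] at e
  rw [← sub_eq_zero]
  ext1 i j
  refine congrFun (hp.asm_inj (u := fun i => (U - V) i j) fun a => h.m.dvd ?_) i
  refine (pushn_om (aevalAeval x y).toRingHom _ a).trans ?_
  rw [← show _ = (0 : F) from congrFun (congrFun e a) j]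
  simp [Matrix.mul_apply, mulVec, dotProduct]

theorem Con.omM (h : Con S x y δ B) (hp : Prep S d q δ₀) (a : ℂ[X][Y]) :
    Om r d y * (aeval (pM S d) a).map (aeval x) = aevalAeval x y a • Om r d y := by
  have h1 : Om r d y * (pM S d).map (aeval x) = y • Om r d y := by
    simpa using om_pM hp (aevalAeval x y).toRingHom h.m.root
  induction a using Polynomial.induction_on with
  | C c =>
    rw [aeval_C, Algebra.algebraMap_eq_smul_one, fld_smul, Matrix.map_one _ (map_zero _) (map_one _),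
      Matrix.mul_smul, Matrix.mul_one, aevalAeval_C]
  | add p q hp hq => rw [map_add, fld_add, Matrix.mul_add, hp, hq, map_add, add_smul]
  | monomial k c ih =>
    rw [pow_succ, ← mul_assoc, map_mul, map_mul (aevalAeval x y), fld_mul, ← Matrix.mul_assoc, ih,
      aeval_X, Matrix.smul_mul, h1, aevalAeval_Y, mul_smul]

theorem Con.desc (h : Con S x y δ B) (hp : Prep S d q δ₀) (hd : d ≠ 0) {Θ : PM (r * d)}
    (e : pM S d * Θ = Θ * pM S d) :
    ∃ Φ : Matrix (Fin r) (Fin r) F, Om r d y * Θ.map (aeval x) = Φ * Om r d y := by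
  let o : Fin d := ⟨0, Nat.pos_of_ne_zero hd⟩
  have h1 : ∀ k : ℕ, Om r d y * (pM S d ^ k).map (aeval x) = y ^ k • Om r d y := fun k => by
    simpa using h.omM hp (Y ^ k)
  have h2 : ∀ k : Fin d, pM S d ^ (k : ℕ) * fldE r o = fldE r k := fun k => h.inj hp (by
    rw [fld_mul, ← Matrix.mul_assoc, h1, Matrix.smul_mul, fld_omE, fld_omE, pow_zero, one_smul])
  refine ⟨Om r d y * Θ.map (aeval x) * (fldE r o).map (aeval x), Matrix.ext fun a j => ?_⟩
  have h3 : Om r d y * Θ.map (aeval x) * (fldE r (sh j)).map (aeval x) =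
      Om r d y * Θ.map (aeval x) * (fldE r o).map (aeval x) * Om r d y *
        (fldE r (sh j)).map (aeval x) := by
    rw [Matrix.mul_assoc _ (Om r d y), fld_omE, ← h2 (sh j), Matrix.mul_assoc, ← fld_mul,
      ← Matrix.mul_assoc Θ, ← (Commute.pow_left e (sh j : ℕ)).eq, Matrix.mul_assoc, fld_mul,
      ← Matrix.mul_assoc, h1, Matrix.mul_smul, Matrix.mul_one, Matrix.smul_mul, fld_mul,
      Matrix.mul_assoc]
  have h4 := congrFun (congrFun h3 a) (co j)
  rwa [fld_mulE, fld_mulE, ix_co_sh] at h4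

theorem Con.omB (h : Con S x y δ B) (hp : Prep S d q δ₀) :
    Om r d y * (pB S d q δ₀).map (aeval x) =
      aeval x (δ₀ * S.D) • (B * Om r d y) - aeval x (δ₀ * S.D) • (Om r d y).map δ := by
  have h1 := om_pB hp (aevalAeval x y).toRingHom h.m.root
  have h2 : (Om r d y).map δ = δ y • Om' r d y := by
    ext a j
    by_cases ha : a = co j <;>
      simp [Om, Om', ha, Derivation.leibniz_pow, mul_comm, mul_assoc, mul_left_comm]
  have h3 := map_dvd (aevalAeval x y) hp.2.2
  rw [h.m.root, zero_dvd_iff, map_sub, map_mul, aevalAeval_C] at h3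
  simp only [AlgHom.toRingHom_eq_coe, RingHom.coe_coe, aevalAeval_Y, aevalAeval_C, map_mul] at h1
  rw [h1, ← h.eq, h2, Matrix.smul_mul, smul_smul, smul_smul, map_mul, sub_eq_add_neg, ← neg_smul]
  congr 2
  linear_combination (aeval x S.D * aevalAeval x y q) * h.dy - (aeval x S.D * δ y) * h3

theorem fld_gau {N : ℕ} {D Δ ρ : ℂ[X]} {B₁ P G : PM N} (g : Gau D B₁ Δ P ρ G) (hG : G.det ≠ 0)
    (Θ : PM N) : (Δ * ρ * G.det) • (G * (D • Θ.map derivative - (B₁ * Θ - Θ * B₁)) * G.adjugate) =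
      (ρ * D * G.det) • (Δ • (G * Θ * G.adjugate).map derivative -
        (P * (G * Θ * G.adjugate) - G * Θ * G.adjugate * P)) -
      (Δ * ρ * D * derivative G.det) • (G * Θ * G.adjugate) := by
  have h0 : ∀ U : PM N, U * G.adjugate * G = G.det • U := fun U => by
    rw [Matrix.mul_assoc, adjugate_mul, Matrix.mul_smul, Matrix.mul_one]
  have h0' : ∀ U : PM N, U * G * G.adjugate = G.det • U := fun U => by
    rw [Matrix.mul_assoc, mul_adjugate, Matrix.mul_smul, Matrix.mul_one]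
  have h1 := h0 (G * Θ)
  generalize hΨ : G * Θ * G.adjugate = Ψ at h1
  have h2 := congrArg (Matrix.map · derivative) h1
  have h3 := congrArg (Ψ * ·) g
  have h4 := congrArg (· * Θ) g
  have h5 := congrArg (· * B₁) h1
  have h6 := congrArg (P * ·) h1
  refine fld_cancel hG ?_
  rw [← h0', ← h0']
  congr 1
  rw [Matrix.smul_mul, h0]
  simp only [map_deriv_mul, map_deriv_smul, Matrix.mul_smul, Matrix.smul_mul, Matrix.mul_add,
    Matrix.mul_sub, Matrix.add_mul, Matrix.sub_mul, Matrix.mul_assoc] at h2 h3 h4 h5 h6 ⊢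
  ext1 a b
  have k1 := congrFun (congrFun h1 a) b
  have k2 := congrFun (congrFun h2 a) b
  have k3 := congrFun (congrFun h3 a) b
  have k4 := congrFun (congrFun h4 a) b
  have k5 := congrFun (congrFun h5 a) b
  have k6 := congrFun (congrFun h6 a) b
  simp only [Matrix.smul_apply, Matrix.add_apply, Matrix.sub_apply,
    smul_eq_mul] at k1 k2 k3 k4 k5 k6 ⊢
  linear_combination (-(Δ * ρ * D * G.det)) * k2 + G.det * k3 - G.det ^ 2 * k4 -
    (G.det * Δ * ρ) * k5 + (ρ * D * G.det) * k6 +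
    (Δ * derivative ρ * D * G.det + Δ * ρ * D * derivative G.det) * k1

/-- The subsystem on the curve that belongs to a subsystem `W'` of the endomorphisms of the direct
image that contains the function field and commutes with it. -/
theorem Con.exists_sub (h : Con S x y δ B) {q : ℂ[X][Y]} {δ₀ : ℂ[X]} (hp : Prep S d q δ₀)
    (hd : d ≠ 0) (hδ : δ₀ ≠ 0) {t : Fin n → ℂ}
    {A : Fin n → Matrix (Fin (r * d)) (Fin (r * d)) ℂ} {ρ : ℂ[X]} {G : PM (r * d)}
    (g : Gau (δ₀ * S.D) (pB S d q δ₀) (dl t) (pm t A) ρ G) (hρ : ρ ≠ 0) (hG : G.det ≠ 0)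
    {W₀ W' : Subalgebra ℂ[X] (PM (r * d))} (h1 : ∀ k : ℕ, G * pM S d ^ k * G.adjugate ∈ W₀)
    (h2 : ∀ (c : ℂ[X]) Φ, c ≠ 0 → c • Φ ∈ W₀ → Φ ∈ W₀) (hW : SubEnd t A W') (h3 : W₀ ≤ W')
    (h4 : ∀ Φ ∈ W₀, ∀ Ψ ∈ W', Φ * Ψ = Ψ * Φ) (h5 : ∃ Ψ ∈ W', Ψ ∉ W₀) :
    ∃ W : Subalgebra F (Matrix (Fin r) (Fin r) F), W ≠ ⊥ ∧
      (∀ Φ ∈ W, Φ.map δ - (B * Φ - Φ * B) ∈ W) ∧ ∀ Φ ∈ W, ∃ (c : ℂ[X]) (Θ : PM (r * d)), c ≠ 0 ∧
        G * Θ * G.adjugate ∈ W' ∧
        Om r d y * Θ.map (aeval x) = aeval x c • (Φ * Om r d y) := by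
  have h0 : ∀ U : PM (r * d), U * G.adjugate * G = G.det • U := fun U => by
    rw [Matrix.mul_assoc, adjugate_mul, Matrix.mul_smul, Matrix.mul_one]
  have h0' : ∀ U : PM (r * d), G * (G.adjugate * U) = G.det • U := fun U => by
    rw [← Matrix.mul_assoc, mul_adjugate, Matrix.smul_mul, Matrix.one_mul]
  have hs : ∀ (c : ℂ[X]) (U : PM (r * d)),
      G * (c • U) * G.adjugate = c • (G * U * G.adjugate) := fun c U => by
    rw [Matrix.mul_smul, Matrix.smul_mul]
  have ha : ∀ a : ℂ[X][Y], G * aeval (pM S d) a * G.adjugate ∈ W₀ := fun a => by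
    induction a using Polynomial.induction_on' with
    | add p q hp hq =>
      rw [map_add, Matrix.mul_add, Matrix.add_mul]
      exact W₀.add_mem hp hq
    | monomial k c =>
      rw [aeval_monomial, ← Algebra.smul_def, hs]
      exact W₀.smul_mem (h1 k) c
  have hu : ∀ u : F, ∃ (c : ℂ[X]) (a : ℂ[X][Y]), c ≠ 0 ∧
      Om r d y * (aeval (pM S d) a).map (aeval x) =
        aeval x c • (algebraMap F (Matrix (Fin r) (Fin r) F) u * Om r d y) := fun u => by
    obtain ⟨c, a, hc, e⟩ := h.m.den u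
    refine ⟨c, a, hc.ne_zero, ?_⟩
    rw [h.omM hp, ← e, Algebra.algebraMap_eq_smul_one, Matrix.smul_mul, Matrix.one_mul, mul_smul]
  let W : Subalgebra F (Matrix (Fin r) (Fin r) F) :=
    { carrier := {Φ | ∃ (c : ℂ[X]) (Θ : PM (r * d)), c ≠ 0 ∧ G * Θ * G.adjugate ∈ W' ∧
        Om r d y * Θ.map (aeval x) = aeval x c • (Φ * Om r d y)}
      mul_mem' := by
        rintro Φ Φ' ⟨c, Θ, hc, hm, e⟩ ⟨c', Θ', hc', hm', e'⟩
        refine ⟨c * c', Θ * Θ', mul_ne_zero hc hc', hW.2 _ _ hG ?_, ?_⟩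
        · convert W'.mul_mem hm hm' using 1
          rw [← Matrix.mul_assoc, ← Matrix.mul_assoc, ← Matrix.mul_assoc, h0, Matrix.smul_mul,
            Matrix.smul_mul]
        · rw [fld_mul, ← Matrix.mul_assoc, e, Matrix.smul_mul, Matrix.mul_assoc, e',
            Matrix.mul_smul, map_mul, mul_smul, Matrix.mul_assoc]
      add_mem' := by
        rintro Φ Φ' ⟨c, Θ, hc, hm, e⟩ ⟨c', Θ', hc', hm', e'⟩
        refine ⟨c * c', c' • Θ + c • Θ', mul_ne_zero hc hc', ?_, ?_⟩
        · rw [Matrix.mul_add, Matrix.add_mul, hs, hs]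
          exact W'.add_mem (W'.smul_mem hm _) (W'.smul_mem hm' _)
        · rw [fld_add, fld_smul, fld_smul, Matrix.mul_add, Matrix.mul_smul, Matrix.mul_smul, e, e',
            Matrix.add_mul, smul_add, map_mul, smul_smul, smul_smul, mul_comm (aeval x c')]
      algebraMap_mem' := fun u => by
        obtain ⟨c, a, hc, e⟩ := hu u
        exact ⟨c, _, hc, h3 (ha a), e⟩ }
  refine ⟨W, fun hb => ?_, ?_, fun Φ hΦ => hΦ⟩
  · obtain ⟨Ψ, hΨ, hn⟩ := h5
    have e1 : G * (G.adjugate * Ψ * G) * G.adjugate = (G.det * G.det) • Ψ := by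
      rw [Matrix.mul_assoc _ Ψ, h0', Matrix.smul_mul, Matrix.mul_assoc, mul_adjugate,
        Matrix.mul_smul, Matrix.mul_one, mul_smul]
    have e2 : pM S d * (G.adjugate * Ψ * G) = G.adjugate * Ψ * G * pM S d := by
      have e3 := congrArg (fun U => G.adjugate * U * G) (h4 _ (h1 1) Ψ hΨ)
      simp only [pow_one, ← Matrix.mul_assoc, adjugate_mul, h0, Matrix.smul_mul,
        Matrix.one_mul] at e3
      refine fld_cancel hG ?_
      simpa only [← Matrix.mul_assoc] using e3
    obtain ⟨Φ, e⟩ := h.desc hp hd e2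
    have hΦ : Φ ∈ W := ⟨1, _, one_ne_zero, e1 ▸ W'.smul_mem hΨ _, by rw [map_one, one_smul, e]⟩
    obtain ⟨u, rfl⟩ := Algebra.mem_bot.1 (hb ▸ hΦ)
    obtain ⟨c, a, hc, e4⟩ := hu u
    have e5 := ha a
    rw [← e, ← Matrix.mul_smul, ← fld_smul] at e4
    rw [h.inj hp e4, hs, e1, smul_smul] at e5
    exact hn (h2 _ _ (mul_ne_zero hc (mul_ne_zero hG hG)) e5)
  · rintro Φ ⟨c, Θ, hc, hm, e⟩
    have hD := mul_ne_zero hδ h.D
    have e1 := h.omB hp
    generalize δ₀ * S.D = D at g hD e1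
    generalize pB S d q δ₀ = B₁ at g e1
    refine ⟨D * c * c, c • (D • Θ.map derivative - (B₁ * Θ - Θ * B₁)) - (D * derivative c) • Θ,
      mul_ne_zero (mul_ne_zero hD hc) hc, ?_, ?_⟩
    · rw [Matrix.mul_sub, Matrix.sub_mul, hs, hs]
      refine W'.sub_mem (W'.smul_mem (hW.2 _ _ (mul_ne_zero (mul_ne_zero (dl_ne t) hρ) hG) ?_) _)
        (W'.smul_mem hm _)
      rw [fld_gau g hG]
      exact W'.sub_mem (W'.smul_mem (hW.1 _ hm) _) (W'.smul_mem hm _)
    have e2 : (Θ.map (aeval x)).map δ = (Θ.map derivative).map (aeval x) :=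
      Matrix.ext fun a b => h.der1 _
    have e3 : (aeval x c • (Φ * Om r d y)).map δ =
        aeval x c • (Φ * Om r d y).map δ + aeval x (derivative c) • (Φ * Om r d y) := by
      ext a b
      simp [h.der1, mul_comm, add_comm]
    have e4 := congrArg (Matrix.map · δ) e
    have e5 := congrArg (· * Θ.map (aeval x)) e1
    have e6 := congrArg (· * B₁.map (aeval x)) e
    have e7 := congrArg (Φ * ·) e1
    have e8 := congrArg (B * ·) e
    simp only [e3, fld_der, e2] at e4
    simp only [fld_sub, fld_smul, fld_mul, map_mul, Matrix.mul_smul, Matrix.smul_mul,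
      Matrix.mul_sub, Matrix.sub_mul, Matrix.mul_assoc] at e4 e5 e6 e7 e8 ⊢
    ext1 a b
    have k := congrFun (congrFun e a) b
    have k4 := congrFun (congrFun e4 a) b
    have k5 := congrFun (congrFun e5 a) b
    have k6 := congrFun (congrFun e6 a) b
    have k7 := congrFun (congrFun e7 a) b
    have k8 := congrFun (congrFun e8 a) b
    simp only [Matrix.smul_apply, Matrix.add_apply, Matrix.sub_apply,
      smul_eq_mul] at k k4 k5 k6 k7 k8 ⊢
    linear_combination (aeval x c * aeval x D) * k4 - aeval x c * k5 + aeval x c * k6 +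
      (aeval x c * aeval x c) * k7 - (aeval x c * aeval x D) * k8 -
      (aeval x D * aeval x (derivative c)) * k

end Pool.Agent.GR.CP
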