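import Pool.Agent.Lib.MP_aa40d3_nt.CP.Defs
import Pool.Agent.Lib.MP_aa40d3_nt.FB.Cyc

/-! A Fuchsian system with a cyclic coordinate that keeps given frames invertible. -/

open Polynomial Matrix
open scoped Polynomial.Bivariate

namespace Pool.Agent.GR.CP

open CV FB

variable {N n : ℕ}

theorem ui_of_det {t : ℂ} {U : LM N} (h : Det t 1 U) : UI U := by
  refine ⟨h.1, fun h0 => ?_⟩
  obtain ⟨c, hc, h1⟩ := Matrix.exists_vecMul_eq_zero_iff.2 h0
  refine hc (funext fun i => ?_)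
  have h2 := h.2 (fun i => C (c i)) (fun j => (res_ov _ h.1 c j).succ (by
    rw [res_coeff]
    exact congrFun h1 j)) i
  rwa [eval_C] at h2

theorem UI.mul {t : ℂ} {U : LM N} {G : PM N} (h : UI U) (hG : (G.map (eval t)).det ≠ 0) :
    UI (G.map (ev (xt t 1)) * U) := by
  have h1 : ∀ i j, Ov 0 (G.map (ev (xt t 1)) i j) := fun i j => ov_ev t 1 _
  refine ⟨fun i j => by simpa using ov_mat_mul h1 h.1 i j, ?_⟩
  have h2 := coeff_mat_mul h1 h.1
  rw [add_zero] at h2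
  rw [h2, det_mul]
  refine mul_ne_zero ?_ h.2
  convert hG using 2
  exact Matrix.ext fun a b => ev_coeff_zero le_rfl _

theorem exists_fuchsP {D : ℂ[X]} {B : PM N} {t : Fin n → ℂ} {U : ℂ → LM N}
    (ht : Function.Injective t) (hD : D ≠ 0) (h : Fr N D B t ∅ U) {V : LM N}
    (hV : MSol D B sL⁻¹ V 0) : ∃ (ρ : ℂ[X]) (G : PM N) (A : Fin n → Matrix (Fin N) (Fin N) ℂ),
      ρ ≠ 0 ∧ G.det ≠ 0 ∧ Gau D B (dl t) (pm t A) ρ G ∧ CV.NF (ga ρ G sL⁻¹ V) ∧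
      ∀ i, UI (ga ρ G (xt (t i) 1) (U (t i))) := by
  classical
  let Z : Finset ℂ := D.roots.toFinset ∪ Finset.univ.image t
  have hZ : ∀ i, t i ∈ Z := fun i => Finset.mem_union_right _ (Finset.mem_image_of_mem _ (by simp))
  have hinf : ∀ {p : ℂ[X]}, p ≠ 0 → ev sL⁻¹ p ≠ 0 := fun hp => (map_ne_zero_iff _ ev_inv_inj).2 hp
  obtain ⟨ρ, hρ, hρZ, hN⟩ := exists_scale (Z := Z) (ee_pos (t := t) (M := ∅)) (h.det ht)
  have hs := gau_scale D ρ B
  have h1 : (1 : PM N).det ≠ 0 := by simp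
  have hD' := mul_ne_zero hρ hD
  have hF := h.gau ht hs hD hρ h1
  have hV' := hs.msol (hinf hD) (hinf hρ) (hinf h1) hV
  obtain ⟨G, hG, hNF⟩ := popov hV'.1 (lat_full (Z := Z) (ee_pos (t := t) (M := ∅))
    (U := fun z => ga ρ 1 (xt z (ee t ∅ z)) (U z)))
  obtain ⟨Q, hQ⟩ := hG.gau (D := ρ * D) (D' := dl t) fun l hl => lat_div ee_pos hN hD'
    (fun z hz => by
      rw [eval_mul, mul_eq_zero] at hz
      exact hz.elim (hρZ z) fun hz => Finset.mem_union_left _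
        (Multiset.mem_toFinset.2 ((mem_roots hD).2 hz)))
    fun z hz => hF.stab ht (hl z hz)
  have hV'' := hQ.msol (hinf hD') (hinf one_ne_zero) (hinf hG.1) hV'
  rw [ga_one] at hV''
  obtain ⟨A, rfl, -⟩ := ext_inf ht hV'' hNF
  have hc := hs.comp hQ hD'
  rw [mul_one, mul_one] at hc
  refine ⟨ρ, G, A, hρ, hG.1, hc, ?_, fun i => ?_⟩
  · rwa [← ga_one, ga_comp, mul_one, mul_one] at hNF
  · have h2 := lat_det ee_pos hN hG (hZ i)
    simp only [ee_not ht (Finset.notMem_empty i)] at h2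
    rw [← ga_one, ga_comp, mul_one, mul_one] at h2
    exact ui_of_det h2

theorem exists_cycP [NeZero N] {t : Fin n → ℂ} (ht : Function.Injective t)
    {A : Fin n → Matrix (Fin N) (Fin N) ℂ} {U : LM N} (hU : MSol (dl t) (pm t A) sL⁻¹ U 0)
    (hN : CV.NF U) : ∃ (k : ℕ) (q : Fin k → ℂ) (A' : Fin (n + k) → Matrix (Fin N) (Fin N) ℂ)
      (G : PM N), Nat' t q ∧ G.det ≠ 0 ∧
      Gau (dl t) (pm t A) (dl (Fin.append t q)) (pm (Fin.append t q) A') 1 G ∧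
      GC.Cyc (Fin.append t q) A' ∧ ∀ i, (G.map (eval (t i))).det ≠ 0 := by
  have hinf : ∀ {p : ℂ[X]}, p ≠ 0 → ev sL⁻¹ p ≠ 0 := fun hp => (map_ne_zero_iff _ ev_inv_inj).2 hp
  obtain ⟨w, hw⟩ := exists_cycV (dl_ne t) (pm t A)
  obtain ⟨v, m, hv, h1, h2, h3⟩ := hw.min
  obtain ⟨k, q, lam, hk, hq, h4, h5⟩ := exists_pts' ht h3
  obtain ⟨G, rfl, h6, h7, h8⟩ := exists_modG hk h5 h4 h1 h2
  have hG := mod_bas h5 h6 h7 h8
  obtain ⟨Q, hQ⟩ := mod_gau (D := dl t) (B := pm t A) hG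
  have hU' := hQ.msol (hinf (dl_ne t)) (hinf one_ne_zero) (hinf hG.1) hU
  rw [ga_one, ← dl_append] at hU'
  obtain ⟨A', rfl, -⟩ := ext_inf hq.1 hU' (hN.mul h7 h8)
  rw [← dl_append] at hQ
  refine ⟨k, q, A', G, hq, hG.1, hQ, cyc_of_cycV (CycV.gau hQ (dl_ne _) hG.1 ?_),
    fun i => mod_det hG ?_⟩
  · rwa [single_one_vecMul]
  · rintro ⟨j, hj⟩
    have : Fin.natAdd n j = Fin.castAdd k i := hq.1 (by simpa using hj)
    have := congrArg Fin.val this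
    simp at this
    omega

theorem nat_re {k : ℕ} {t : Fin n → ℂ} {q : Fin k → ℂ} (h : Nat' t q)
    (h1 : Function.Injective fun i => (t i).re) (h2 : ∀ i, (t i).re < 0) :
    Function.Injective fun i => (Fin.append t q i).re := by
  intro i j
  choose m hm using h.2
  refine Fin.addCases (fun i => ?_) (fun i => ?_) i <;>
    refine Fin.addCases (fun j => ?_) (fun j => ?_) j <;>
    simp only [Fin.append_left, Fin.append_right, hm, Complex.natCast_re] <;> intro e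
  · rw [h1 e]
  · exact absurd (e ▸ h2 i) (not_lt.2 (Nat.cast_nonneg _))
  · exact absurd (e ▸ h2 j) (not_lt.2 (Nat.cast_nonneg _))
  · refine h.1 ?_
    rw [Fin.append_right, Fin.append_right, hm, hm, Nat.cast_injective e]

/-- All steps together. -/
theorem exists_fr [NeZero N] {D : ℂ[X]} {B : PM N} {t : Fin n → ℂ} {U : ℂ → LM N}
    (ht : Function.Injective t) (hD : D ≠ 0) (h : Fr N D B t ∅ U) {V : LM N}
    (hV : MSol D B sL⁻¹ V 0) : ∃ (k : ℕ) (q : Fin k → ℂ) (ρ : ℂ[X]) (G : PM N)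
      (A : Fin (n + k) → Matrix (Fin N) (Fin N) ℂ), Nat' t q ∧ ρ ≠ 0 ∧ G.det ≠ 0 ∧
      Gau D B (dl (Fin.append t q)) (pm (Fin.append t q) A) ρ G ∧ GC.Cyc (Fin.append t q) A ∧
      ∀ i, UI (ga ρ G (xt (t i) 1) (U (t i))) := by
  have hinf : ∀ {p : ℂ[X]}, p ≠ 0 → ev sL⁻¹ p ≠ 0 := fun hp => (map_ne_zero_iff _ ev_inv_inj).2 hp
  obtain ⟨ρ, G₁, A₁, hρ, hG₁, g₁, hNF, hI⟩ := exists_fuchsP ht hD h hV
  obtain ⟨k, z, A, G₂, hz, hG₂, g₂, hcyc, hold⟩ :=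
    exists_cycP ht (g₁.msol (hinf hD) (hinf hρ) (hinf hG₁) hV) hNF
  have g := g₁.comp g₂ (dl_ne t)
  rw [mul_one] at g
  refine ⟨k, z, ρ, G₂ * G₁, A, hz, hρ, ?_, g, hcyc, fun i => ?_⟩
  · rw [det_mul]
    exact mul_ne_zero hG₂ hG₁
  · have h1 := (hI i).mul (hold i)
    rwa [← ga_one, ga_comp, mul_one] at h1

end Pool.Agent.GR.CP
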