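import Pool.Agent.Lib.MP_aa40d3_nt.NP.AbsQ

/-! Groups that act through a finite quotient on a given set of matrices. -/

open Matrix

namespace Pool.Agent.GR.CP

open NP

variable {r : ℕ} {G : Type} [Group G]

/-- A subgroup of finite index leaves invariant a linear map that fixes the members of `S`. -/
def FinOn (σ : G →* Mt r) (S : Set (Mt r)) : Prop :=
  ∃ (N : Subgroup G) (P : Mt r →ₗ[ℂ] Mt r), N.FiniteIndex ∧ (∀ y ∈ S, P y = y) ∧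
    ∀ γ ∈ N, ∀ y, P (σ γ⁻¹ * y * σ γ) = P y

theorem ker_fi [Group.FG G] (χ : G →* ℂˣ) (h : ∀ x, IsOfFinOrder (χ x)) : χ.ker.FiniteIndex := by
  have h1 : Finite χ.range := by
    refine CommGroup.finite_of_fg_isMulTorsion _ ?_
    rintro ⟨_, x, rfl⟩
    exact χ.range.subtype_injective.isOfFinOrder_iff.1 (h x)
  exact Subgroup.finiteIndex_ker χ

theorem exists_char (σ : G →* Mt r) (H : Subgroup G) {e : Mt r} (he : e ≠ 0)
    (h : ∀ γ ∈ H, ∃ c : ℂ, σ γ * e = c • e) :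
    ∃ χ : H →* ℂˣ, ∀ γ : H, σ γ * e = (χ γ : ℂ) • e := by
  choose c hc using h
  refine ⟨MonoidHom.mk' (fun γ => Units.mk0 (c γ γ.2) (tor_eig he (hc γ γ.2)).1) fun a b => ?_,
    fun γ => hc γ γ.2⟩
  refine Units.ext (smul_left_injective ℂ he ?_)
  change c _ (a * b).2 • e = (c a a.2 * c b b.2) • e
  rw [← hc, Subgroup.coe_mul, map_mul, Matrix.mul_assoc, hc b b.2, Matrix.mul_smul, hc a a.2,
    smul_smul, mul_comm]

theorem finOn_of [Group.FG G] (σ : G →* Mt r) (S : Set (Mt r)) (H : Subgroup G) [H.FiniteIndex]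
    {d : ℕ} (e : Fin d → Mt r) (h1 : ∑ i, e i = 1) (χ : Fin d → H →* ℂˣ)
    (hχ : ∀ i (γ : H), σ γ * e i = (χ i γ : ℂ) • e i) (hc : ∀ i (γ : H), σ γ * e i = e i * σ γ)
    (h : ∀ i j, (∃ y ∈ S, e i * y * e j ≠ 0) → ∀ γ, IsOfFinOrder (χ i γ / χ j γ)) :
    FinOn σ S := by
  classical
  have hfg : Group.FG H := Subgroup.fg_of_index_ne_zero H
  let T : Finset (Fin d × Fin d) := Finset.univ.filter fun p => ∃ y ∈ S, e p.1 * y * e p.2 ≠ 0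
  let K : Subgroup H := ⨅ p : T, (χ p.1.1 / χ p.1.2).ker
  have hK : K.FiniteIndex := Subgroup.finiteIndex_iInf fun p =>
    ker_fi _ (h _ _ (Finset.mem_filter.1 p.2).2)
  refine ⟨K.map H.subtype, ∑ p ∈ T, (LinearMap.mulRight ℂ (e p.2)).comp (LinearMap.mulLeft ℂ (e p.1)),
    ⟨?_⟩, fun y hy => ?_, ?_⟩
  · rw [Subgroup.index_map_subtype]
    exact mul_ne_zero hK.1 Subgroup.FiniteIndex.index_ne_zero
  · have h2 : y = ∑ p : Fin d × Fin d, e p.1 * y * e p.2 := by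
      rw [Fintype.sum_prod_type]
      simp only [← Finset.mul_sum, ← Finset.sum_mul, h1, Matrix.mul_one, Matrix.one_mul]
    rw [LinearMap.sum_apply]
    conv_rhs => rw [h2]
    refine Finset.sum_subset (Finset.subset_univ _) fun p _ hp => ?_
    by_contra h3
    exact hp (Finset.mem_filter.2 ⟨Finset.mem_univ _, y, hy, h3⟩)
  · rintro _ ⟨γ, hγ, rfl⟩ y
    rw [LinearMap.sum_apply, LinearMap.sum_apply]
    refine Finset.sum_congr rfl fun p hp => ?_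
    have h2 : χ p.1 γ / χ p.2 γ = 1 := Subgroup.mem_iInf.1 hγ ⟨p, hp⟩
    have h3 : (χ p.1 γ⁻¹ : ℂ) * (χ p.2 γ : ℂ) = 1 := by
      rw [← div_eq_one.1 h2, ← Units.val_mul, ← map_mul, inv_mul_cancel, map_one, Units.val_one]
    change e p.1 * (σ (γ⁻¹ : H) * y * σ γ) * e p.2 = e p.1 * y * e p.2
    rw [← Matrix.mul_assoc, ← Matrix.mul_assoc, ← hc, hχ, Matrix.mul_assoc, hχ, Matrix.smul_mul,
      Matrix.smul_mul, Matrix.mul_smul, smul_smul, h3, one_smul]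

theorem caseAS (r : ℕ) [NeZero r] : ∃ k : ℕ, ∀ (n : ℕ) (Mov : Finset (Fin n)) (L0 : List (Fin n))
    (G : Type) [Group G] (g : Fin n → G) (σ : G →* Mt r) (S : Set (Mt r)), L0.Nodup →
    (∀ a, a ∈ L0) → Subgroup.closure (Set.range g) = ⊤ → IrrR σ →
    (∀ x, IsLoop Mov L0 g x → QU (σ x)) →
    (∀ Z : Subalgebra ℂ (Mt r), InvR σ Z → (∃ x ∈ Z, ∃ y ∈ S, x * y ≠ y * x) →
      ∃ M ⊆ Mov, k ≤ M.card ∧ ∀ a ∈ M, ∃ x ∈ Z, σ (g a) * x ≠ x * σ (g a)) →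
    ∀ (H : Subgroup G) (B : Subalgebra ℂ (Mt r)), H.Normal → H.FiniteIndex → InvR σ B → CommA B →
    (∀ γ ∈ H, σ γ ∈ B) → FinOn σ S := by
  classical
  refine ⟨Kf ((r * r * (r * r) * 2) ^ (r * r).factorial + 1)
    ((r * r * (r * r) * 2) ^ (r * r).factorial + 1),
    fun n Mov L0 G _ g σ S h0 hall hg hI hl hZ H B hHn hHf hB hc hHB => ?_⟩
  have : Group.FG G := ⟨⟨Finset.univ.image g, by
    rw [Finset.coe_image, Finset.coe_univ, Set.image_univ, hg]⟩⟩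
  obtain ⟨d, s, b, hb⟩ := exists_blocks hI B hB
  have hs : ∀ i, s i = 1 := fun i => (b i).eq_one fun y z => hc _ ((b i).mem y) _ ((b i).mem z)
  choose χ hχ using fun i => exists_char σ H (b i).ne_zero fun γ hγ =>
    (b i).scalar (hs i) (hHB _ hγ)
  by_cases hfin : ∀ i j, (∃ y ∈ S, (b i).φ 1 * y * (b j).φ 1 ≠ 0) →
      ∀ γ, IsOfFinOrder (χ i γ / χ j γ)
  · exact finOn_of σ S H _ hb χ hχ (fun i γ => hc _ (hHB _ γ.2) _ ((b i).mem 1)) hfin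
  exfalso
  push Not at hfin
  obtain ⟨i, j, ⟨y₀, hy₀, hij⟩, ⟨h₀, hh₀⟩, hni⟩ := hfin
  have hc₀ : σ h₀ * (b i).φ 1 = _ := hχ i ⟨h₀, hh₀⟩
  have hc₁ : σ h₀ * (b j).φ 1 = _ := hχ j ⟨h₀, hh₀⟩
  have hsc : ∀ γ ∈ H, ∃ c : ℂ, σ γ * (b i).φ 1 = c • (b i).φ 1 := fun γ hγ =>
    (b i).scalar (hs i) (hHB _ hγ)
  have hsj : ∀ x ∈ B, ∃ c : ℂ, x * (b j).φ 1 = c • (b j).φ 1 := fun x hx => (b j).scalar (hs j) hx
  have he0 := (b i).ne_zero
  have he1 := (b i).idem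
  have heo := (b i).orth hB
  have heB := (b i).mem 1
  have hf0 := (b j).ne_zero
  have hfB := (b j).mem 1
  generalize (b i).φ 1 = e at hc₀ hsc he0 he1 heo heB hij
  generalize (b j).φ 1 = f at hc₁ hsj hf0 hfB hij
  generalize χ i ⟨h₀, hh₀⟩ = c₀ at hc₀ hni
  generalize χ j ⟨h₀, hh₀⟩ = c₁ at hc₁ hni
  obtain ⟨v, hv⟩ := exists_addchar hni
  obtain ⟨δ, m, hm, hδ, hδq⟩ := exists_detcharQ σ he0
  obtain ⟨hfi, hidx⟩ := orth_index he0 he1 heo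
  have hHG : ∀ γ ∈ H, γ ∈ stabR σ e := fun γ hγ => hc _ (hHB γ hγ) _ heB
  obtain ⟨hpow, φ, hφ, hφe⟩ := RepC.ind_pow (stabR σ e) hidx (repC_add (v.comp δ))
  obtain ⟨ψ, hψ⟩ : ∃ ψ : G → ℂ, ∀ x (h : x ∈ stabR σ e), ψ x = (v (δ ⟨x, h⟩)).toAdd :=
    ⟨fun x => if h : x ∈ stabR σ e then (v (δ ⟨x, h⟩)).toAdd else 0, fun x h => dif_pos h⟩
  have hψm : ∀ x ∈ stabR σ e, ∀ y ∈ stabR σ e, ψ (x * y) = ψ x + ψ y := fun x hx y hy => by
    rw [hψ x hx, hψ y hy, hψ _ (mul_mem hx hy), ← toAdd_mul, ← map_mul, ← map_mul]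
    rfl
  have hψc : ∀ x ∈ H, ∀ c : ℂˣ, σ x * e = (c : ℂ) • e → ψ x = m * (v c).toAdd :=
    fun x hx c h => by
      rw [hψ x (hHG x hx), hδ ⟨x, hHG x hx⟩ c h, map_pow, toAdd_pow, nsmul_eq_mul]
  have hCn := caseaC_normal H hHn ψ
  set C := caseaC H hHn ψ with hC
  let Z : Subalgebra ℂ (Mt r) := B ⊓ Subalgebra.centralizer ℂ (σ '' (C : Set G))
  have hZm : ∀ x, x ∈ Z ↔ x ∈ B ∧ ∀ γ ∈ C, σ γ * x = x * σ γ := fun x => by
    simp only [Z, Algebra.mem_inf, Subalgebra.mem_centralizer_iff, Set.forall_mem_image,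
      SetLike.mem_coe]
  have hZi : InvR σ Z := fun γ x hx => by
    obtain ⟨k1, k2⟩ := (hZm x).1 hx
    refine (hZm _).2 ⟨hB γ x k1, fun c hcC => ?_⟩
    have k3 := k2 _ (hCn.conj_mem' c hcC γ)
    calc σ c * (σ γ * x * σ γ⁻¹) = σ γ * (σ (γ⁻¹ * c * γ) * x) * σ γ⁻¹ := by
          rw [← Matrix.mul_assoc, ← Matrix.mul_assoc, ← Matrix.mul_assoc, ← map_mul, ← map_mul]
          congr 3
          group
      _ = σ γ * x * σ γ⁻¹ * σ c := by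
          rw [k3, Matrix.mul_assoc, Matrix.mul_assoc, Matrix.mul_assoc, Matrix.mul_assoc, ← map_mul,
            ← map_mul]
          congr 3
          group
  have hZn : ∃ x ∈ Z, ∃ y ∈ S, x * y ≠ y * x := by
    obtain ⟨z, k1, k2, k3⟩ := orbit_sum (σ := σ) C heo he1 fun γ _ h => h
    have hSB : ∀ f ∈ {x : Mt r | ∃ γ ∈ C, x = σ γ * e * σ γ⁻¹}, f ∈ B := by
      rintro _ ⟨γ, -, rfl⟩
      exact hB γ e heB
    have hzB : z ∈ B := (Submodule.span_le (p := Subalgebra.toSubmodule B)).2 hSB k1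
    refine ⟨z, (hZm z).2 ⟨hzB, k2⟩, y₀, hy₀, fun hzy => ?_⟩
    have hzf : z * f ≠ 0 := fun h => hij (by
      rw [← k3, Matrix.mul_assoc e, hzy, Matrix.mul_assoc, Matrix.mul_assoc, h, Matrix.mul_zero,
        Matrix.mul_zero])
    obtain ⟨_, ⟨γ, hγ, rfl⟩, k4⟩ : ∃ x ∈ {x : Mt r | ∃ γ ∈ C, x = σ γ * e * σ γ⁻¹}, x * f ≠ 0 := by
      by_contra hn
      push Not at hn
      refine hzf ?_
      clear k2 k3 hzB hzy hzf
      induction k1 using Submodule.span_induction with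
      | mem y hy => exact hn y hy
      | zero => exact Matrix.zero_mul f
      | add a b _ _ ha hb => rw [Matrix.add_mul, ha, hb, add_zero]
      | smul t a _ ha => rw [Matrix.smul_mul, ha, smul_zero]
    have k5 := hHn.conj_mem' h₀ hh₀ γ
    obtain ⟨c, k6⟩ := hsc _ k5
    have k7 : σ h₀ * (σ γ * e * σ γ⁻¹) = c • (σ γ * e * σ γ⁻¹) := by
      rw [← Matrix.smul_mul, ← Matrix.mul_smul, ← k6, ← Matrix.mul_assoc, ← Matrix.mul_assoc,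
        ← Matrix.mul_assoc, ← map_mul, ← map_mul]
      congr 3
      group
    have k9 : c = c₁ := by
      refine smul_left_injective ℂ k4 ?_
      change c • _ = (c₁ : ℂ) • _
      rw [← Matrix.smul_mul, ← k7, hc _ (hHB _ hh₀) _ (hB γ e heB), Matrix.mul_assoc _ (σ h₀), hc₁,
        Matrix.mul_smul]
    have k8 := hγ 1 h₀ hh₀
    rw [inv_one, one_mul, mul_one, one_mul, mul_one, hψc _ k5 c₁ (k9 ▸ k6),
      hψc _ hh₀ c₀ hc₀] at k8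
    have k10 := mul_left_cancel₀ (Nat.cast_ne_zero.2 hm.ne') k8
    exact hv (by rw [map_div, Multiplicative.toAdd.injective k10, div_self'])
  obtain ⟨M, hM1, hM2, hM3⟩ := hZ Z hZi hZn
  obtain ⟨N, hN, ⟨x, hx, y, hy, hne⟩, hN0⟩ := escape (Mov := M) h0 hall hg
    (fun x => ∃ y ∈ Z, σ x * y ≠ y * σ x) (caseb_conj hZi) hM3 hM2 hφ
    (fun x hx => by
      rw [hφe x ⟨_, hpow x⟩ rfl]
      refine casea_tors (v.isOfFinOrder (hδq _ ?_))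
      rw [Subgroup.coe_mk, map_pow]
      exact (hl x (hx.mono hM1)).pow _)
  refine hne (((hZm y).1 hy).2 x fun d h hh => ?_)
  have k1 := hHn.conj_mem' h hh d
  have k2 := hN.conj_mem' x hx d
  have k3 : (d⁻¹ * x * d)⁻¹ * (d⁻¹ * h * d) * (d⁻¹ * x * d) * (d⁻¹ * h * d)⁻¹ ∈ H :=
    mul_mem (hHn.conj_mem' _ k1 _) (inv_mem k1)
  have k4 : (d⁻¹ * x * d)⁻¹ * (d⁻¹ * h * d) * (d⁻¹ * x * d) * (d⁻¹ * h * d)⁻¹ ∈ N := by
    rw [mul_assoc, mul_assoc, ← mul_assoc (d⁻¹ * h * d)]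
    exact mul_mem (inv_mem k2) (hN.conj_mem _ k2 _)
  have k5 : d⁻¹ * (x⁻¹ * h * x) * d = (d⁻¹ * x * d)⁻¹ * (d⁻¹ * h * d) * (d⁻¹ * x * d) *
      (d⁻¹ * h * d)⁻¹ * (d⁻¹ * h * d) := by group
  rw [k5, hψm _ (hHG _ k3) _ (hHG _ k1), add_eq_right]
  generalize (d⁻¹ * x * d)⁻¹ * (d⁻¹ * h * d) * (d⁻¹ * x * d) * (d⁻¹ * h * d)⁻¹ = κ at k3 k4
  have k6 := hN0 κ k4
  rw [hφe κ (⟨κ, hHG κ k3⟩ ^ (r * r).factorial) rfl, map_pow, toAdd_pow, nsmul_eq_mul] at k6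
  rw [hψ κ (hHG κ k3)]
  exact (mul_eq_zero.1 k6).resolve_left (Nat.cast_ne_zero.2 (Nat.factorial_ne_zero _))

theorem finOn_abs (r : ℕ) [NeZero r] : ∃ k : ℕ, ∀ (n : ℕ) (Mov : Finset (Fin n))
    (L0 : List (Fin n)) (G : Type) [Group G] (g : Fin n → G) (σ : G →* Mt r) (S : Set (Mt r)),
    L0.Nodup → (∀ a, a ∈ L0) → Subgroup.closure (Set.range g) = ⊤ → IrrR σ →
    (∀ x, IsLoop Mov L0 g x → QU (σ x)) →
    (∀ Z : Subalgebra ℂ (Mt r), InvR σ Z → (∃ x ∈ Z, ∃ y, (y ∈ Z ∨ y ∈ S) ∧ x * y ≠ y * x) →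
      ∃ M ⊆ Mov, k ≤ M.card ∧ ∀ a ∈ M, ∃ x ∈ Z, σ (g a) * x ≠ x * σ (g a)) → FinOn σ S := by
  classical
  obtain ⟨k₁, hA⟩ := caseAS r
  obtain ⟨k₂, hB⟩ := caseBQ r
  refine ⟨max k₁ k₂, fun n Mov L0 G _ g σ S h0 hall hg hI hl hZ => ?_⟩
  obtain ⟨H, hH1, hH2, hH3⟩ := exists_coreR σ
  obtain ⟨B, hBm⟩ := spR_alg σ H
  have hBi : InvR σ B := fun γ x hx => (hBm _).2 (spR_inv H γ ((hBm x).1 hx))
  by_cases hc : CommA B
  · refine hA n Mov L0 G g σ S h0 hall hg hI hl (fun Z h3 ⟨x, hx, y, hy, h4⟩ => ?_) H B hH1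
      hH2 hBi hc fun γ hγ => (hBm _).2 (Submodule.subset_span ⟨γ, hγ, rfl⟩)
    obtain ⟨M, k1, k2, k3⟩ := hZ Z h3 ⟨x, hx, y, Or.inr hy, h4⟩
    exact ⟨M, k1, (le_max_left _ _).trans k2, k3⟩
  · exfalso
    obtain ⟨A, a1, a2, a3, a4⟩ := exists_minA B hBi hc
    obtain ⟨s, hs, ⟨b⟩⟩ := exists_big_block hI a2 a3
    obtain ⟨M, k1, k2, k3⟩ := hZ A a2 (by
      by_contra h3
      push Not at h3
      exact a3 fun x hx y hy => h3 x hx y (Or.inl hy))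
    obtain ⟨H', k4, k5⟩ := hB n M L0 G g σ h0 hall hg (fun x hx => hl x (hx.mono k1)) A s b
      hs a2 a4 (fun A' k6 k7 x hx y hy => by
        obtain ⟨H'', k8, k9⟩ := comm_index hI k6 k7
        exact spR_comm (fun γ hγ => k9 γ hγ y hy) (hH3 H'' k8 ((hBm x).1 (a1 hx))))
      ((le_max_right _ _).trans k2) k3
    have h3 := b.eq_one fun y z =>
      spR_comm (fun γ hγ => k5 γ hγ z) (hH3 H' k4 ((hBm _).1 (a1 (b.mem y))))
    omega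

end Pool.Agent.GR.CP
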