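import Pool.Agent.Lib.MP_aa40d3_nt.CP.Defs

/-! Induced representations whose movable generators act on one sheet. -/

open Matrix

namespace Pool.Agent.GR.CP

open NP GC CV

variable {N r d n : ℕ} {G : Type} [Group G] {σ : G →* Mt N}

theorem one_sheet (hr : 1 ≤ r) (b : BR σ d) (hrk : ∀ i, (b.e i).rank = r)
    {Z : Subalgebra ℂ (Mt N)} (hm : ∀ i, b.e i ∈ Z) {x : G} (hd : d ≠ 0)
    (h : One r (d - 1) Z (σ x)) : ∃ o, ∀ i, i ≠ o → x ∈ b.K i := by
  classical
  obtain ⟨v, h1, h2, h3⟩ := h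
  choose c hc using fun i => h3 _ (hm i)
  have hs : ∀ l : Fin (d - 1), ∃ i, ∀ a, v (ix a l) ᵥ* b.e i = v (ix a l) := fun l => by
    have h0 := h1.ne_zero (ix ⟨0, hr⟩ l)
    obtain ⟨i, hi⟩ : ∃ i, c i l ≠ 0 := by
      by_contra! hn
      refine h0 ?_
      rw [← vecMul_one (v _), ← b.sum, vecMul_sum]
      exact Finset.sum_eq_zero fun i _ => by rw [hc, sh_ix, hn, zero_smul]
    have h4 : (v (ix ⟨0, hr⟩ l) ᵥ* b.e i) ᵥ* b.e i = v (ix ⟨0, hr⟩ l) ᵥ* b.e i := by
      rw [vecMul_vecMul, b.idem]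
    rw [hc, smul_vecMul, hc, sh_ix, smul_smul] at h4
    have h5 : c i l = 1 := mul_left_cancel₀ hi
      ((smul_left_injective ℂ h0 h4).trans (mul_one _).symm)
    exact ⟨i, fun a => by rw [hc, sh_ix, h5, one_smul]⟩
  choose s hs using hs
  have hsp : ∀ l, Submodule.span ℂ (Set.range fun a : Fin r => v (ix a l)) =
      LinearMap.range (b.e (s l)).vecMulLinear := fun l => by
    refine Submodule.eq_of_le_of_finrank_eq (Submodule.span_le.2 ?_) ?_
    · rintro _ ⟨a, rfl⟩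
      exact ⟨_, hs l a⟩
    · refine (finrank_span_eq_card (h1.comp (fun a : Fin r => ix a l) fun a a' e => by
        simpa using congrArg co e)).trans ?_
      rw [Fintype.card_fin, ← hrk (s l), ← rank_transpose, Matrix.rank, mulVecLin_transpose]
  have hi : Function.Injective s := fun l l' e => by
    by_contra hne
    have h4 : v (ix ⟨0, hr⟩ l) ∈ Submodule.span ℂ (v '' Set.range fun a : Fin r => ix a l') := by
      rw [← Set.range_comp, Function.comp_def, hsp, ← e]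
      exact ⟨_, hs l _⟩
    refine h1.notMem_span_image ?_ h4
    rintro ⟨a, ha⟩
    exact hne (by simpa using (congrArg sh ha).symm)
  obtain ⟨o, ho⟩ : ∃ o, o ∉ Finset.univ.image s := by
    by_contra! hn
    have h4 := (Finset.card_le_card fun i (_ : i ∈ Finset.univ) => hn i).trans
      Finset.card_image_le
    simp only [Finset.card_univ, Fintype.card_fin] at h4
    omega
  have hall : Finset.univ.image s = Finset.univ.erase o := by
    refine Finset.eq_of_subset_of_card_le (fun i hi => Finset.mem_erase.2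
      ⟨fun e => ho (e ▸ hi), Finset.mem_univ _⟩) ?_
    rw [Finset.card_image_of_injective _ hi, Finset.card_erase_of_mem (Finset.mem_univ _)]
    simp
  refine ⟨o, fun i hio => ?_⟩
  obtain ⟨l, -, rfl⟩ := Finset.mem_image.1
    (hall ▸ Finset.mem_erase.2 ⟨hio, Finset.mem_univ _⟩ : i ∈ Finset.univ.image s)
  have h4 : b.e (s l) * σ x = b.e (s l) := by
    refine Matrix.ext_iff_vecMul.2 fun w => ?_
    have h5 : w ᵥ* b.e (s l) ∈ Submodule.span ℂ (Set.range fun a : Fin r => v (ix a l)) :=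
      hsp l ▸ ⟨w, rfl⟩
    rw [← vecMul_vecMul]
    generalize w ᵥ* b.e (s l) = u at h5
    induction h5 using Submodule.span_induction with
    | mem u hu =>
      obtain ⟨a, rfl⟩ := hu
      exact h2 _
    | zero => exact zero_vecMul _
    | add u u' _ _ k1 k2 => rw [add_vecMul, k1, k2]
    | smul a u _ k1 => rw [smul_vecMul, k1]
  have h0 : b.e (s l) ≠ 0 := fun e => by
    have := hrk (s l)
    rw [e, Matrix.rank_zero] at this
    omega
  have h5 := b.act x ((b.π x).symm (s l))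
  rw [Equiv.apply_symm_apply, h4] at h5
  have h6 : (b.π x).symm (s l) = s l := by
    by_contra hne
    refine h0 ?_
    rw [← b.idem, ← h5, Matrix.mul_assoc, h5, b.orth _ _ hne, Matrix.mul_zero]
  rw [h6] at h5
  exact ⟨(Equiv.symm_apply_eq _).1 h6 |>.symm, h5⟩

theorem k_right (b : BR σ d) {x : G} {i : Fin d} (h : x ∈ b.K i) : b.e i * σ x = b.e i := by
  have h1 := b.act x i
  rw [h.1] at h1
  rw [← h1, h.2]

theorem one_comm (b : BR σ d) {x : G} {o : Fin d} (h : ∀ i, i ≠ o → x ∈ b.K i) (i : Fin d) :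
    σ x * b.e i = b.e i * σ x := by
  by_cases hi : i = o
  · have e : b.e o = 1 - ∑ j ∈ Finset.univ.erase o, b.e j := by
      rw [← b.sum, ← Finset.add_sum_erase _ _ (Finset.mem_univ o), add_sub_cancel_right]
    rw [hi, e, Matrix.mul_sub, Matrix.sub_mul, Finset.mul_sum, Finset.sum_mul, Matrix.mul_one,
      Matrix.one_mul]
    refine congrArg _ (Finset.sum_congr rfl fun j hj => ?_)
    rw [(h j (Finset.ne_of_mem_erase hj)).2, k_right b (h j (Finset.ne_of_mem_erase hj))]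
  · rw [(h i hi).2, k_right b (h i hi)]

theorem one_conj (b : BR σ d) {x : G} {o : Fin d} (h : ∀ i, i ≠ o → x ∈ b.K i) (γ : G) :
    ∀ i, i ≠ b.π γ o → γ * x * γ⁻¹ ∈ b.K i := fun i hi => by
  have h1 := b.bs.conj γ ((b.π γ).symm i) x (h _ fun e => hi (by rw [← e, Equiv.apply_symm_apply]))
  change _ ∈ b.K (b.π γ _) at h1
  rwa [Equiv.apply_symm_apply] at h1

/-- A vector fixed by all conjugates of `x` is zero. -/
theorem fix_zero (b : BR σ d) {Z : Subalgebra ℂ (Mt N)} (hI : IrrZ σ Z)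
    (hs : ∀ y ∈ Z, ∃ c : Fin d → ℂ, y = ∑ i, c i • b.e i) {x : G} {o : Fin d}
    (h : ∀ i, i ≠ o → x ∈ b.K i) (h1 : σ x ≠ 1) {v : Fin N → ℂ}
    (hv : ∀ γ, σ (γ * x * γ⁻¹) *ᵥ v = v) : v = 0 := by
  let U : Submodule ℂ (Fin N → ℂ) :=
    { carrier := {v | ∀ γ, σ (γ * x * γ⁻¹) *ᵥ v = v}
      add_mem' := fun ha hb γ => by rw [mulVec_add, ha, hb]
      zero_mem' := fun γ => mulVec_zero _
      smul_mem' := fun c a ha γ => by rw [mulVec_smul, ha] }
  rcases hI U (fun δ w hw γ => by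
      conv_rhs => rw [← hw (δ⁻¹ * γ)]
      rw [mulVec_mulVec, mulVec_mulVec, ← map_mul, ← map_mul,
        show γ * x * γ⁻¹ * δ = δ * (δ⁻¹ * γ * x * (δ⁻¹ * γ)⁻¹) by group])
    (fun z hz w hw γ => by
      obtain ⟨c, rfl⟩ := hs z hz
      rw [mulVec_mulVec, Finset.mul_sum]
      simp only [Matrix.mul_smul, one_comm b (one_conj b h γ), ← Matrix.smul_mul, ← Finset.sum_mul]
      rw [← mulVec_mulVec, hw]) with e | e
  · exact (Submodule.eq_bot_iff U).1 e v hv
  · refine absurd (Matrix.ext_iff_mulVec.2 fun w => ?_) h1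
    have h2 : w ∈ U := e ▸ Submodule.mem_top
    simpa using h2 1

theorem one_off (b : BR σ d) {x : G} {o : Fin d} (h : ∀ i, i ≠ o → x ∈ b.K i) {i : Fin d}
    (hi : i ≠ o) : b.e i * (σ x - 1) = 0 := by
  rw [Matrix.mul_sub, k_right b (h i hi), Matrix.mul_one, sub_self]

theorem irr_of_one (b : BR σ d) {Z : Subalgebra ℂ (Mt N)} (hI : IrrZ σ Z)
    (hs : ∀ y ∈ Z, ∃ c : Fin d → ℂ, y = ∑ i, c i • b.e i) {x : G} {o : Fin d}
    (h : ∀ i, i ≠ o → x ∈ b.K i) (h1 : σ x ≠ 1) : IrrR σ := by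
  intro U hU
  let V : Submodule ℂ (Fin N → ℂ) :=
    { carrier := {v | ∀ i, b.e i *ᵥ v ∈ U}
      add_mem' := fun ha hb i => by rw [mulVec_add]; exact U.add_mem (ha i) (hb i)
      zero_mem' := fun i => by rw [mulVec_zero]; exact U.zero_mem
      smul_mem' := fun c a ha i => by rw [mulVec_smul]; exact U.smul_mem c (ha i) }
  rcases hI V (fun γ w hw i => by
      rw [← (b.π γ).apply_symm_apply i, irrb_act]
      exact hU γ _ (hw _))
    (fun z hz w hw i => by
      obtain ⟨c, rfl⟩ := hs z hz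
      rw [mulVec_mulVec, Finset.mul_sum, Finset.sum_eq_single i (fun j _ hj => by
        rw [Matrix.mul_smul, b.orth i j hj.symm, smul_zero]) fun h => absurd (Finset.mem_univ i) h,
        Matrix.mul_smul, b.idem, smul_mulVec]
      exact U.smul_mem _ (hw i)) with e | e
  · refine Or.inl ((Submodule.eq_bot_iff U).2 fun v hv => fix_zero b hI hs h h1 fun γ => ?_)
    have h2 : (σ (γ * x * γ⁻¹) - 1) *ᵥ v ∈ U := by
      rw [sub_mulVec, one_mulVec]
      exact U.sub_mem (hU _ v hv) hv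
    have h3 := (Submodule.eq_bot_iff V).1 e ((σ (γ * x * γ⁻¹) - 1) *ᵥ v) fun i => by
      by_cases hi : i = b.π γ o
      · rw [← irrb_sum b (_ *ᵥ v), Finset.sum_eq_single i (fun j _ hj => by
          rw [mulVec_mulVec, one_off b (one_conj b h γ) (hi ▸ hj), zero_mulVec])
          fun h => absurd (Finset.mem_univ i) h] at h2
        exact h2
      · rw [mulVec_mulVec, one_off b (one_conj b h γ) hi, zero_mulVec]
        exact U.zero_mem
    rwa [sub_mulVec, one_mulVec, sub_eq_zero] at h3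
  · refine Or.inr (eq_top_iff.2 fun v _ => ?_)
    rw [← irrb_sum b v]
    exact U.sum_mem fun i _ => (e ▸ Submodule.mem_top : v ∈ V) i

theorem inv_cent {S : Set (Mt N)} (h : ∀ γ, ∀ y ∈ S, σ γ⁻¹ * y * σ γ ∈ S) :
    InvR σ (Subalgebra.centralizer ℂ S) := fun γ x hx => by
  rw [Subalgebra.mem_centralizer_iff] at hx ⊢
  intro y hy
  have h1 := congrArg (fun w => σ γ * w * σ γ⁻¹) (hx _ (h γ y hy))
  simp only [← Matrix.mul_assoc, rep_mul_inv, Matrix.one_mul] at h1
  simp only [← Matrix.mul_assoc]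
  rw [h1]
  simp only [Matrix.mul_assoc, rep_mul_inv, Matrix.mul_one]

theorem finOn_cov (r d : ℕ) (hr : 1 ≤ r) (hd : d ≠ 0) : ∃ k : ℕ, ∀ (n : ℕ) (Mov : Finset (Fin n))
    (L0 : List (Fin n)) (G : Type) [Group G] (g : Fin n → G) (σ : G →* Mt (r * d))
    (Z : Subalgebra ℂ (Mt (r * d))), L0.Nodup → (∀ a, a ∈ L0) →
    Subgroup.closure (Set.range g) = ⊤ → Function.Injective σ →
    (∀ x, IsLoop Mov L0 g x → QU (σ x)) → InvR σ Z → CommA Z → Module.finrank ℂ Z = d →
    IrrZ σ Z → (∀ a ∈ Mov, One r (d - 1) Z (σ (g a))) →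
    (∀ Z' : Subalgebra ℂ (Mt (r * d)), InvR σ Z' → Z ≤ Z' → (∀ x ∈ Z, ∀ y ∈ Z', x * y = y * x) →
      (∃ y ∈ Z', y ∉ Z) → ∃ M ⊆ Mov, k ≤ M.card ∧ ∀ a ∈ M, ∃ x ∈ Z', σ (g a) * x ≠ x * σ (g a)) →
    FinOn σ {y | ∀ z ∈ Z, z * y = y * z} := by
  classical
  have : NeZero (r * d) := ⟨Nat.mul_ne_zero (by omega) hd⟩
  obtain ⟨k, hk⟩ := finOn_abs (r * d)
  refine ⟨k + 1, fun n Mov L0 G _ g σ Z h0 hall hg hi hl hZ hc hf hI h1 h2 => ?_⟩
  have := wed_semiZ hI hZ
  obtain ⟨e, e0, em, eo, e1, es⟩ := exists_idemS hc hf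
  obtain ⟨b, rfl⟩ := exists_BR hi hZ e0 em eo e1 es
  have hrk := b.rank_eq (b.trans (fun U k1 k2 => hI U k1 fun z hz v hv => by
    obtain ⟨c, rfl⟩ := es z hz
    rw [sum_mulVec]
    exact U.sum_mem fun i _ => by rw [smul_mulVec]; exact U.smul_mem _ (k2 i v hv)) e0) rfl
  have : Nonempty (Fin d) := ⟨⟨0, Nat.pos_of_ne_zero hd⟩⟩
  choose! o ho using fun a ha => one_sheet hr b hrk em hd (h1 a ha)
  have hCi : InvR σ (Subalgebra.centralizer ℂ (Z : Set (Mt (r * d)))) := inv_cent fun γ y hy => by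
    simpa only [inv_inv, SetLike.mem_coe] using hZ γ⁻¹ y hy
  by_cases hC : ∃ y ∈ Subalgebra.centralizer ℂ (Z : Set (Mt (r * d))), y ∉ Z
  swap
  · push Not at hC
    have : Group.FG G := ⟨⟨Finset.univ.image g, by
      rw [Finset.coe_image, Finset.coe_univ, Set.image_univ, hg]⟩⟩
    have hcm : ∀ i (γ : b.π.ker), σ γ * b.e i = b.e i * σ γ := fun i γ => by
      rw [b.act, MonoidHom.mem_ker.1 γ.2]
      rfl
    choose χ hχ using fun i => exists_char σ b.π.ker (e0 i) fun γ hγ => by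
      obtain ⟨c, hc'⟩ := es (σ γ) (hC _ ((Subalgebra.mem_centralizer_iff ℂ).2 fun z hz => by
        obtain ⟨c, rfl⟩ := es z hz
        simp only [Finset.mul_sum, Finset.sum_mul, Matrix.mul_smul, Matrix.smul_mul]
        exact Finset.sum_congr rfl fun j _ => by rw [hcm j ⟨γ, hγ⟩]))
      refine ⟨c i, ?_⟩
      rw [hc', Finset.sum_mul, Finset.sum_eq_single i (fun j _ hj => by
        rw [Matrix.smul_mul, b.orth j i hj, smul_zero]) fun h => absurd (Finset.mem_univ i) h,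
        Matrix.smul_mul, b.idem]
    refine finOn_of σ _ b.π.ker b.e b.sum χ hχ hcm fun i j ⟨y, hy, hne⟩ γ => ?_
    have hij : i = j := by
      by_contra h3
      rw [hy _ (em i), Matrix.mul_assoc, b.orth i j h3, Matrix.mul_zero] at hne
      exact hne rfl
    rw [hij, div_self']
    exact IsOfFinOrder.one
  obtain ⟨M, m1, m2, m3⟩ := h2 _ hCi
    (fun x hx => (Subalgebra.mem_centralizer_iff ℂ).2 fun z hz => hc z hz x hx)
    (fun x hx y hy => (Subalgebra.mem_centralizer_iff ℂ).1 hy x hx) hC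
  have hne : ∀ a ∈ M, σ (g a) ≠ 1 := fun a ha e => by
    obtain ⟨x, -, hx⟩ := m3 a ha
    rw [e, Matrix.one_mul, Matrix.mul_one] at hx
    exact hx rfl
  obtain ⟨a₀, ha₀⟩ := Finset.card_pos.1 (by omega : 0 < M.card)
  refine hk n Mov L0 G g σ _ h0 hall hg (irr_of_one b hI es (ho a₀ (m1 ha₀)) (hne a₀ ha₀)) hl
    fun Z' hZ' ⟨x, hx, y, hy, hxy⟩ => ?_
  let R := Mov.filter fun a => ∃ x ∈ Z', σ (g a) * x ≠ x * σ (g a)
  by_contra hn
  have hR : R.card < k := by
    by_contra h3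
    exact hn ⟨R, Finset.filter_subset _ _, not_lt.1 h3, fun a ha => (Finset.mem_filter.1 ha).2⟩
  let T : Set (Mt (r * d)) := {w | ∃ a ∈ Mov, a ∉ R ∧ ∃ γ, w = σ (γ * g a * γ⁻¹)}
  have hTi : InvR σ (Subalgebra.centralizer ℂ T) := inv_cent (by
    rintro δ _ ⟨a, k1, k2, γ, rfl⟩
    refine ⟨a, k1, k2, δ⁻¹ * γ, ?_⟩
    rw [← map_mul, ← map_mul]
    congr 1
    group)
  have hZT : Z ≤ Subalgebra.centralizer ℂ T := fun z hz => by
    obtain ⟨c, rfl⟩ := es z hz
    refine sum_mem fun i _ => Subalgebra.smul_mem _ ((Subalgebra.mem_centralizer_iff ℂ).2 ?_) _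
    rintro _ ⟨a, k1, -, γ, rfl⟩
    exact one_comm b (one_conj b (ho a k1) γ) i
  have hZ'T : Z' ≤ Subalgebra.centralizer ℂ T := fun z hz => by
    rw [Subalgebra.mem_centralizer_iff]
    rintro _ ⟨a, k1, k2, γ, rfl⟩
    have k3 : σ (g a) * (σ γ⁻¹ * z * σ γ) = σ γ⁻¹ * z * σ γ * σ (g a) := by
      by_contra k4
      exact k2 (Finset.mem_filter.2 ⟨k1, _, by simpa only [inv_inv] using hZ' γ⁻¹ z hz, k4⟩)
    have k4 := congrArg (fun w => σ γ * w * σ γ⁻¹) k3
    simp only [← Matrix.mul_assoc, rep_mul_inv, Matrix.one_mul] at k4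
    simp only [map_mul, ← Matrix.mul_assoc]
    rw [← k4]
    simp only [Matrix.mul_assoc, rep_mul_inv, Matrix.mul_one]
  have hD : ∀ w ∈ Subalgebra.centralizer ℂ T, (∀ z ∈ Z, z * w = w * z) → w ∈ Z := by
    intro w k1 k2
    by_contra k3
    obtain ⟨M', p1, p2, p3⟩ := h2 (Subalgebra.centralizer ℂ T ⊓
      Subalgebra.centralizer ℂ (Z : Set (Mt (r * d))))
      (fun γ u hu => ⟨hTi γ u hu.1, hCi γ u hu.2⟩)
      (fun u hu => ⟨hZT hu, (Subalgebra.mem_centralizer_iff ℂ).2 fun z hz => hc z hz u hu⟩)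
      (fun u hu v hv => (Subalgebra.mem_centralizer_iff ℂ).1 hv.2 u hu)
      ⟨w, ⟨k1, (Subalgebra.mem_centralizer_iff ℂ).2 k2⟩, k3⟩
    have k4 : M' ⊆ R := fun a ha => by
      by_contra k5
      obtain ⟨u, hu, k6⟩ := p3 a ha
      exact k6 ((Subalgebra.mem_centralizer_iff ℂ).1 hu.1 _ ⟨a, p1 ha, k5, 1, by simp⟩)
    have := Finset.card_le_card k4
    omega
  obtain ⟨a, ha, haR⟩ := Finset.exists_mem_notMem_of_card_lt_card (by omega : R.card < M.card)
  have hTZ : ∀ w ∈ Subalgebra.centralizer ℂ T, w ∈ Z := fun w hw => by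
    have k1 : w = ∑ j, ∑ i, b.e i * w * b.e j := by
      simp only [← Finset.sum_mul, ← Finset.mul_sum, b.sum, Matrix.one_mul, Matrix.mul_one]
    rw [k1]
    refine sum_mem fun j _ => sum_mem fun i _ => ?_
    have k2 : b.e i * w * b.e j ∈ Subalgebra.centralizer ℂ T :=
      mul_mem (mul_mem (hZT (em i)) hw) (hZT (em j))
    by_cases hij : i = j
    · refine hD _ k2 fun z hz => ?_
      obtain ⟨c, rfl⟩ := es z hz
      subst hij
      simp only [Finset.mul_sum, Finset.sum_mul, Matrix.mul_smul, Matrix.smul_mul]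
      refine Finset.sum_congr rfl fun l _ => congrArg _ ?_
      by_cases hl : l = i
      · rw [hl, ← Matrix.mul_assoc, ← Matrix.mul_assoc, b.idem, Matrix.mul_assoc _ (b.e i), b.idem]
      · rw [← Matrix.mul_assoc, ← Matrix.mul_assoc, b.orth l i hl, Matrix.mul_assoc _ (b.e i),
          b.orth i l (Ne.symm hl), Matrix.zero_mul, Matrix.zero_mul, Matrix.mul_zero]
    · have k3 : b.e i * w * b.e j = 0 := Matrix.ext_iff_mulVec.2 fun v => by
        rw [zero_mulVec]
        refine fix_zero b hI es (ho a (m1 ha)) (hne a ha) fun γ => ?_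
        rw [mulVec_mulVec]
        congr 1
        by_cases hio : i = b.π γ (o a)
        · rw [(Subalgebra.mem_centralizer_iff ℂ).1 k2 _ ⟨a, m1 ha, haR, γ, rfl⟩,
            Matrix.mul_assoc _ (b.e j),
            k_right b (one_conj b (ho a (m1 ha)) γ j fun e => hij (hio.trans e.symm))]
        · rw [← Matrix.mul_assoc, ← Matrix.mul_assoc, (one_conj b (ho a (m1 ha)) γ i hio).2]
      rw [k3]
      exact zero_mem _
  refine hxy ?_
  rcases hy with hy | hy
  · exact hc _ (hTZ _ (hZ'T hx)) _ (hTZ _ (hZ'T hy))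
  · exact hy _ (hTZ _ (hZ'T hx))

end Pool.Agent.GR.CP
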