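import Pool.Agent.Lib.MP_aa40d3_nt.CP.Defs

/-! Ramification on one sheet gives ramification of the direct image. -/

open Polynomial Matrix
open scoped Polynomial.Bivariate

namespace Pool.Agent.GR.CP

open CV

variable {r d n : ℕ}

section
variable {K : Type} [Field K]

/-- The projection on the block `o`. -/
def pr (K : Type) [Field K] (r : ℕ) (o : Fin d) : Matrix (Fin r) (Fin (r * d)) K :=
  blk (fun _ => 1) o

theorem pr_bd (B : Fin d → Matrix (Fin r) (Fin r) K) (o : Fin d) :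
    pr K r o * bd B = B o * pr K r o := by
  rw [pr, blk_mul_bd, mul_blk]
  ext a i
  simp [blk]

theorem bd_pr (B : Fin d → Matrix (Fin r) (Fin r) K) (o : Fin d) :
    bd B * (pr K r o)ᵀ = (pr K r o)ᵀ * B o := by
  have h1 : (bd B)ᵀ = bd fun j => (B j)ᵀ := by
    ext i j
    by_cases h : sh i = sh j
    · simp [bd, h]
    · simp [bd, h, Ne.symm h]
  have h2 := congrArg transpose (pr_bd (fun j => (B j)ᵀ) o)
  rwa [transpose_mul, transpose_mul, ← h1, transpose_transpose, transpose_transpose] at h2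

theorem pr_mul (o : Fin d) : pr K r o * (pr K r o)ᵀ = 1 := by
  ext a b
  rw [mul_apply, sum_ix]
  simp [pr, blk, Matrix.one_apply, eq_comm]

theorem mul_pr (o : Fin d) :
    (pr K r o)ᵀ * pr K r o = diagonal fun j => if sh j = o then 1 else 0 := by
  ext i j
  by_cases h : i = j
  · subst h
    by_cases h1 : sh i = o <;> simp [pr, blk, mul_apply, Matrix.one_apply, h1]
  · rw [diagonal_apply_ne _ h]
    by_cases h1 : sh i = o
    · by_cases h2 : sh j = o
      · have h3 : co i ≠ co j := fun e => h (by rw [← ix_co_sh i, ← ix_co_sh j, e, h1, h2])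
        simp [pr, blk, mul_apply, Matrix.one_apply, h1, h2, h3.symm]
      · simp [pr, blk, mul_apply, h2]
    · simp [pr, blk, mul_apply, h1]

theorem loc_alg {N : ℕ} {U g g' Θ P : Matrix (Fin N) (Fin N) K} {O π : Matrix (Fin r) (Fin N) K}
    {Φ : Matrix (Fin r) (Fin r) K} {a c e : K} (hU : U.det ≠ 0) (hg : g' * g = e • 1)
    (hP : P * U = U * (πᵀ * π)) (hO : O * U = π) (h : O * Θ = c • (Φ * O)) :
    g * P * g' * (g * Θ * g') * a • (g * U) = (e * e * c) • (a • (g * U) * (πᵀ * Φ * π)) := by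
  have h1 : P = U * πᵀ * O := by
    refine ((isUnit_iff_isUnit_det U).2 hU.isUnit).mul_right_cancel ?_
    rw [hP, Matrix.mul_assoc, Matrix.mul_assoc, hO]
  have h2 : ∀ V : Matrix (Fin N) (Fin N) K, g' * (g * V) = e • V := fun V => by
    rw [← Matrix.mul_assoc, hg, Matrix.smul_mul, Matrix.one_mul]
  have h3 : O * (Θ * U) = c • (Φ * π) := by
    rw [← Matrix.mul_assoc, h, Matrix.smul_mul, Matrix.mul_assoc, hO]
  simp only [h1, Matrix.mul_assoc, Matrix.mul_smul, Matrix.smul_mul, h2, h3, smul_smul]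
  congr 1
  ring

theorem loc_idem {M U : Matrix (Fin (r * d)) (Fin (r * d)) K} {y f : Fin d → K} {o : Fin d}
    (hM : M * U = U * diagonal fun j => y (sh j))
    (hf : ∀ j, ∑ k : Fin d, f k * y j ^ (k : ℕ) = if j = o then 1 else 0) :
    (∑ k : Fin d, f k • M ^ (k : ℕ)) * U = U * ((pr K r o)ᵀ * pr K r o) := by
  rw [mul_pr, Finset.sum_mul]
  simp only [Matrix.smul_mul, wdr_pow hM, ← Matrix.mul_smul, ← Finset.mul_sum, ← wd_diag]
  congr 1
  ext1 a b
  rw [Matrix.sum_apply]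
  by_cases h : a = b
  · simp only [h, diagonal_apply_eq, hf]
  · simp only [diagonal_apply_ne _ h, Finset.sum_const_zero]

theorem loc_sum {N : ℕ} {U V g g' M T Z : Matrix (Fin N) (Fin N) K} {f : Fin d → K} {e : K}
    (he : e ≠ 0) (hV : U * V = 1)
    (h : g * (∑ k : Fin d, f k • M ^ (k : ℕ)) * g' * T * U = e • (U * Z)) :
    U * Z * V = ∑ k : Fin d, (e⁻¹ * f k) • (g * M ^ (k : ℕ) * g' * T) := by
  rw [← inv_smul_smul₀ he (U * Z), ← h, Matrix.smul_mul, Matrix.mul_assoc _ U, hV, Matrix.mul_one]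
  simp only [Finset.mul_sum, Finset.sum_mul, Matrix.mul_smul, Matrix.smul_mul, Finset.smul_sum,
    smul_smul]

theorem loc_cancel {N : ℕ} {U V : Matrix (Fin N) (Fin N) K} {s u : K} (hs : s ≠ 0)
    (h : (s * u) • U = s • V) : u • U = V :=
  smul_right_injective _ hs ((mul_smul s u U).symm.trans h)

end

theorem exp_inter {N : ℕ} {A : Matrix (Fin N) (Fin N) ℂ} {B : Matrix (Fin r) (Fin r) ℂ}
    {L : Matrix (Fin N) (Fin r) ℂ} (h : A * L = L * B) :
    NormedSpace.exp A * L = L * NormedSpace.exp B := by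
  have h0 : ∀ k : ℕ, A ^ k * L = L * B ^ k := fun k => by
    induction k with
    | zero => simp
    | succ k ih => rw [pow_succ, Matrix.mul_assoc, h, ← Matrix.mul_assoc, ih, Matrix.mul_assoc,
        ← pow_succ]
  have h1 := (exp_series A).map (Matrix.addMonoidHomMulRight L)
    (continuous_id.matrix_mul continuous_const)
  have h2 := (exp_series B).map (Matrix.addMonoidHomMulLeft L)
    (continuous_const.matrix_mul continuous_id)
  refine h1.unique ?_
  convert h2 using 1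
  · funext k
    change ((k.factorial : ℂ)⁻¹ • A ^ k) * L = L * ((k.factorial : ℂ)⁻¹ • B ^ k)
    rw [Matrix.smul_mul, Matrix.mul_smul, h0]
  · rfl

theorem loc_trunc (t : ℂ) {f : CV.LL} (h : Ov 0 f) (m : ℕ) :
    ∃ p : ℂ[X], Ov m (f - ev (xt t 1) p) := by
  induction m with
  | zero => exact ⟨0, by simpa using h⟩
  | succ m ih =>
    obtain ⟨p, hp⟩ := ih
    refine ⟨p + C ((f - ev (xt t 1) p).coeff m) * (X - C t) ^ m, ?_⟩
    rw [map_add, map_mul, map_pow, ev_xt_X_sub, ev_C, pow_one, ← sub_sub, ← zpow_natCast]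
    refine Ov.succ (hp.sub ((ov_alg _).mul_left (ov_zpow m))) ?_
    rw [HahnSeries.coeff_sub, coeff_alg_mul, sL_zpow, HahnSeries.coeff_single_same, mul_one,
      sub_self]

theorem loc_lat {N : ℕ} {ι : Type} [Fintype ι] {t : ℂ} {W : Subalgebra ℂ[X] (PM N)}
    (hW : ∀ (f : ℂ[X]) Φ, f ≠ 0 → f • Φ ∈ W → Φ ∈ W) {f : ι → CV.LL} {Ψ : ι → PM N}
    (hΨ : ∀ k, Ψ k ∈ W) {Z : LM N} (hZ : ∀ a b, Ov 0 (Z a b))
    (h : Z = ∑ k, f k • (Ψ k).map (ev (xt t 1))) :
    ∃ Φ ∈ W, Φ.map (eval t) = Z.map fun f => f.coeff 0 := by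
  obtain ⟨m, hm⟩ := exists_ov_fin f
  choose p hp using fun k => loc_trunc t (f := sL ^ (m : ℤ) * f k)
    (by simpa using (ov_zpow m).mul (hm k)) (m + 1)
  have h1 : ∀ a b, Ov (m + 1 : ℕ)
      (sL ^ (m : ℤ) * Z a b - ev (xt t 1) ((∑ k, p k • Ψ k) a b)) := fun a b => by
    rw [h, Matrix.sum_apply, Matrix.sum_apply, map_sum, Finset.mul_sum, ← Finset.sum_sub_distrib]
    refine Ov.sum fun k _ => ?_
    rw [Matrix.smul_apply, Matrix.smul_apply, smul_eq_mul, smul_eq_mul, map_mul, map_apply,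
      ← mul_assoc, ← sub_mul]
    exact (hp k).mul_right (ov_ev _ _ _)
  have h2 : ∀ a b, (X - C t) ^ m ∣ (∑ k, p k • Ψ k) a b := fun a b => by
    refine dvd_of_local (pow_ne_zero _ (X_sub_C_ne_zero t)) fun z hz => ?_
    obtain rfl : z = t := by
      rw [eval_pow, eval_sub, eval_X, eval_C] at hz
      exact sub_eq_zero.1 (pow_eq_zero_iff'.1 hz).1
    refine ⟨1, sL ^ (-(m : ℤ)) * ev (xt z 1) ((∑ k, p k • Ψ k) a b), le_rfl, ?_, ?_⟩
    · have h3 := (by simpa using (ov_zpow m).mul (hZ a b) : Ov m (sL ^ (m : ℤ) * Z a b)).sub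
        ((h1 a b).mono (by push_cast; omega))
      rw [sub_sub_cancel] at h3
      simpa using (ov_zpow (-(m : ℤ))).mul h3
    · rw [map_pow, ev_xt_X_sub, pow_one, ← zpow_natCast, ← mul_assoc, ← zpow_add₀ sL_ne,
        add_neg_cancel, zpow_zero, one_mul]
  choose Φ hΦ using h2
  refine ⟨Matrix.of Φ, hW ((X - C t) ^ m) _ (pow_ne_zero _ (X_sub_C_ne_zero t)) ?_,
    Matrix.ext fun a b => ?_⟩
  · have e : ((X - C t) ^ m : ℂ[X]) • Matrix.of Φ = ∑ k, p k • Ψ k :=
      Matrix.ext fun a b => (hΦ a b).symm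
    rw [e]
    exact sum_mem fun k _ => W.smul_mem (hΨ k) _
  · have h3 := h1 a b m (by push_cast; omega)
    rw [hΦ, map_mul, map_pow, ev_xt_X_sub, pow_one, ← zpow_natCast, ← mul_sub, coeff_zpow_mul,
      sub_self, HahnSeries.coeff_sub, ev_coeff_zero le_rfl, sub_eq_zero] at h3
    exact h3.symm

theorem loc_res {N : ℕ} {t : Fin n → ℂ} (ht : Function.Injective t)
    {A : Fin n → Matrix (Fin N) (Fin N) ℂ} {i : Fin n} {U Cm : LM N}
    (hC : ∀ a b, Ov 0 (Cm a b)) (hI : ∀ a b, Ov 0 (U a b))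
    (hU : MSol (dl t) (pm t A) (xt (t i) 1) U Cm) :
    A i * (U.map fun f => f.coeff 0) = (U.map fun f => f.coeff 0) * Cm.map fun f => f.coeff 0 := by
  obtain ⟨u, hu⟩ := dvd_iff_isRoot.2 (dl_eval t i)
  have hd : (derivative (dl t)).eval (t i) = u.eval (t i) := by
    rw [hu]
    simp
  have h1 := hU.2
  rw [sdL_xt, Nat.cast_one, one_mul] at h1
  conv_lhs at h1 => rw [hu, map_mul, ev_xt_X_sub]
  have h2 := loc_cancel (K := CV.LL) (pow_ne_zero 1 sL_ne) h1
  have h3 := coeff_mat_mul (U := (pm t A).map (ev (xt (t i) 1))) (fun a b => ov_ev _ _ _) hI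
  have h4 := coeff_mat_mul hI hC
  rw [add_zero] at h3 h4
  have h5 : (((pm t A).map (ev (xt (t i) 1))).map fun f => f.coeff 0) = (pm t A).map (eval (t i)) :=
    Matrix.ext fun a b => ev_coeff_zero le_rfl _
  rw [h5, pm_eval, ← h2, Matrix.smul_mul] at h3
  refine smul_right_injective _ (dl_deriv_ne ht i) (h3.symm.trans (Matrix.ext fun a b => ?_))
  have h6 := (ov_ev (t i) 1 u).coeff_mul (((hI a b).sder_one.mono zero_le_one).add
    (by simpa using ov_mat_mul hI hC a b))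
  rw [add_zero, ev_coeff_zero le_rfl, HahnSeries.coeff_add, (hI a b).sder_one 0 zero_lt_one,
    zero_add] at h6
  rw [← h4, hd]
  exact h6

theorem ram_of_loc {t : Fin n → ℂ} (ht : Function.Injective t)
    {A : Fin n → Matrix (Fin (r * d)) (Fin (r * d)) ℂ} {i : Fin n} {ρ : ℂ[X]} {G Mu : PM (r * d)}
    (hG : G.det ≠ 0) {U : LM (r * d)} {ys : Fin d → CV.LL}
    (hy : Function.Injective ys) {Bs : Fin d → Matrix (Fin r) (Fin r) CV.LL} {o : Fin d}
    (hB : ∀ j a b, Ov 0 (Bs j a b))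
    (hU : MSol (dl t) (pm t A) (xt (t i) 1) (ga ρ G (xt (t i) 1) U) (bd Bs))
    (hI : UI (ga ρ G (xt (t i) 1) U))
    (hM : Mu.map (ev (xt (t i) 1)) * U = U * diagonal fun j => ys (sh j))
    (hO : Om r d (ys o) * U = blk (fun _ => 1) o)
    {W : Subalgebra ℂ[X] (PM (r * d))} (hW : SubEnd t A W)
    (h1 : ∀ k : ℕ, G * Mu ^ k * G.adjugate ∈ W) {Θ : PM (r * d)} (h2 : G * Θ * G.adjugate ∈ W)
    {c : ℂ[X]} (hc : c ≠ 0) {Φ : Matrix (Fin r) (Fin r) CV.LL} (hΦ : ∀ a b, Ov 0 (Φ a b))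
    (h3 : Om r d (ys o) * Θ.map (ev (xt (t i) 1)) = ev (xt (t i) 1) c • (Φ * Om r d (ys o)))
    (h4 : ¬ Commute (NormedSpace.exp ((2 * Real.pi * Complex.I : ℂ) •
      (Bs o).map fun f => f.coeff 0)) (Φ.map fun f => f.coeff 0)) : RamAt t A W i := by
  classical
  obtain ⟨V, hV1, hV2, hV⟩ := ov_mat_inv hI.1 hI.2
  have hx : ∀ {p : ℂ[X]}, p ≠ 0 → ev (xt (t i) 1) p ≠ 0 := fun hp => ev_xt_ne le_rfl hp
  have hU0 : U.det ≠ 0 := fun e => hU.1 (by rw [ga, det_smul, det_mul, e, mul_zero, mul_zero])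
  obtain ⟨f, hf⟩ := wdr_vand hy fun j => if j = o then 1 else 0
  have hP := loc_idem (K := CV.LL) hM hf
  have h5 := loc_alg (a := (ev (xt (t i) 1) ρ)⁻¹) hU0 (wdr_adj (ev (xt (t i) 1)) G) hP hO h3
  have hπ : ∀ a b, Ov 0 (pr CV.LL r o a b) := fun a b => by
    simp only [pr, blk, of_apply, Matrix.one_apply]
    split_ifs
    exacts [ov_one, Ov.zero 0, Ov.zero 0]
  have hπ0 : ((pr CV.LL r o).map fun f => f.coeff 0) = pr ℂ r o := by
    ext a b
    simp only [pr, blk, map_apply, of_apply, Matrix.one_apply]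
    split_ifs <;> simp
  have hC : ∀ a b, Ov 0 (bd Bs a b) := fun a b => by
    simp only [bd, of_apply]
    split_ifs
    exacts [hB _ _ _, Ov.zero 0]
  have hC0 : ((bd Bs).map fun f => f.coeff 0) = bd fun j => (Bs j).map fun f => f.coeff 0 := by
    ext a b
    simp only [bd, map_apply, of_apply]
    split_ifs <;> simp
  have h6 := loc_res ht hC hI.1 hU
  rw [hC0] at h6
  change _ * ga ρ G _ U = _ • (ga ρ G _ U * _) at h5
  generalize ga ρ G (xt (t i) 1) U = U' at h5 h6 hV1 hV2 hI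
  have m0 : ∀ {α β γ : Type} [Fintype β] {P : Matrix α β CV.LL} {Q : Matrix β γ CV.LL},
      (∀ a b, Ov 0 (P a b)) → (∀ a b, Ov 0 (Q a b)) → (∀ a b, Ov 0 ((P * Q) a b)) ∧
        ((P * Q).map fun f => f.coeff 0) =
          (P.map fun f => f.coeff 0) * Q.map fun f => f.coeff 0 := fun hP hQ =>
    ⟨fun a b => by simpa using ov_mat_mul hP hQ a b, by simpa using coeff_mat_mul hP hQ⟩
  have a1 := m0 (P := (pr CV.LL r o)ᵀ) (fun a b => hπ b a) hΦ
  have a2 := m0 a1.1 hπ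
  have a3 := m0 hI.1 a2.1
  have a4 := m0 a3.1 hV
  have e0 := mul_ne_zero (mul_ne_zero (hx hG) (hx hG)) (hx hc)
  obtain ⟨Ψ, hΨ, e⟩ := loc_lat (t := t i) hW.2 (fun k : Fin d => W.mul_mem (h1 k) h2) a4.1
    (f := fun k => (ev (xt (t i) 1) G.det * ev (xt (t i) 1) G.det * ev (xt (t i) 1) c)⁻¹ * f k) (by
      simp only [Matrix.map_mul, wdr_map_pow]
      exact loc_sum (K := CV.LL) e0 hV1 h5)
  have a5 := (m0 hI.1 hV).2
  have a6 := (m0 hV hI.1).2
  have e1 : ((1 : LM (r * d)).map fun f => f.coeff 0) = 1 := Matrix.map_one _ (by simp) (by simp)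
  rw [hV1, e1] at a5
  rw [hV2, e1] at a6
  rw [a4.2, a3.2, a2.2, a1.2, transpose_map, hπ0] at e
  generalize (U'.map fun f => f.coeff 0) = u at h6 a5 a6 e
  generalize (V.map fun f => f.coeff 0) = v at a5 a6 e
  refine ⟨Ψ, hΨ, fun h7 => h4 ?_⟩
  have b1 := exp_inter (A := (2 * Real.pi * Complex.I : ℂ) • A i) (L := u * (pr ℂ r o)ᵀ)
    (B := (2 * Real.pi * Complex.I : ℂ) • (Bs o).map fun f => f.coeff 0) (by
      rw [Matrix.smul_mul, Matrix.mul_smul, ← Matrix.mul_assoc, h6, Matrix.mul_assoc, bd_pr,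
        Matrix.mul_assoc])
  have b2 := congrArg (fun w => pr ℂ r o * (v * (w * (u * (pr ℂ r o)ᵀ)))) h7.eq
  have b3 : ∀ w : Matrix (Fin (r * d)) (Fin r) ℂ, v * (u * w) = w := fun w => by
    rw [← Matrix.mul_assoc, ← a6, Matrix.one_mul]
  have b4 : ∀ w : Matrix (Fin r) (Fin r) ℂ, pr ℂ r o * ((pr ℂ r o)ᵀ * w) = w := fun w => by
    rw [← Matrix.mul_assoc, pr_mul, Matrix.one_mul]
  have b5 : ∀ w : Matrix (Fin r) (Fin r) ℂ, NormedSpace.exp ((2 * Real.pi * Complex.I : ℂ) • A i) *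
      (u * ((pr ℂ r o)ᵀ * w)) = u * ((pr ℂ r o)ᵀ * (NormedSpace.exp
        ((2 * Real.pi * Complex.I : ℂ) • (Bs o).map fun f => f.coeff 0) * w)) := fun w => by
    rw [← Matrix.mul_assoc u, ← Matrix.mul_assoc, b1, Matrix.mul_assoc, Matrix.mul_assoc]
  simp only [e, Matrix.mul_assoc, b1, b3, b4, b5, pr_mul, Matrix.mul_one] at b2
  exact b2

end Pool.Agent.GR.CP
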