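import Pool.Agent.Lib.MP_aa40d3_nt.CP.Core
import Pool.Agent.Lib.MP_aa40d3_nt.CP.Frames
import Pool.Agent.Lib.MP_aa40d3_nt.CP.Loc
import Pool.Agent.Lib.MP_aa40d3_nt.CP.Fld
import Pool.Agent.Lib.MP_aa40d3_nt.CP.AlgP
import Pool.Agent.Lib.MP_aa40d3_nt.CV.WdI

/-! Systems on a plane curve with many generic punctures. -/

open Polynomial Matrix
open scoped Polynomial.Bivariate

namespace Pool.Agent.GR.CP

open CV Pool.Agent.GR.GE NP FB
open Pool.Agent.Lib.MP_a01f70_lc.QQ (Place)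

variable {r d e n N : ℕ}

theorem rep_diag {R K : Type} [CommRing R] [Field K] (φ : R →+* K)
    {G Φ Mu : Matrix (Fin N) (Fin N) R} {U : Matrix (Fin N) (Fin N) K} {s : Fin N → Fin d}
    {y : Fin d → K} {p : Fin d → R} (hG : φ G.det ≠ 0)
    (h : G.det • (Φ * G) = G * ∑ k : Fin d, p k • Mu ^ (k : ℕ))
    (hM : Mu.map φ * U = U * diagonal fun j => y (s j)) (a : K) : ∃ f : Fin d → K,
      Φ.map φ * a • (G.map φ * U) = a • (G.map φ * U) * diagonal fun j => f (s j) := by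
  refine ⟨fun j => (φ G.det)⁻¹ * ∑ k : Fin d, φ (p k) * y j ^ (k : ℕ), ?_⟩
  have h1 : (∑ k : Fin d, φ (p k) • Mu.map φ ^ (k : ℕ)) * U =
      U * diagonal fun j => ∑ k : Fin d, φ (p k) * y (s j) ^ (k : ℕ) := by
    rw [Finset.sum_mul]
    simp only [Matrix.smul_mul, wdr_pow hM]
    ext a b
    simp only [Matrix.sum_apply, Matrix.smul_apply, mul_diagonal, smul_eq_mul, Finset.mul_sum]
    exact Finset.sum_congr rfl fun k _ => by ring
  have h2 := congrArg (fun M : Matrix (Fin N) (Fin N) R => M.map φ) h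
  simp only [wdr_map_smul, Matrix.map_mul, wdr_map_sum] at h2
  rw [wd_diag, Matrix.mul_smul, Matrix.mul_smul, Matrix.smul_mul, Matrix.mul_assoc, ← h1,
    ← Matrix.mul_assoc _ _ U, ← Matrix.mul_assoc _ _ U, ← h2, Matrix.smul_mul, smul_comm a,
    inv_smul_smul₀ hG]

theorem rep_comm {G Φ P Θ : PM N} (hG : G.det ≠ 0) (h : G.det • (Φ * G) = G * P)
    (hc : Θ * P = P * Θ) : Φ * (G * Θ * G.adjugate) = G * Θ * G.adjugate * Φ := by
  have h1 : G.det • (G.adjugate * Φ) = P * G.adjugate := by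
    refine smul_right_injective _ hG ?_
    have h2 := congrArg (fun M => G.adjugate * M * G.adjugate) h
    simp only [Matrix.mul_smul, Matrix.smul_mul, ← Matrix.mul_assoc, adjugate_mul,
      Matrix.one_mul] at h2
    rwa [Matrix.mul_assoc _ G, mul_adjugate, Matrix.mul_smul, Matrix.mul_one] at h2
  refine smul_right_injective _ hG ?_
  change G.det • _ = G.det • _
  rw [← Matrix.mul_assoc, ← Matrix.mul_assoc, ← Matrix.smul_mul, ← Matrix.smul_mul, h,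
    Matrix.mul_assoc _ _ Φ, ← Matrix.mul_smul, h1, Matrix.mul_assoc G P, ← hc]
  simp only [Matrix.mul_assoc]

theorem inv_row {K : Type} [Field K] {U Φ : Matrix (Fin N) (Fin N) K} {f : Fin N → K}
    (hU : U.det ≠ 0) (h : Φ * U = U * diagonal f) (i : Fin N) : U⁻¹ i ᵥ* Φ = f i • U⁻¹ i := by
  have h1 : U⁻¹ * Φ = diagonal f * U⁻¹ := by
    rw [← mul_nonsing_inv_cancel_right U Φ hU.isUnit, h, Matrix.mul_assoc,
      nonsing_inv_mul_cancel_left _ _ hU.isUnit]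
  funext a
  have h2 := congrFun (congrFun h1 i) a
  rwa [diagonal_mul] at h2

theorem fse_of {D : ℂ[X]} {B : PM (r * (e + 1))} {W : Subalgebra ℂ[X] (PM (r * (e + 1)))}
    {x : CV.LL} {U : LM (r * (e + 1))} {Bs : Fin (e + 1) → Matrix (Fin r) (Fin r) CV.LL}
    (hU : MSol D B x U (bd Bs)) (hB : ∀ j : Fin e, Bs j.succ = 0)
    (hW : ∀ Φ ∈ W, ∃ f : Fin (e + 1) → CV.LL,
      Φ.map (ev x) * U = U * diagonal fun j => f (sh j)) : FSE r e D B W x := by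
  refine ⟨fun j => U⁻¹ (ix (co j) (sh j).succ), fs_li (U := U) (e := fun j => ix (co j) (sh j).succ)
    (c := fun _ => 1) (fun _ => one_ne_zero) fun i j => ?_, fun j => fs_row hU fun l => ?_,
    fun Φ hΦ => ?_⟩
  · rw [fs_mul hU.1]
    refine if_congr ⟨fun h => ?_, fun h => by rw [h]⟩ rfl rfl
    have h1 := congrArg co h
    have h2 := congrArg sh h
    simp only [co_ix, sh_ix, Fin.succ_inj] at h1 h2
    rw [← ix_co_sh i, h1, h2, ix_co_sh]
  · simp [bd, hB]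
  · obtain ⟨f, hf⟩ := hW Φ hΦ
    refine ⟨fun k => f k.succ, fun j => ?_⟩
    have h1 := inv_row (K := CV.LL) hU.1 hf (ix (co j) (sh j).succ)
    rwa [sh_ix] at h1

variable {F : Type} [Field F] [Algebra ℂ F]

theorem Val.at {p : Place ℂ F} {H : Matrix (Fin r) (Fin r) F} {E : Matrix (Fin r) (Fin r) ℂ}
    (h : Val p H E) {φ : F →ₐ[ℂ] CV.LL} (hφ : At φ p) :
    (∀ a b, Ov 0 (H.map φ a b)) ∧ ((H.map φ).map fun f => f.coeff 0) = E := by
  have h1 : ∀ a b, Ov 1 (φ (H a b) - algebraMap ℂ CV.LL (E a b)) := fun a b => by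
    have h2 := hφ.ge.1 (h a b)
    rwa [map_sub, φ.commutes] at h2
  refine ⟨fun a b => ?_, Matrix.ext fun a b => ?_⟩
  · simpa using ((h1 a b).mono zero_le_one).add (ov_alg (E a b))
  · have h2 := h1 a b 0 zero_lt_one
    rw [HahnSeries.coeff_sub, alg_eq, HahnSeries.coeff_single_same, sub_eq_zero] at h2
    exact h2

theorem om_at {L : Type} [Field L] [Algebra ℂ L] (φ : F →ₐ[ℂ] L) {x y : F} {Θ : PM (r * d)}
    {c : ℂ[X]} {Φ : Matrix (Fin r) (Fin r) F}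
    (h : Om r d y * Θ.map (aeval x) = aeval x c • (Φ * Om r d y)) :
    Om r d (φ y) * Θ.map (aeval (φ x)) = aeval (φ x) c • (Φ.map φ * Om r d (φ y)) := by
  ext a b
  have h1 := congrArg φ (congrFun (congrFun h a) b)
  simpa only [Matrix.mul_apply, Matrix.smul_apply, smul_eq_mul, map_mul, map_sum, map_apply, Om,
    of_apply, apply_ite φ, map_pow, map_zero, aeval_algHom_apply] using h1

/-- An unramified fibre with one puncture. -/
def Pun (S : CV.Sys ℂ r) (x y : F) (B : Matrix (Fin r) (Fin r) F) (e : ℕ) (t : ℂ)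
    (p : Place ℂ F) (E : Matrix (Fin r) (Fin r) ℂ) : Prop :=
  ∃ (φ : F →ₐ[ℂ] CV.LL) (y' : Fin e → CV.LL), At φ p ∧ φ x = xt t 1 ∧
    Function.Injective (Fin.cons (φ y) y' : Fin (e + 1) → CV.LL) ∧
    (∀ j, S.Loc (xt t 1) (y' j)) ∧ Val p ((x - algebraMap ℂ F t) • B) E

/-- The frame at such a fibre. -/
def PF (S : CV.Sys ℂ r) (q : ℂ[X][Y]) (δ₀ : ℂ[X]) (x y : F) (e : ℕ) (t : ℂ) (p : Place ℂ F)
    (E : Matrix (Fin r) (Fin r) ℂ) (U : LM (r * (e + 1))) : Prop :=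
  ∃ (φ : F →ₐ[ℂ] CV.LL) (ys : Fin (e + 1) → CV.LL)
    (Bs : Fin (e + 1) → Matrix (Fin r) (Fin r) CV.LL), At φ p ∧ φ x = xt t 1 ∧ φ y = ys 0 ∧
    Function.Injective ys ∧ (∀ j a b, Ov 0 (Bs j a b)) ∧ (∀ j : Fin e, Bs j.succ = 0) ∧
    ((Bs 0).map fun f => f.coeff 0) = E ∧
    MSol (δ₀ * S.D) (pB S (e + 1) q δ₀) (xt t 1) U (bd Bs) ∧
    ((pM S (e + 1)).map (ev (xt t 1)) * U = U * diagonal fun j => ys (sh j)) ∧
    Om r (e + 1) (ys 0) * U = blk (fun _ => 1) 0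

theorem Pun.pf {S : CV.Sys ℂ r} {x y : F} {δ : Derivation ℂ F F} {B : Matrix (Fin r) (Fin r) F}
    (h : Con S x y δ B) {q : ℂ[X][Y]} {δ₀ : ℂ[X]} (hp : Prep S (e + 1) q δ₀) {t : ℂ}
    {p : Place ℂ F} {E : Matrix (Fin r) (Fin r) ℂ} (h1 : Pun S x y B e t p E) :
    ∃ U, PF S q δ₀ x y e t p E U := by
  obtain ⟨φ, y', a1, a2, a3, a4, a5⟩ := h1
  choose G hG using fun j => (a4 j).locG
  obtain ⟨b1, b2⟩ := a5.at a1
  have hs : φ (x - algebraMap ℂ F t) = sL := by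
    rw [map_sub, a2, φ.commutes, xt, add_sub_cancel_left, pow_one]
  obtain ⟨U, c1, c2, c3⟩ := push_loc hp a3 (x := xt t 1) (G := Fin.cons 1 G)
    (B := Fin.cons (((x - algebraMap ℂ F t) • B).map φ) fun _ => 0) fun j => by
      refine Fin.cases ?_ (fun j => hG j) j
      refine ⟨by rw [Fin.cons_zero, ← a2, ← ta1_map, h.m.root, map_zero], by simp,
        Matrix.ext fun a b => ?_⟩
      have h2 := congrArg φ (congrFun (congrFun h.eq a) b)
      have h3 : dL ((1 : Matrix (Fin r) (Fin r) CV.LL) a b) = 0 := by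
        rw [Matrix.one_apply]
        split_ifs
        exacts [dL_one, dL_zero]
      simp only [Matrix.smul_apply, Matrix.map_apply, smul_eq_mul, map_mul, ta1_map,
        ← aeval_algHom_apply, a2] at h2
      simp only [Fin.cons_zero, Matrix.one_mul, Matrix.mul_one, Matrix.smul_apply,
        Matrix.add_apply, Matrix.map_apply, smul_eq_mul, map_mul, hs, h3, sdL_xt, ev_apply]
      rw [← h2]
      ring
  refine ⟨U, φ, _, _, a1, a2, rfl, a3, fun j => Fin.cases b1 (fun _ _ _ => Ov.zero 0) j,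
    fun _ => rfl, b2, c1, c2, (c3 0).trans ?_⟩
  rfl

theorem final13a (r e : ℕ) (hr : 1 ≤ r) : ∃ k : ℕ, ∀ (n : ℕ) (R : Type) [CommRing R]
    [Algebra.FiniteType ℤ R] (ι : R →+* ℂ) (S : CV.Sys R r) (F : Type) [Field F] [Algebra ℂ F]
    (x y : F) (δ : Derivation ℂ F F) (B : Matrix (Fin r) (Fin r) F) (t : Fin n → ℂ)
    (M : Finset (Fin n)) (p : Fin n → Place ℂ F) (E : Fin n → Matrix (Fin r) (Fin r) ℂ),
    S.P.Monic → S.P.natDegree = e + 1 → Con (S.map ι) x y δ B →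
    (Function.Injective fun i => (t i).re) → (∀ i, (t i).re < 0) → Gen M t →
    (∀ i ∈ M, Pun (S.map ι) x y B e (t i) (p i) (E i)) →
    (∀ c, c ∉ Set.range t → (S.map ι).Unr (xt c 1) (e + 1)) → (S.map ι).Unr sL⁻¹ (e + 1) →
    IrrF δ B → (e + 1 = 1 ∨ DetF δ B) → RamF k δ B M p E →
    (∀ m : Ideal R, m.IsMaximal → (S.map (Ideal.Quotient.mk m)).Tri) → (S.map ι).Alg := by
  classical
  obtain ⟨k, hk⟩ := coreP r (e + 1) hr e.succ_ne_zero
  refine ⟨k, fun n R _ _ ι S F _ _ x y δ B t M p E hP hdeg hC hre hneg hgen hPu hU hI hIr hDe hRa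
    hF => ?_⟩
  have : NeZero (r * (e + 1)) := ⟨Nat.mul_ne_zero (by omega) e.succ_ne_zero⟩
  have ht : Function.Injective t := fun i j h => hre (by simp only [h])
  have hinf : ∀ {p : ℂ[X]}, p ≠ 0 → ev sL⁻¹ p ≠ 0 := fun hp => (map_ne_zero_iff _ ev_inv_inj).2 hp
  obtain ⟨q, δ₀, hp, hδ⟩ : ∃ q δ₀, Prep S (e + 1) q δ₀ ∧ δ₀.map ι ≠ 0 := by
    obtain ⟨y, hy, h⟩ := hI
    exact exists_prep ι hP hdeg e.succ_ne_zero hy fun j => (h j).1
  have hp' := hp.map ι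
  have hD1 := mul_ne_zero hδ hC.D
  obtain ⟨V, ys, hy, -, hV, hMu⟩ := push_unr' hp' hI
  have hK := katzN ι (D := δ₀ * S.D) (B := pB S (e + 1) q δ₀) hδ (by rwa [Polynomial.map_mul])
    fun R' _ _ j m _ => ht_red hp hF j m
  rw [Polynomial.map_mul, pB_map hP, show S.D.map ι = (S.map ι).D from rfl] at hK
  have hpc := fun k' z A ρ G a b c => pcn_curve (n := n + k') (t := Fin.append t z) (A := A)
    (ρ := ρ) (G := G) ι hp hδ hC.D a b c hF
  generalize S.map ι = S' at *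
  generalize q.map (mapRingHom ι) = q' at *
  generalize δ₀.map ι = δ' at *
  have key : ∀ z : ℂ, ∃ U : LM (r * (e + 1)),
      (z ∉ Set.range t → TG (δ' * S'.D) (pB S' (e + 1) q' δ') z U) ∧
      (∃ Cm : LM (r * (e + 1)), (∀ i j, Ov 0 (Cm i j)) ∧
        MSol (δ' * S'.D) (pB S' (e + 1) q' δ') (xt z 1) U Cm) ∧
      ∀ i ∈ M, t i = z → PF S' q' δ' x y e z (p i) (E i) U := by
    intro z
    by_cases hz : z ∈ Set.range t
    · obtain ⟨i, rfl⟩ := hz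
      by_cases hi : i ∈ M
      · obtain ⟨U, h1⟩ := (hPu i hi).pf hC hp'
        refine ⟨U, fun h2 => absurd ⟨i, rfl⟩ h2, ?_, fun j _ h2 => ht h2 ▸ h1⟩
        obtain ⟨-, -, Bs, -, -, -, -, h2, -, -, h3, -⟩ := h1
        refine ⟨_, fun a b => ?_, h3⟩
        simp only [bd, of_apply]
        split_ifs
        exacts [h2 _ _ _, Ov.zero 0]
      · obtain ⟨U, h1⟩ := hK (t i)
        exact ⟨U, fun h2 => absurd ⟨i, rfl⟩ h2, h1, fun j hj h2 => absurd (ht h2 ▸ hj) hi⟩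
    · obtain ⟨U, -, -, h1, -⟩ := push_unr hp' (hU z hz)
      exact ⟨U, fun _ => h1, ⟨0, fun _ _ => Ov.zero 0, h1⟩, fun i _ hi => absurd ⟨i, hi⟩ hz⟩
  choose U k1 k2 k3 using key
  obtain ⟨k', z, ρ, G, A, hz, hρ, hG, g, hcyc, hUI⟩ := exists_fr (U := U) ht hD1
    ⟨k1, fun i _ => by
      obtain ⟨Cm, a, b⟩ := k2 (t i)
      exact ⟨Cm, Finset.univ, by simp, a, fun j h => absurd (Finset.mem_univ j) h, b⟩,
      fun i hi => absurd hi (Finset.notMem_empty i)⟩ hV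
  have hV' := g.msol (hinf hD1) (hinf hρ) (hinf hG) hV
  have hst := WW_stab (sh := sh (r := r) (d := e + 1)) hV'
    (by rw [sdL_inv]; exact neg_ne_zero.2 (inv_ne_zero sL_ne))
  have hpow := pM_pow hp' (⟨0, hr⟩ : Fin r)
  have hmem := WW_mem (ρ := ρ) (G := G) hMu
  have hrep := fun Φ => WW_rep (Φ := Φ) (G := G) ev_inv_inj hρ hV.1 hMu hy hpow
  have hx : ∀ {c : ℂ} {p : ℂ[X]}, p ≠ 0 → ev (xt c 1) p ≠ 0 := fun hp => ev_xt_ne le_rfl hp
  have et : ∀ i, Fin.append t z (Fin.castAddEmb k' i) = t i := fun i => Fin.append_left t z i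
  refine alg_of_on hp' hC.m.irr e.succ_ne_zero g hD1 hρ hG (fun Θ hΘ => ?_)
    (hk _ (M.map (Fin.castAddEmb k')) _ A _ (hz.gen hgen) (nat_re hz hre hneg) hcyc
      (wirr_of_colIrr (push_irr hp' hδ (hC.irr hIr)) g (dl_ne _) hρ hG
        (by simpa only [pow_one] using hmem 1))
      hst (WW_comm ev_inv_inj hV'.1) (WW_rank ev_inv_inj hρ hV.1 hG hMu hy hpow)
      (fun i' hi' => FSE.ase hz.1 ?_) (fun W' a1 a2 a3 a4 => ?_) (hpc k' z A ρ G hρ hG g))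
    (hDe.imp_right hC.detP)
  · intro Φ hΦ
    refine rep_comm hG (hrep Φ hΦ) ?_
    simp only [Finset.mul_sum, Finset.sum_mul, Matrix.mul_smul, Matrix.smul_mul]
    exact Finset.sum_congr rfl fun j _ => congrArg _ (Commute.pow_right hΘ _).eq
  · obtain ⟨i, hi, rfl⟩ := Finset.mem_map.1 hi'
    obtain ⟨φ, ys', Bs, -, -, -, -, -, b1, -, b2, b3, -⟩ := k3 _ i hi rfl
    rw [et]
    exact fse_of (g.msol (hx hD1) (hx hρ) (hx hG) b2) b1 fun Φ hΦ =>
      rep_diag (K := CV.LL) _ (hx hG) (hrep Φ hΦ) b3 _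
  · obtain ⟨W, c1, c2, c3⟩ := hC.exists_sub hp' e.succ_ne_zero hδ g hρ hG hmem
      (fun c Φ hc => WW_sat ev_inv_inj hc) a1 a2 a3 a4
    obtain ⟨M', d1, d2, d3⟩ := hRa W c1 c2
    refine ⟨M'.map (Fin.castAddEmb k'), Finset.map_subset_map.2 d1, by rwa [Finset.card_map],
      fun i' hi' => ?_⟩
    obtain ⟨i, hi, rfl⟩ := Finset.mem_map.1 hi'
    obtain ⟨Φ, hΦ, Ψ, e1, e2⟩ := d3 i hi
    obtain ⟨c, Θ, e3, e4, e5⟩ := c3 Φ hΦ
    obtain ⟨φ, ys', Bs, b1, b2, b3, b4, b5, -, b6, b7, b8, b9⟩ := k3 _ i (d1 hi) rfl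
    obtain ⟨e6, e7⟩ := e1.at b1
    refine ram_of_loc (ρ := ρ) (U := U (t i)) hz.1 hG b4 b5 ?_ ?_ ?_ b9 a1 (fun j => a2 (hmem j)) e4 e3 e6
      ?_ (by rwa [b6, e7])
    · rw [et]
      exact g.msol (hx hD1) (hx hρ) (hx hG) b7
    · rw [et]
      exact hUI i
    · rw [et]
      exact b8
    · rw [et, ← b2, ← b3]
      exact om_at φ e5

end Pool.Agent.GR.CP
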